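import Pool.Agent.H98.Fold.Pre

/-!
# Polylogarithmic sumsets: the structure of the sumset
-/

set_option autoImplicit false

namespace Pool.Agent.H98.Fold

open Finset H112 Pool.Agent.H98.Gap Pool.Agent.H98.Big
open scoped Pointwise

universe u

/-- the body of `Y1` -/
def CSC (C : ℝ) : Prop :=
  ∀ (G : Type u) [AddCommGroup G] [DecidableEq G] (A : Finset G) (K : ℝ)
    (l : ℕ), A.Nonempty → 1 ≤ K → ((A + A).card : ℝ) ≤ K * A.card → 1 ≤ l →
    ∃ T : Finset G, T ⊆ A ∧ T.Nonempty ∧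
      (A.card : ℝ) ≤ Real.exp (C * l ^ 2 * Real.log (2 * K) ^ 2) * T.card ∧
      l • T - l • T ⊆ 2 • A - 2 • A

/-- the structure of `n A`, with explicit parameters -/
theorem fold_core {C₀ : ℝ} (hcs : CSC.{u} C₀) (hy2 : Y2.{u}) (hy3 : Y3.{u}) (hy4 : Y4.{u})
    (hy5 : Y5.{u}) (hy6 : Y6.{u}) (hy8 : Y8.{u}) {G : Type u} [AddCommGroup G] [DecidableEq G]
    [AddGroup.FG G] {A : Finset G} (h0 : (0 : G) ∈ A) {K L δ r₀ s₀ : ℝ}
    {n k E j I R q₀ q₁ k₀ t p₀ : ℕ} (hK : 1 ≤ K)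
    (hdoub : ((n • A + n • A).card : ℝ) ≤ K * (n • A).card) (hn : 1 ≤ n) (hk1 : 1 ≤ k)
    (hk : 3 * K ^ 5 < 4 ^ k) (hL : C₀ * k ^ 2 * Real.log (2 * K) ^ 2 ≤ L)
    (hgrow : ∀ m : ℕ, 1 ≤ m → (m • (A - A)).card ≤ (4 * m) ^ E * (n • (A - A)).card)
    (hδ : 0 < δ) (hI : ((4 * ((I + 1) * n) : ℕ) : ℝ) ^ E < (1 + δ) ^ I)
    (hj : (3 : ℝ) ^ (R + 1) ≤ 2 ^ j)
    (hR : 8 * (Real.log 2 + E * Real.log (4 * (n * (1 + j * I))) + 2 * Real.log K + L) < R + 1)
    (hq₀1 : 1 ≤ q₀) (hq₁1 : 1 ≤ q₁) (hq₀ : 2 * R ≤ r₀ * q₀) (hq₁ : 2 * R ≤ (s₀ / 2) * q₁)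
    (hδs : 2 * δ ≤ s₀ / 2) (hs₀ : 0 < s₀) (hsr : s₀ ≤ r₀) (hr : (3 * k₀ * t + 1) * r₀ ≤ 1 / 6)
    (hk₀ : K ^ 6 * (q₀ : ℝ) ^ R < ((t : ℝ) + 1) ^ k₀)
    (hp₀ : K ^ 7 * (q₁ : ℝ) ^ R < 2 ^ (p₀ + 1)) (hpn : p₀ * (p₀ + k₀ + 1) ≤ n)
    (hpn' : p₀ + 1 ≤ n) (hfin : ((p₀ : ℝ) + k₀ + 1) * s₀ + k₀ * (k₀ * r₀) ≤ 1 / 6) :
    ∃ (D : ℕ) (V : Set (Fin D → ℝ)) (ψ : (Fin D → ℤ) →+ G), Convex ℝ V ∧ IsCompact V ∧
      (∀ x ∈ V, -x ∈ V) ∧ (∀ x : Fin D → ℝ, (∀ i, |x i| ≤ 1) → x ∈ V) ∧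
      (∀ x ∈ n • A, ∃ z : Fin D → ℤ, (fun i => (z i : ℝ)) ∈ V ∧ x = ψ z) ∧
      ∀ z : Fin D → ℤ, (fun i => (z i : ℝ)) ∈ V → ψ z ∈ 8 • (n • A) - 8 • (n • A) := by
  classical
  have hK0 : 0 < K := by linarith
  obtain ⟨X, hX⟩ : ∃ X, X = n • A := ⟨_, rfl⟩
  rw [← hX] at hdoub
  have h0X : (0 : G) ∈ X := by rw [hX]; exact Finset.zero_mem_nsmul h0
  have hXne : X.Nonempty := ⟨0, h0X⟩
  have hX0 : (0 : ℝ) < X.card := by exact_mod_cast hXne.card_pos
  have hXX : n • (A - A) = X - X := by rw [hX, nsmul_sub]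
  have h0A : (0 : G) ∈ A - A := Finset.mem_sub.2 ⟨0, h0, 0, h0, sub_zero 0⟩
  have hAA : A ⊆ A - A := fun a ha => Finset.mem_sub.2 ⟨a, ha, 0, h0, sub_zero a⟩
  have hsym : -(A - A) = A - A := by rw [neg_sub]
  have hmul : ∀ m : ℕ, m • X - m • X = m • (X - X) := fun m => (nsmul_sub X X m).symm
  have hr16 : r₀ ≤ 1 / 6 := by
    have hr0 : 0 ≤ r₀ := by linarith
    have : (0 : ℝ) ≤ 3 * k₀ * t * r₀ := by positivity
    nlinarith
  -- Croot-Sisask
  obtain ⟨T, hTX, hTne, hTc, hTT⟩ := hcs G X K k hXne hK hdoub hk1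
  have hT0 : (0 : ℝ) < T.card := by exact_mod_cast hTne.card_pos
  have hTc' : (X.card : ℝ) ≤ Real.exp L * T.card :=
    hTc.trans (mul_le_mul_of_nonneg_right (Real.exp_le_exp.2 hL) hT0.le)
  have hXT : ((X + k • T).card : ℝ) ≤ K ^ 5 * X.card := by
    obtain ⟨t₀, ht₀⟩ := hTne.nsmul (n := k)
    have hsub : X + k • T ⊆ (3 • X - 2 • X) + {t₀} := by
      intro y hy
      obtain ⟨x, hx, w, hw, rfl⟩ := Finset.mem_add.1 hy
      obtain ⟨u, hu, v, hv, huv⟩ := Finset.mem_sub.1 (hTT (Finset.sub_mem_sub hw ht₀))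
      refine Finset.mem_add.2 ⟨(x + u) - v, ?_, t₀, Finset.mem_singleton_self _, ?_⟩
      · refine Finset.sub_mem_sub ?_ hv
        have e : (3 : ℕ) • X = X + 2 • X := by rw [show (3 : ℕ) = 1 + 2 by norm_num, add_smul, one_smul]
        rw [e]
        exact Finset.add_mem_add hx hu
      · have : x + u - v + t₀ = x + (u - v) + t₀ := by abel
        rw [this, huv]; abel
    have h1 := Finset.card_le_card hsub
    rw [Finset.add_singleton, Finset.card_vadd_finset] at h1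
    have h2 := plun hXne hdoub 3 2
    exact le_trans (by exact_mod_cast h1) h2
  -- the Bohr set
  obtain ⟨S, hS⟩ : ∃ S : Set (G →+ UnitAddCircle), S = big T := ⟨_, rfl⟩
  have hbohr : ∀ x ∈ bohr S (1 / 6), x ∈ 3 • (X - X) := by
    intro x hx
    rw [hS] at hx
    have h1 := hy2 G X T (K ^ 5) k hXne hTne hXT hk x hx
    have h2 : X - X + (k • T - k • T) ⊆ 3 • (X - X) := by
      have e : (3 : ℕ) • (X - X) = X - X + 2 • (X - X) := by
        rw [show (3 : ℕ) = 1 + 2 by norm_num, add_smul, one_smul]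
      rw [e, ← hmul 2]
      exact Finset.add_subset_add_left hTT
    exact h2 h1
  have hbfin : (bohr S (1 / 6)).Finite := (Finset.finite_toSet (3 • (X - X))).subset hbohr
  have hbfin' : ∀ r : ℝ, r ≤ 1 / 6 → (bohr S r).Finite := fun r hr =>
    hbfin.subset (bohr_mono S hr)
  have hb6 : ((bohr S (1 / 6)).ncard : ℝ) ≤ K ^ 6 * X.card := by
    have h1 := Set.ncard_le_ncard hbohr (Finset.finite_toSet _)
    rw [Set.ncard_coe_finset, ← hmul 3] at h1
    have h2 := plun hXne hdoub 3 3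
    exact le_trans (by exact_mod_cast h1) h2
  -- Folner
  obtain ⟨i, hi1, hiI, hfol⟩ := folner hδ hn (A₀ := A - A) ⟨0, h0A⟩ hgrow hI
  obtain ⟨Z, hZ⟩ : ∃ Z, Z = (i * n) • (A - A) := ⟨_, rfl⟩
  have h0Z : (0 : G) ∈ Z := by rw [hZ]; exact Finset.zero_mem_nsmul h0A
  have hZne : Z.Nonempty := ⟨0, h0Z⟩
  have hshift : ∀ x ∈ X - X, (((Z + {x}) \ Z).card : ℝ) ≤ δ * Z.card := by
    intro x hx
    rw [← hXX] at hx
    have hsub1 : Z + {x} ⊆ ((i + 1) * n) • (A - A) := by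
      rw [hZ, show (i + 1) * n = i * n + n by ring, add_smul]
      exact Finset.add_subset_add_left (Finset.singleton_subset_iff.2 hx)
    have hsub2 : Z ⊆ ((i + 1) * n) • (A - A) := by
      rw [hZ]
      exact Finset.nsmul_subset_nsmul_right h0A (Nat.mul_le_mul_right _ (Nat.le_succ i))
    have h1 : ((Z + {x}) \ Z).card ≤ ((((i + 1) * n) • (A - A)) \ Z).card :=
      Finset.card_le_card (Finset.sdiff_subset_sdiff hsub1 (Finset.Subset.refl _))
    have h2 := Finset.card_sdiff_add_card_eq_card hsub2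
    have h3 : ((((((i + 1) * n) • (A - A)) \ Z).card : ℕ) : ℝ) + Z.card =
        ((((i + 1) * n) • (A - A)).card : ℝ) := by exact_mod_cast h2
    have h4 : (((Z + {x}) \ Z).card : ℝ) ≤ (((((i + 1) * n) • (A - A)) \ Z).card : ℕ) := by
      exact_mod_cast h1
    rw [← hZ] at hfol
    linarith
  -- the bound for the dissociated families in the spectrum
  have hFsub : T - j • Z ⊆ (n + j * (i * n)) • (A - A) := by
    rw [add_smul, mul_smul, ← hZ]
    have e : j • Z = -(j • Z) := by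
      rw [hZ, ← mul_smul]
      exact (neg_nsmul_eq hsym _).symm
    rw [sub_eq_add_neg, ← e]
    refine Finset.add_subset_add_right (hTX.trans ?_)
    rw [hX]
    exact Finset.nsmul_subset_nsmul_left hAA
  have hFc : ((T - j • Z).card : ℝ) ≤ (4 * (n * (1 + j * I)) : ℝ) ^ E * (K ^ 2 * (Real.exp L * T.card)) := by
    have h1 := Finset.card_le_card hFsub
    have h2 := hgrow (n + j * (i * n)) (by omega)
    have h3 : (n • (A - A)).card = (X - X).card := by rw [hXX]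
    rw [h3] at h2
    have h4 := plun hXne hdoub 1 1
    rw [one_smul] at h4
    have h5 : ((T - j • Z).card : ℝ) ≤ ((4 * (n + j * (i * n)) : ℕ) : ℝ) ^ E * (X - X).card := by
      exact_mod_cast h1.trans h2
    have h6 : ((4 * (n + j * (i * n)) : ℕ) : ℝ) ≤ 4 * (n * (1 + j * I)) := by
      have h7 : (i : ℝ) ≤ I := by exact_mod_cast hiI
      push_cast
      have h8 : (j : ℝ) * (i * n) ≤ j * (I * n) := by gcongr
      have h9 : (n : ℝ) * (1 + j * I) = n + j * (I * n) := by ring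
      rw [h9]
      linarith
    calc _ ≤ _ := h5
      _ ≤ (4 * (n * (1 + j * I)) : ℝ) ^ E * (K ^ (1 + 1) * X.card) :=
          mul_le_mul (pow_le_pow_left₀ (Nat.cast_nonneg _) h6 _) h4 (Nat.cast_nonneg _)
            (by positivity)
      _ ≤ _ := by
          refine mul_le_mul_of_nonneg_left ?_ (by positivity)
          exact mul_le_mul_of_nonneg_left hTc' (by positivity)
  have hFpos : (0 : ℝ) < (T - j • Z).card := by
    exact_mod_cast (hTne.sub (hZne.nsmul (n := j))).card_pos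
  have hn0 : (0 : ℝ) < n := by exact_mod_cast hn
  have hlog : 8 * Real.log (2 * (T - j • Z).card / T.card) < R + 1 := by
    refine lt_of_le_of_lt ?_ hR
    refine mul_le_mul_of_nonneg_left ?_ (by norm_num)
    have h1 : 2 * ((T - j • Z).card : ℝ) / T.card ≤
        2 * ((4 * (n * (1 + j * I)) : ℝ) ^ E * (K ^ 2 * Real.exp L)) := by
      rw [div_le_iff₀ hT0]
      calc 2 * ((T - j • Z).card : ℝ) ≤
            2 * ((4 * (n * (1 + j * I)) : ℝ) ^ E * (K ^ 2 * (Real.exp L * T.card))) :=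
              mul_le_mul_of_nonneg_left hFc (by norm_num)
        _ = _ := by ring
    have hbase : (0 : ℝ) < 4 * (n * (1 + j * I)) := by positivity
    refine (Real.log_le_log (by positivity) h1).trans (le_of_eq ?_)
    rw [Real.log_mul (by norm_num) (by positivity), Real.log_mul (by positivity) (by positivity),
      Real.log_mul (by positivity) (Real.exp_pos _).ne', Real.log_exp, Real.log_pow, Real.log_pow]
    push_cast
    ring
  obtain ⟨s, Λ, hsR, -, hspan⟩ := hy4 (G →+ UnitAddCircle) (big T) (big Z) R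
    (fun η hη => big_neg hη) (chang_bound hy3 hTne hZne hj hlog)
  rw [← hS] at hspan
  have hsR' : (s : ℝ) ≤ R := by exact_mod_cast hsR
  -- the Bohr sets are large
  have hlarge : ∀ (r : ℝ) (q : ℕ), r ≤ 1 / 6 → 1 ≤ q → 2 * R ≤ r * q → 2 * δ ≤ r →
      X.card ≤ q ^ R * (bohr S r).ncard := by
    intro r q hr6 hq hRq hδr
    have h1 := hy5 G X Z S s q Λ δ r hXne hZne hq (by linarith) hδr hshift hspan
    refine h1.trans (Nat.mul_le_mul (Nat.pow_le_pow_right hq hsR) ?_)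
    exact Set.ncard_le_ncard (fun x hx => hx.2) (hbfin' r hr6)
  have hl₀ := hlarge r₀ q₀ hr16 hq₀1 hq₀ (by linarith)
  have hl₁ := hlarge (s₀ / 2) q₁ (by linarith) hq₁1 hq₁ hδs
  have hb₀pos : 0 < (bohr S r₀).ncard := by
    rcases Nat.eq_zero_or_pos (bohr S r₀).ncard with h | h
    · rw [h, mul_zero] at hl₀
      have := hXne.card_pos
      omega
    · exact h
  have hb₁pos : 0 < (bohr S (s₀ / 2)).ncard := by
    rcases Nat.eq_zero_or_pos (bohr S (s₀ / 2)).ncard with h | h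
    · rw [h, mul_zero] at hl₁
      have := hXne.card_pos
      omega
    · exact h
  -- the lattice structure
  obtain ⟨k', N, θ, hk', hannfin, hNe, hrep, hθ⟩ := hy6 G S r₀ s₀ k₀ t hbfin hs₀.le hsr hr (by
    have h1 : (X.card : ℝ) ≤ (q₀ : ℝ) ^ R * (bohr S r₀).ncard := by exact_mod_cast hl₀
    have h2 : (0 : ℝ) < (bohr S r₀).ncard := by exact_mod_cast hb₀pos
    have h3 : ((bohr S (1 / 6)).ncard : ℝ) < ((t : ℝ) + 1) ^ k₀ * (bohr S r₀).ncard := by
      calc _ ≤ _ := hb6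
        _ ≤ K ^ 6 * ((q₀ : ℝ) ^ R * (bohr S r₀).ncard) := mul_le_mul_of_nonneg_left h1 (by positivity)
        _ = (K ^ 6 * (q₀ : ℝ) ^ R) * (bohr S r₀).ncard := by ring
        _ < _ := mul_lt_mul_of_pos_right hk₀ h2
    exact_mod_cast h3)
  -- the dissociated subset of `A`
  obtain ⟨p, lam, hpp, hlam, hAspan⟩ := hy4 G (A : Set G) (bohr S s₀) p₀
    (fun η hη => bohr_neg hη) (elem_bound h0 (hbfin' _ (by linarith)) hpn' (by
      have hsub : ((n • A : Finset G) : Set G) + bohr S (s₀ / 2) ⊆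
          ((4 • X - 3 • X : Finset G) : Set G) := by
        rintro _ ⟨x, hx, y, hy, rfl⟩
        have h1 := hbohr y (bohr_mono S (by linarith) hy)
        rw [← hmul 3] at h1
        obtain ⟨u, hu, v, hv, rfl⟩ := Finset.mem_sub.1 h1
        rw [Finset.mem_coe]
        refine Finset.mem_sub.2 ⟨x + u, ?_, v, hv, by simp only; abel⟩
        have e : (4 : ℕ) • X = X + 3 • X := by rw [show (4 : ℕ) = 1 + 3 by norm_num, add_smul, one_smul]
        rw [e]
        rw [← hX] at hx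
        exact Finset.add_mem_add (Finset.mem_coe.1 hx) hu
      have h1 := Set.ncard_le_ncard hsub (Finset.finite_toSet _)
      rw [Set.ncard_coe_finset] at h1
      have h2 := plun hXne hdoub 4 3
      have h3 : (X.card : ℝ) ≤ (q₁ : ℝ) ^ R * (bohr S (s₀ / 2)).ncard := by exact_mod_cast hl₁
      have h4 : (0 : ℝ) < (bohr S (s₀ / 2)).ncard := by exact_mod_cast hb₁pos
      have h5 : (((((n • A : Finset G) : Set G) + bohr S (s₀ / 2)).ncard : ℕ) : ℝ) <
          2 ^ (p₀ + 1) * (bohr S (s₀ / 2)).ncard := by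
        calc _ ≤ (((4 • X - 3 • X : Finset G)).card : ℝ) := by exact_mod_cast h1
          _ ≤ K ^ 7 * X.card := h2
          _ ≤ K ^ 7 * ((q₁ : ℝ) ^ R * (bohr S (s₀ / 2)).ncard) :=
            mul_le_mul_of_nonneg_left h3 (by positivity)
          _ = (K ^ 7 * (q₁ : ℝ) ^ R) * (bohr S (s₀ / 2)).ncard := by ring
          _ < _ := mul_lt_mul_of_pos_right hp₀ h4
      exact_mod_cast h5))
  have hk'r : (k' : ℝ) ≤ k₀ := by exact_mod_cast hk'
  have hppr : (p : ℝ) ≤ p₀ := by exact_mod_cast hpp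
  have hr₀0 : 0 < r₀ := by linarith
  obtain ⟨D, V, ψ, hV1, hV2, hV3, hV4, hV5, hV6⟩ := hy8 G A (ann S) n p k' lam θ N (k' * r₀) s₀ h0
    hannfin (by positivity) hs₀.le (fun i => Finset.mem_coe.1 (hlam i)) hNe (by
      intro a ha
      obtain ⟨ε, hε, η, hη, he⟩ := hAspan a (Finset.mem_coe.2 ha)
      obtain ⟨c, hc, hcη⟩ := hrep η hη
      refine ⟨ε, c, hε, hc, ?_⟩
      have e : a - ∑ i, ε i • lam i - θ c = η - θ c := by
        rw [he]; abel
      rw [e]; exact hcη) (by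
      refine le_trans ?_ hpn
      exact Nat.mul_le_mul hpp (by omega))
  refine ⟨D, V, ψ, hV1, hV2, hV3, hV4, hV5, ?_⟩
  intro z hz
  obtain ⟨x, hx, y, hy, b, h, hh, hb, he⟩ := hV6 z hz
  have hθb : θ b ∈ 3 • (X - X) := by
    refine hbohr _ (hθ b (hb.trans (le_trans ?_ hfin)))
    have h1 : ((p : ℝ) + k' + 1) * s₀ ≤ ((p₀ : ℝ) + k₀ + 1) * s₀ :=
      mul_le_mul_of_nonneg_right (by linarith) hs₀.le
    have h2 : (k' : ℝ) * (k' * r₀) ≤ k₀ * (k₀ * r₀) := by gcongr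
    linarith
  have hhb : h ∈ 3 • (X - X) := by
    refine hbohr _ ?_
    intro γ hγ
    rw [hh γ hγ, norm_zero]
    norm_num
  rw [← hX, hmul 8, he]
  have e : (8 : ℕ) • (X - X) = (X - X) + (X - X) + (3 • (X - X) + 3 • (X - X)) := by
    rw [show (8 : ℕ) = 1 + 1 + (3 + 3) by norm_num]
    simp only [add_smul, one_smul]
  rw [e]
  rw [← hX] at hx hy
  exact Finset.add_mem_add (Finset.add_mem_add hx hy) (Finset.add_mem_add hθb hhb)

end Pool.Agent.H98.Fold
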