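import Pool.Agent.H98.Fold.Stmt

set_option autoImplicit false

namespace Pool.Agent.H98.Fold

open Finset H112
open scoped Pointwise

universe u

namespace Q1L

theorem image_diff {G G' : Type*} [AddCommGroup G] [AddCommGroup G'] [DecidableEq G]
    [DecidableEq G'] (φ : G →+ G') (S : Finset G) (n : ℕ) :
    (n • S - n • S).image φ = n • S.image φ - n • S.image φ := by
  rw [← Finset.image_nsmul]
  exact Finset.image_image₂_distrib (map_sub φ)

theorem image_two {G G' : Type*} [AddCommGroup G] [AddCommGroup G'] [DecidableEq G]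
    [DecidableEq G'] (φ : G →+ G') (S : Finset G) :
    (S + S).image φ = S.image φ + S.image φ := by
  rw [Finset.image_add]

/-- the finitely generated case -/
theorem fg {G : Type u} [AddCommGroup G] [DecidableEq G] [AddGroup.FG G] {A : Finset G} {K C : ℝ}
    {l : ℕ} (hA : A.Nonempty) (hK : ((A + A).card : ℝ) ≤ K * A.card)
    (h : ∀ (Q : Type) [AddCommGroup Q] [Fintype Q] [DecidableEq Q] (A : Finset Q),
      A.Nonempty → ((A + A).card : ℝ) ≤ K * A.card →
      ∃ T : Finset Q, T ⊆ A ∧ T.Nonempty ∧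
        (A.card : ℝ) ≤ Real.exp (C * l ^ 2 * Real.log (2 * K) ^ 2) * T.card ∧
        l • T - l • T ⊆ 2 • A - 2 • A) :
    ∃ T : Finset G, T ⊆ A ∧ T.Nonempty ∧
      (A.card : ℝ) ≤ Real.exp (C * l ^ 2 * Real.log (2 * K) ^ 2) * T.card ∧
      l • T - l • T ⊆ 2 • A - 2 • A := by
  classical
  obtain ⟨Q, _, _, π, hπ⟩ := exists_finite_quotient G
    (A ∪ (l • A - l • A) ∪ (2 • A - 2 • A))
  have hπA : Set.InjOn π A := hπ.mono (by
    intro x hx
    simp only [coe_union, Set.mem_union]
    exact Or.inl (Or.inl hx))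
  have hcard : (A.image π).card = A.card := Finset.card_image_of_injOn hπA
  obtain ⟨T₁, hT₁A, hT₁ne, hT₁c, hT₁s⟩ := h Q (A.image π) (hA.image π) (by
    rw [← image_two, hcard]
    refine le_trans ?_ hK
    exact_mod_cast Finset.card_image_le)
  have himg : (A.filter fun a => π a ∈ T₁).image π = T₁ := by
    ext q
    rw [mem_image]
    constructor
    · rintro ⟨a, ha, rfl⟩
      exact (mem_filter.mp ha).2
    · intro hq
      obtain ⟨a, ha, rfl⟩ := mem_image.mp (hT₁A hq)
      exact ⟨a, mem_filter.mpr ⟨ha, hq⟩, rfl⟩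
  refine ⟨A.filter fun a => π a ∈ T₁, filter_subset _ _, ?_, ?_, ?_⟩
  · rw [← himg] at hT₁ne
    exact Finset.image_nonempty.mp hT₁ne
  · rw [hcard] at hT₁c
    refine hT₁c.trans ?_
    refine mul_le_mul_of_nonneg_left ?_ (Real.exp_pos _).le
    have h1 : T₁.card ≤ (A.filter fun a => π a ∈ T₁).card := by
      conv_lhs => rw [← himg]
      exact Finset.card_image_le
    exact_mod_cast h1
  · intro x hx
    have hx1 : π x ∈ 2 • A.image π - 2 • A.image π := by
      apply hT₁s
      rw [← himg, ← image_diff]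
      exact mem_image_of_mem _ hx
    rw [← image_diff] at hx1
    obtain ⟨y, hy, hyx⟩ := mem_image.mp hx1
    have hxA : x ∈ l • A - l • A := by
      refine Finset.sub_subset_sub ?_ ?_ hx
      · exact Finset.nsmul_subset_nsmul_left (filter_subset _ _)
      · exact Finset.nsmul_subset_nsmul_left (filter_subset _ _)
    have : y = x := hπ (by
      simp only [coe_union, Set.mem_union]
      exact Or.inr hy) (by
      simp only [coe_union, Set.mem_union]
      exact Or.inl (Or.inr hxA)) hyx
    rw [← this]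
    exact hy

end Q1L

theorem y1 (h : Y1a) : Y1.{u} := by
  classical
  obtain ⟨C, hC, h⟩ := h
  refine ⟨C, hC, ?_⟩
  intro G _ _ A K l hA hK1 hK hl
  obtain ⟨Γ, hΓ⟩ : ∃ Γ : AddSubgroup G, Γ = AddSubgroup.closure (A : Set G) := ⟨_, rfl⟩
  obtain ⟨A', hA'⟩ := exists_model A Γ (fun a ha => by
    rw [hΓ]; exact AddSubgroup.subset_closure ha)
  have hinj : Function.Injective Γ.subtype := Γ.subtype_injective
  have : AddGroup.FG Γ := by
    rw [AddGroup.fg_iff_addSubgroup_fg]
    exact ⟨A, hΓ.symm⟩
  have hcard : A'.card = A.card := by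
    rw [← hA', Finset.card_image_of_injective _ hinj]
  have hA'ne : A'.Nonempty := by
    rw [← hA'] at hA
    exact Finset.image_nonempty.mp hA
  obtain ⟨T, hTA, hTne, hTc, hTs⟩ := Q1L.fg (A := A') (K := K) (C := C) (l := l) hA'ne (by
    have h1 : (A' + A').card = (A + A).card := by
      rw [← hA', ← Q1L.image_two, Finset.card_image_of_injective _ hinj]
    rw [h1, hcard]
    exact hK) (fun Q _ _ _ B hB hBK => h Q B K l hB hK1 hBK hl)
  refine ⟨T.image Γ.subtype, ?_, hTne.image _, ?_, ?_⟩
  · rw [← hA']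
    exact Finset.image_subset_image hTA
  · rw [Finset.card_image_of_injective _ hinj, ← hcard]
    exact hTc
  · rw [← hA', ← Q1L.image_diff, ← Q1L.image_diff]
    exact Finset.image_subset_image hTs

end Pool.Agent.H98.Fold
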