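import Pool.Agent.H98.Fold.Stmt
import Pool.Graph.R_pool_sql_team_seeded_63374d34.N142.CD.MOM

/-!
# FOLD, part Y1a: Croot-Sisask in finite abelian groups (helper588)
-/

set_option autoImplicit false
set_option linter.unusedSectionVars false

namespace Pool.Agent.H98.Fold

namespace Q1aL

open Finset
open scoped Pointwise

variable {G : Type} [AddCommGroup G] [Fintype G] [DecidableEq G]

/-- `F(x)`: the proportion of the `a ∈ A` with `x + a ∈ S` -/
noncomputable def Fn (A S : Finset G) (x : G) : ℝ :=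
  (∑ a ∈ A, if x + a ∈ S then (1 : ℝ) else 0) / A.card

/-- `g(y)`: the mean of `F(x + y)` over `x ∈ A` -/
noncomputable def gn (A S : Finset G) (y : G) : ℝ :=
  (∑ x ∈ A, Fn A S (x + y)) / A.card

/-- the sample mean -/
noncomputable def Fa (S : Finset G) {k : ℕ} (a : Fin k → G) (x : G) : ℝ :=
  (∑ i, if x + a i ∈ S then (1 : ℝ) else 0) / k

theorem Fa_shift (S : Finset G) {k : ℕ} (z : Fin k → G) (x s : G) :
    Fa S (fun i => z i - s) (x + s) = Fa S z x := by
  unfold Fa
  congr 1
  refine Finset.sum_congr rfl fun i _ => ?_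
  have : x + s + (z i - s) = x + z i := by abel
  rw [this]

theorem step1 (h : Pool.Agent.N142.CD.S_MOM) (A S : Finset G) (k m : ℕ) (hA : A.Nonempty)
    (hk : 1 ≤ k) (hm : 1 ≤ m) (x : G) :
    ∑ a ∈ Fintype.piFinset (fun _ : Fin k => A), (Fa S a x - Fn A S x) ^ (2 * m) ≤
      (A.card : ℝ) ^ k * (6 * m / k : ℝ) ^ m := by
  have hk' : (0 : ℝ) < k := by exact_mod_cast hk
  have h1 := h G A (fun b => if x + b ∈ S then (1 : ℝ) else 0) k m hA hk hm
    (fun a _ => by split_ifs <;> norm_num)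
  have h2 : ∀ a : Fin k → G,
      (∑ i, ((if x + a i ∈ S then (1 : ℝ) else 0) -
        (∑ b ∈ A, if x + b ∈ S then (1 : ℝ) else 0) / A.card)) = k * (Fa S a x - Fn A S x) := by
    intro a
    rw [Finset.sum_sub_distrib, Finset.sum_const, Finset.card_univ, Fintype.card_fin, nsmul_eq_mul,
      mul_sub]
    unfold Fa Fn
    congr 1
    field_simp
  have h3 : ∑ a ∈ Fintype.piFinset (fun _ : Fin k => A), ((k : ℝ) * (Fa S a x - Fn A S x)) ^ (2 * m) ≤
      (A.card : ℝ) ^ k * (6 * m * k) ^ m := by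
    refine le_trans (le_of_eq ?_) h1
    refine Finset.sum_congr rfl fun a _ => ?_
    rw [← h2 a]
  have h4 : ∑ a ∈ Fintype.piFinset (fun _ : Fin k => A), ((k : ℝ) * (Fa S a x - Fn A S x)) ^ (2 * m) =
      (k : ℝ) ^ (2 * m) *
        ∑ a ∈ Fintype.piFinset (fun _ : Fin k => A), (Fa S a x - Fn A S x) ^ (2 * m) := by
    rw [Finset.mul_sum]
    refine Finset.sum_congr rfl fun a _ => ?_
    rw [mul_pow]
  rw [h4] at h3
  have hkp : (0 : ℝ) < (k : ℝ) ^ (2 * m) := by positivity
  have h5 : (k : ℝ) ^ (2 * m) * ((A.card : ℝ) ^ k * (6 * m / k : ℝ) ^ m) =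
      (A.card : ℝ) ^ k * (6 * m * k) ^ m := by
    have : (k : ℝ) ^ (2 * m) * (6 * m / k : ℝ) ^ m = (6 * m * k) ^ m := by
      rw [pow_mul, ← mul_pow]
      congr 1
      field_simp
    calc (k : ℝ) ^ (2 * m) * ((A.card : ℝ) ^ k * (6 * m / k : ℝ) ^ m)
        = (A.card : ℝ) ^ k * ((k : ℝ) ^ (2 * m) * (6 * m / k : ℝ) ^ m) := by ring
      _ = _ := by rw [this]
  rw [← h5] at h3
  exact le_of_mul_le_mul_left h3 hkp

theorem zero_of_notMem (A S : Finset G) (k : ℕ) (x : G)
    (hx : x ∉ S - A) (a : Fin k → G) (ha : a ∈ Fintype.piFinset (fun _ : Fin k => A)) :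
    Fa S a x - Fn A S x = 0 := by
  have key : ∀ b ∈ A, x + b ∉ S := by
    intro b hb hbS
    apply hx
    have : x = (x + b) - b := by abel
    rw [this]
    exact Finset.sub_mem_sub hbS hb
  have h1 : Fa S a x = 0 := by
    unfold Fa
    rw [Finset.sum_eq_zero, zero_div]
    intro i _
    rw [if_neg (key _ (Fintype.mem_piFinset.1 ha i))]
  have h2 : Fn A S x = 0 := by
    unfold Fn
    rw [Finset.sum_eq_zero, zero_div]
    intro b hb
    rw [if_neg (key b hb)]
  rw [h1, h2, sub_zero]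

theorem step2 (h : Pool.Agent.N142.CD.S_MOM) (A S : Finset G) (k m : ℕ) (hA : A.Nonempty)
    (hk : 1 ≤ k) (hm : 1 ≤ m) :
    ∑ a ∈ Fintype.piFinset (fun _ : Fin k => A), ∑ x, (Fa S a x - Fn A S x) ^ (2 * m) ≤
      (A.card : ℝ) ^ k * ((S - A).card * (6 * m / k : ℝ) ^ m) := by
  rw [Finset.sum_comm]
  have h1 : ∑ x, ∑ a ∈ Fintype.piFinset (fun _ : Fin k => A), (Fa S a x - Fn A S x) ^ (2 * m) =
      ∑ x ∈ S - A, ∑ a ∈ Fintype.piFinset (fun _ : Fin k => A), (Fa S a x - Fn A S x) ^ (2 * m) := by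
    symm
    apply Finset.sum_subset (Finset.subset_univ _)
    intro x _ hx
    refine Finset.sum_eq_zero fun a ha => ?_
    rw [zero_of_notMem A S k x hx a ha]
    exact zero_pow (by omega)
  rw [h1]
  calc ∑ x ∈ S - A, ∑ a ∈ Fintype.piFinset (fun _ : Fin k => A), (Fa S a x - Fn A S x) ^ (2 * m)
      ≤ ∑ x ∈ S - A, (A.card : ℝ) ^ k * (6 * m / k : ℝ) ^ m :=
        Finset.sum_le_sum fun x _ => step1 h A S k m hA hk hm x
    _ = (A.card : ℝ) ^ k * ((S - A).card * (6 * m / k : ℝ) ^ m) := by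
        rw [Finset.sum_const, nsmul_eq_mul]; ring

/-- Markov's inequality for a sum of nonnegative terms -/
theorem markov {ι : Type*} (P : Finset ι) (E : ι → ℝ) (M : ℝ) (hM : 0 ≤ M) (hE : ∀ a ∈ P, 0 ≤ E a)
    (h : ∑ a ∈ P, E a ≤ P.card * M) :
    (P.card : ℝ) ≤ 2 * (P.filter (fun a => E a ≤ 2 * M)).card := by
  classical
  have hsplit : (P.filter (fun a => E a ≤ 2 * M)).card + (P.filter (fun a => ¬ E a ≤ 2 * M)).card =
      P.card := Finset.card_filter_add_card_filter_not _
  rcases hM.eq_or_lt with h0 | hpos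
  · have hz : ∀ a ∈ P, E a = 0 := by
      rw [← h0, mul_zero] at h
      have := (Finset.sum_eq_zero_iff_of_nonneg hE).1 (le_antisymm h (Finset.sum_nonneg hE))
      exact this
    have : P.filter (fun a => E a ≤ 2 * M) = P := by
      apply Finset.filter_true_of_mem
      intro a ha
      rw [hz a ha, ← h0, mul_zero]
    rw [this]
    have : (0 : ℝ) ≤ P.card := by positivity
    linarith
  · have h1 : ((P.filter (fun a => ¬ E a ≤ 2 * M)).card : ℝ) * (2 * M) ≤ P.card * M := by
      calc ((P.filter (fun a => ¬ E a ≤ 2 * M)).card : ℝ) * (2 * M)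
          = ∑ a ∈ P.filter (fun a => ¬ E a ≤ 2 * M), 2 * M := by
            rw [Finset.sum_const, nsmul_eq_mul]
        _ ≤ ∑ a ∈ P.filter (fun a => ¬ E a ≤ 2 * M), E a := by
            refine Finset.sum_le_sum fun a ha => ?_
            exact (not_le.1 (Finset.mem_filter.1 ha).2).le
        _ ≤ ∑ a ∈ P, E a :=
            Finset.sum_le_sum_of_subset_of_nonneg (Finset.filter_subset _ _)
              (fun a ha _ => hE a ha)
        _ ≤ P.card * M := h
    have h2 : ((P.filter (fun a => ¬ E a ≤ 2 * M)).card : ℝ) * 2 ≤ P.card := by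
      have : (((P.filter (fun a => ¬ E a ≤ 2 * M)).card : ℝ) * 2) * M ≤ P.card * M := by
        linarith
      exact le_of_mul_le_mul_right this hpos
    have h3 : ((P.filter (fun a => E a ≤ 2 * M)).card : ℝ) +
        (P.filter (fun a => ¬ E a ≤ 2 * M)).card = P.card := by exact_mod_cast hsplit
    linarith

theorem double (A : Finset G) (k : ℕ) (L : Finset (Fin k → G))
    (hA : A.Nonempty) (hL : L ⊆ Fintype.piFinset (fun _ : Fin k => A)) :
    ∃ z : Fin k → G, ((A.card : ℝ) * L.card) ≤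
      (A + A).card ^ k * (A.filter (fun s => (fun i => z i - s) ∈ L)).card := by
  classical
  set Z := Fintype.piFinset (fun _ : Fin k => A + A) with hZ
  have hZc : Z.card = (A + A).card ^ k := by
    rw [hZ, Fintype.card_piFinset_const]
  have hZne : Z.Nonempty := by
    rw [hZ, Fintype.piFinset_nonempty]
    intro i
    exact hA.add hA
  have hcount : A.card * L.card ≤ ∑ z ∈ Z, (A.filter (fun s => (fun i => z i - s) ∈ L)).card := by
    have h1 : ∑ z ∈ Z, (A.filter (fun s => (fun i => z i - s) ∈ L)).card =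
        ∑ s ∈ A, (Z.filter (fun z => (fun i => z i - s) ∈ L)).card := by
      simp only [Finset.card_filter]
      exact Finset.sum_comm
    rw [h1]
    calc A.card * L.card = ∑ s ∈ A, L.card := by rw [Finset.sum_const, smul_eq_mul]
      _ ≤ ∑ s ∈ A, (Z.filter (fun z => (fun i => z i - s) ∈ L)).card := by
        refine Finset.sum_le_sum fun s hs => ?_
        refine Finset.card_le_card_of_injOn (fun a i => a i + s) ?_ ?_
        · intro a ha
          have ha' : a ∈ L := ha
          simp only [Finset.coe_filter, Set.mem_setOf_eq]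
          refine ⟨?_, ?_⟩
          · rw [hZ, Fintype.mem_piFinset]
            intro i
            exact Finset.add_mem_add (Fintype.mem_piFinset.1 (hL ha') i) hs
          · have : (fun i => a i + s - s) = a := by funext i; simp
            rw [this]
            exact ha'
        · intro a _ b _ hab
          funext i
          have := congrFun hab i
          simpa using this
  by_contra hcon
  push Not at hcon
  have h2 : ∑ z ∈ Z, (((A + A).card ^ k : ℕ) : ℝ) * ((A.filter (fun s => (fun i => z i - s) ∈ L)).card : ℝ) <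
      ∑ z ∈ Z, ((A.card : ℝ) * L.card) := by
    refine Finset.sum_lt_sum_of_nonempty hZne fun z _ => ?_
    have := hcon z
    push_cast
    exact this
  rw [← Finset.mul_sum, Finset.sum_const, nsmul_eq_mul, hZc] at h2
  have hpos : (0 : ℝ) < (((A + A).card ^ k : ℕ) : ℝ) := by
    rw [← hZc]
    exact_mod_cast Finset.card_pos.2 hZne
  have h3 := lt_of_mul_lt_mul_left h2 hpos.le
  have h4 : ((A.card * L.card : ℕ) : ℝ) ≤
      ((∑ z ∈ Z, (A.filter (fun s => (fun i => z i - s) ∈ L)).card : ℕ) : ℝ) := by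
    exact_mod_cast hcount
  push_cast at h4
  linarith

theorem pow_add_le (p q : ℝ) (m : ℕ) (hm : 1 ≤ m) :
    (p + q) ^ (2 * m) ≤ 2 ^ (2 * m - 1) * (p ^ (2 * m) + q ^ (2 * m)) := by
  have h1 : (p + q) ^ (2 * m) = |p + q| ^ (2 * m) := (Even.pow_abs ⟨m, by ring⟩ _).symm
  have h2 : p ^ (2 * m) = |p| ^ (2 * m) := (Even.pow_abs ⟨m, by ring⟩ _).symm
  have h3 : q ^ (2 * m) = |q| ^ (2 * m) := (Even.pow_abs ⟨m, by ring⟩ _).symm
  rw [h1, h2, h3]
  calc |p + q| ^ (2 * m) ≤ (|p| + |q|) ^ (2 * m) :=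
        pow_le_pow_left₀ (abs_nonneg _) (abs_add_le _ _) _
    _ ≤ _ := add_pow_le (abs_nonneg _) (abs_nonneg _) _


theorem t_CS (h : Pool.Agent.N142.CD.S_MOM) (A S : Finset G) (K : ℝ) (k m : ℕ) (hA : A.Nonempty)
    (hK : ((A + A).card : ℝ) ≤ K * A.card) (hk : 1 ≤ k) (hm : 1 ≤ m) :
    ∃ T : Finset G, T ⊆ A ∧ (A.card : ℝ) ≤ 2 * K ^ k * T.card ∧
      ∀ s ∈ T, ∀ s' ∈ T, ∑ x, (Fn A S (x + s) - Fn A S (x + s')) ^ (2 * m) ≤
        2 ^ (2 * m) * (2 * ((S - A).card * (6 * m / k : ℝ) ^ m)) := by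
  classical
  set M : ℝ := (S - A).card * (6 * m / k : ℝ) ^ m with hMdef
  have hM : 0 ≤ M := by positivity
  set P := Fintype.piFinset (fun _ : Fin k => A) with hP
  set E : (Fin k → G) → ℝ := fun a => ∑ x, (Fa S a x - Fn A S x) ^ (2 * m) with hE
  have hEnn : ∀ a ∈ P, 0 ≤ E a := fun a _ =>
    Finset.sum_nonneg fun x _ => Even.pow_nonneg ⟨m, by ring⟩ _
  have hPc : (P.card : ℝ) = (A.card : ℝ) ^ k := by
    rw [hP, Fintype.card_piFinset_const]
    push_cast
    rfl
  have hsum : ∑ a ∈ P, E a ≤ P.card * M := by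
    rw [hPc]
    exact step2 h A S k m hA hk hm
  have hmk := markov P E M hM hEnn hsum
  set L := P.filter (fun a => E a ≤ 2 * M) with hL
  obtain ⟨z, hz⟩ := double A k L hA (Finset.filter_subset _ _)
  refine ⟨A.filter (fun s => (fun i => z i - s) ∈ L), Finset.filter_subset _ _, ?_, ?_⟩
  · have hAc : (0 : ℝ) < A.card := by exact_mod_cast hA.card_pos
    have hAk : (0 : ℝ) < (A.card : ℝ) ^ k := by positivity
    have h1 : ((A + A).card : ℝ) ^ k ≤ K ^ k * (A.card : ℝ) ^ k := by
      rw [← mul_pow]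
      exact pow_le_pow_left₀ (by positivity) hK k
    have h2 : (A.card : ℝ) * (A.card : ℝ) ^ k ≤
        (2 * K ^ k * (A.filter (fun s => (fun i => z i - s) ∈ L)).card) * (A.card : ℝ) ^ k := by
      calc (A.card : ℝ) * (A.card : ℝ) ^ k = A.card * P.card := by rw [hPc]
        _ ≤ A.card * (2 * L.card) := mul_le_mul_of_nonneg_left hmk hAc.le
        _ = 2 * (A.card * L.card) := by ring
        _ ≤ 2 * ((A + A).card ^ k * (A.filter (fun s => (fun i => z i - s) ∈ L)).card) := by
            linarith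
        _ ≤ 2 * ((K ^ k * (A.card : ℝ) ^ k) *
              (A.filter (fun s => (fun i => z i - s) ∈ L)).card) := by
            have := mul_le_mul_of_nonneg_right h1
              (Nat.cast_nonneg (α := ℝ) (A.filter (fun s => (fun i => z i - s) ∈ L)).card)
            linarith
        _ = _ := by ring
    exact le_of_mul_le_mul_right h2 hAk
  · have key : ∀ s ∈ A.filter (fun s => (fun i => z i - s) ∈ L),
        ∑ x, (Fa S z x - Fn A S (x + s)) ^ (2 * m) ≤ 2 * M := by
      intro s hs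
      have h1 := (Finset.mem_filter.1 (Finset.mem_filter.1 hs).2).2
      have h2 : E (fun i => z i - s) = ∑ x, (Fa S z x - Fn A S (x + s)) ^ (2 * m) := by
        rw [hE]
        simp only
        rw [← Equiv.sum_comp (Equiv.addRight s)]
        refine Finset.sum_congr rfl fun x _ => ?_
        rw [Equiv.coe_addRight, Fa_shift]
      rw [← h2]
      exact h1
    intro s hs s' hs'
    have h1 := key s hs
    have h2 := key s' hs'
    have h3 : ∑ x, (Fn A S (x + s) - Fn A S (x + s')) ^ (2 * m) ≤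
        ∑ x, 2 ^ (2 * m - 1) * ((Fa S z x - Fn A S (x + s)) ^ (2 * m) +
          (Fa S z x - Fn A S (x + s')) ^ (2 * m)) := by
      refine Finset.sum_le_sum fun x _ => ?_
      have h4 := pow_add_le (-(Fa S z x - Fn A S (x + s))) (Fa S z x - Fn A S (x + s')) m hm
      have h5 : -(Fa S z x - Fn A S (x + s)) + (Fa S z x - Fn A S (x + s')) =
          Fn A S (x + s) - Fn A S (x + s') := by ring
      rw [h5, Even.neg_pow ⟨m, by ring⟩] at h4
      exact h4
    rw [← Finset.mul_sum, Finset.sum_add_distrib] at h3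
    have h6 : (2 : ℝ) ^ (2 * m) = 2 ^ (2 * m - 1) * 2 := by
      rw [← pow_succ]
      congr 1
      omega
    calc ∑ x, (Fn A S (x + s) - Fn A S (x + s')) ^ (2 * m)
        ≤ 2 ^ (2 * m - 1) * (∑ x, (Fa S z x - Fn A S (x + s)) ^ (2 * m) +
          ∑ x, (Fa S z x - Fn A S (x + s')) ^ (2 * m)) := h3
      _ ≤ 2 ^ (2 * m - 1) * (2 * M + 2 * M) :=
          mul_le_mul_of_nonneg_left (by linarith) (by positivity)
      _ = 2 ^ (2 * m) * (2 * M) := by rw [h6]; ring


lemma triple (A : Finset G) (K : ℝ) (hA : A.Nonempty) (hAA : ((A + A).card : ℝ) ≤ K * A.card) :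
    ((A + A - A).card : ℝ) ≤ K ^ 3 * A.card := by
  have h := pluennecke_ruzsa_inequality_nsmul_sub_nsmul_add hA A 2 1
  rw [two_nsmul, one_nsmul] at h
  have hA0 : (0 : ℝ) < A.card := by exact_mod_cast hA.card_pos
  have h2 : ((A + A - A).card : ℝ) ≤ (((A + A).card : ℝ) / A.card) ^ (2 + 1) * A.card := by
    have h3 : (((A + A - A).card : ℚ≥0) : ℝ) ≤ ((((A + A).card / A.card : ℚ≥0) ^ (2 + 1) * A.card : ℚ≥0) : ℝ) := by
      exact_mod_cast h
    push_cast at h3
    exact_mod_cast h3
  refine h2.trans (mul_le_mul_of_nonneg_right ?_ hA0.le)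
  have h4 : ((A + A).card : ℝ) / A.card ≤ K := by
    rw [div_le_iff₀ hA0]
    exact hAA
  exact pow_le_pow_left₀ (by positivity) h4 3

lemma gn_pow (A S : Finset G) (hA : A.Nonempty) (m : ℕ) (s s' y : G) :
    (gn A S (y + s - s') - gn A S y) ^ (2 * m) ≤
      (∑ x, (Fn A S (x + s) - Fn A S (x + s')) ^ (2 * m)) / A.card := by
  have hA0 : (0 : ℝ) < A.card := by exact_mod_cast hA.card_pos
  have e : gn A S (y + s - s') - gn A S y =
      ∑ x ∈ A, (1 / (A.card : ℝ)) * (Fn A S ((x + y - s') + s) - Fn A S ((x + y - s') + s')) := by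
    unfold gn
    rw [← mul_sum, sum_sub_distrib, ← sub_div, one_div, inv_mul_eq_div]
    congr 2
    · refine sum_congr rfl fun x _ => ?_
      congr 1
      abel
    · refine sum_congr rfl fun x _ => ?_
      congr 1
      abel
  rw [e]
  have h1 := Real.pow_arith_mean_le_arith_mean_pow_of_even A (fun _ => 1 / (A.card : ℝ))
    (fun x => Fn A S ((x + y - s') + s) - Fn A S ((x + y - s') + s')) (fun _ _ => by positivity)
    (by rw [sum_const, nsmul_eq_mul]; field_simp) (n := 2 * m) (even_two_mul m)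
  refine h1.trans ?_
  rw [← mul_sum, one_div, inv_mul_eq_div]
  refine div_le_div_of_nonneg_right ?_ hA0.le
  have hinj : Set.InjOn (fun x : G => x + y - s') (A : Set G) := by
    intro a _ b _ hab
    simpa using hab
  have e2 : ∑ x ∈ A, (Fn A S ((x + y - s') + s) - Fn A S ((x + y - s') + s')) ^ (2 * m) =
      ∑ z ∈ A.image (fun x : G => x + y - s'), (Fn A S (z + s) - Fn A S (z + s')) ^ (2 * m) :=
    (sum_image (f := fun z => (Fn A S (z + s) - Fn A S (z + s')) ^ (2 * m)) hinj).symm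
  rw [e2]
  refine sum_le_sum_of_subset_of_nonneg (subset_univ _) fun z _ _ => ?_
  exact (even_two_mul m).pow_nonneg _

lemma exp_three : Real.exp 3 ≤ 20.1 := by
  have h := Real.exp_one_lt_d9
  have e : Real.exp 3 = Real.exp 1 ^ 3 := by
    rw [← Real.exp_nat_mul]
    norm_num
  rw [e]
  have h0 : 0 ≤ Real.exp 1 := (Real.exp_pos 1).le
  calc Real.exp 1 ^ 3 ≤ 2.7182818286 ^ 3 := pow_le_pow_left₀ h0 h.le 3
    _ ≤ 20.1 := by norm_num


theorem t_AP (A : Finset G) (K : ℝ) (l : ℕ) (hA : A.Nonempty) (hK : 1 ≤ K)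
    (hAA : ((A + A).card : ℝ) ≤ K * A.card) (hl : 1 ≤ l) :
    ∃ T : Finset G, T ⊆ A ∧
      (A.card : ℝ) ≤ Real.exp (390003 * l ^ 2 * Real.log (2 * K) ^ 2) * T.card ∧
      ∀ s ∈ T, ∀ s' ∈ T, ∀ y : G, |gn A (A + A) (y + s - s') - gn A (A + A) y| ≤ 1 / (16 * l) := by
  have hA0 : (0 : ℝ) < A.card := by exact_mod_cast hA.card_pos
  have hl' : (1 : ℝ) ≤ l := by exact_mod_cast hl
  set L : ℝ := Real.log (2 * K) with hL
  have hL2 : 1 / 2 ≤ L := by
    have h1 : Real.log 2 ≤ L := Real.log_le_log (by norm_num) (by linarith)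
    have h2 := Real.log_two_gt_d9
    linarith
  have hexpL : Real.exp L = 2 * K := by rw [hL, Real.exp_log (by linarith)]
  set m : ℕ := ⌈L⌉₊ with hm
  have hmL : L ≤ m := Nat.le_ceil _
  have hm1 : 1 ≤ m := Nat.one_le_iff_ne_zero.2 (by
    intro h0
    rw [h0] at hmL
    simp only [Nat.cast_zero] at hmL
    linarith)
  have hm1' : (1 : ℝ) ≤ m := by exact_mod_cast hm1
  have hmL3 : (m : ℝ) ≤ 3 * L := by
    have := Nat.ceil_lt_add_one (by linarith : 0 ≤ L)
    rw [← hm] at this
    linarith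
  set k : ℕ := 130000 * m * l ^ 2 with hk
  have hk1 : 1 ≤ k := by
    rw [hk]
    have : 1 ≤ l ^ 2 := Nat.one_le_pow _ _ hl
    calc 1 = 1 * 1 * 1 := rfl
      _ ≤ 130000 * m * l ^ 2 := Nat.mul_le_mul (Nat.mul_le_mul (by norm_num) hm1) this
  have hkr : (k : ℝ) = 130000 * m * l ^ 2 := by
    rw [hk]
    push_cast
    ring
  obtain ⟨T, hTA, hT, hper⟩ := t_CS Pool.Agent.N142.CD.t_MOM A (A + A) K k m hA hAA hk1 hm1
  refine ⟨T, hTA, ?_, ?_⟩
  · refine hT.trans (mul_le_mul_of_nonneg_right ?_ (by positivity))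
    calc 2 * K ^ k ≤ (2 * K) * (2 * K) ^ k := by
          refine mul_le_mul (by linarith) (pow_le_pow_left₀ (by linarith) (by linarith) k) (by positivity)
            (by linarith)
      _ = Real.exp ((k + 1 : ℕ) * L) := by
          rw [Real.exp_nat_mul, hexpL, pow_succ]
          ring
      _ ≤ Real.exp (390003 * l ^ 2 * L ^ 2) := by
          refine Real.exp_le_exp.2 ?_
          push_cast
          rw [hkr]
          have hl2 : (1 : ℝ) ≤ (l : ℝ) ^ 2 := one_le_pow₀ hl'
          have hml : (1 : ℝ) ≤ m * (l : ℝ) ^ 2 := by nlinarith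
          have h5 : (130000 * m * (l : ℝ) ^ 2 + 1) ≤ 130001 * (m * (l : ℝ) ^ 2) := by linarith
          have h6 : m * (l : ℝ) ^ 2 ≤ 3 * L * (l : ℝ) ^ 2 := mul_le_mul_of_nonneg_right hmL3 (by positivity)
          calc (130000 * m * (l : ℝ) ^ 2 + 1) * L ≤ (130001 * (3 * L * (l : ℝ) ^ 2)) * L :=
                mul_le_mul_of_nonneg_right (by linarith) (by linarith)
            _ = 390003 * l ^ 2 * L ^ 2 := by ring
  · intro s hs s' hs' y
    have h1 := gn_pow A (A + A) hA m s s' y
    have h2 := hper s hs s' hs'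
    have h3 := triple A K hA hAA
    have hr : (6 * m / k : ℝ) = 6 / (130000 * l ^ 2) := by
      rw [hkr]
      field_simp
    have h4 : (gn A (A + A) (y + s - s') - gn A (A + A) y) ^ (2 * m) ≤ (1 / (16 * l)) ^ (2 * m) := by
      calc (gn A (A + A) (y + s - s') - gn A (A + A) y) ^ (2 * m)
          ≤ (∑ x, (Fn A (A + A) (x + s) - Fn A (A + A) (x + s')) ^ (2 * m)) / A.card := h1
        _ ≤ (2 ^ (2 * m) * (2 * (((A + A) - A).card * (6 * m / k : ℝ) ^ m))) / A.card :=
            div_le_div_of_nonneg_right h2 hA0.le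
        _ ≤ (2 ^ (2 * m) * (2 * ((K ^ 3 * A.card) * (6 * m / k : ℝ) ^ m))) / A.card := by
            refine div_le_div_of_nonneg_right ?_ hA0.le
            refine mul_le_mul_of_nonneg_left ?_ (by positivity)
            refine mul_le_mul_of_nonneg_left ?_ (by norm_num)
            exact mul_le_mul_of_nonneg_right h3 (by positivity)
        _ = (2 * K ^ 3) * (24 / (130000 * l ^ 2) : ℝ) ^ m := by
            rw [hr, pow_mul]
            have : (24 / (130000 * l ^ 2) : ℝ) = 2 ^ 2 * (6 / (130000 * l ^ 2)) := by ring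
            rw [this, mul_pow]
            field_simp
        _ ≤ (20.1 : ℝ) ^ m * (24 / (130000 * l ^ 2) : ℝ) ^ m := by
            refine mul_le_mul_of_nonneg_right ?_ (by positivity)
            calc 2 * K ^ 3 ≤ (2 * K) ^ 3 := by
                  have : (0 : ℝ) ≤ K ^ 3 := by positivity
                  nlinarith
              _ = Real.exp (3 * L) := by
                  rw [← hexpL, ← Real.exp_nat_mul]
                  norm_num
              _ ≤ Real.exp (m * 3) := Real.exp_le_exp.2 (by linarith)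
              _ = Real.exp 3 ^ m := Real.exp_nat_mul _ _
              _ ≤ 20.1 ^ m := pow_le_pow_left₀ (Real.exp_pos _).le exp_three m
        _ = (20.1 * (24 / (130000 * l ^ 2)) : ℝ) ^ m := (mul_pow _ _ _).symm
        _ ≤ ((1 / (16 * l)) ^ 2) ^ m := by
            refine pow_le_pow_left₀ (by positivity) ?_ m
            rw [div_pow, one_pow, mul_div_assoc', div_le_div_iff₀ (by positivity) (by positivity)]
            nlinarith [sq_nonneg (l : ℝ)]
        _ = (1 / (16 * l)) ^ (2 * m) := (pow_mul _ _ _).symm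
    by_contra hcon
    push Not at hcon
    have h5 : (1 / (16 * l) : ℝ) ^ (2 * m) < |gn A (A + A) (y + s - s') - gn A (A + A) y| ^ (2 * m) :=
      pow_lt_pow_left₀ hcon (by positivity) (by omega)
    rw [(even_two_mul m).pow_abs] at h5
    exact absurd h4 (not_le.2 h5)


theorem gn_zero (A : Finset G) (hA : A.Nonempty) : gn A (A + A) 0 = 1 := by
  have hA0 : (A.card : ℝ) ≠ 0 := by
    exact_mod_cast hA.card_pos.ne'
  have h1 : ∀ x ∈ A, Fn A (A + A) (x + 0) = 1 := by
    intro x hx
    unfold Fn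
    have h2 : ∑ a ∈ A, (if x + 0 + a ∈ A + A then (1 : ℝ) else 0) = A.card := by
      rw [Finset.sum_congr rfl (g := fun _ => (1 : ℝ)), Finset.sum_const, nsmul_eq_mul, mul_one]
      intro a ha
      rw [if_pos]
      rw [add_zero]
      exact Finset.add_mem_add hx ha
    rw [h2, div_self hA0]
  unfold gn
  rw [Finset.sum_congr rfl h1, Finset.sum_const, nsmul_eq_mul, mul_one, div_self hA0]

theorem mem_of_gn_pos (A : Finset G) (y : G) (h : 0 < gn A (A + A) y) :
    y ∈ 2 • A - 2 • A := by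
  by_contra hcon
  have h1 : gn A (A + A) y = 0 := by
    unfold gn
    rw [Finset.sum_eq_zero, zero_div]
    intro x hx
    unfold Fn
    rw [Finset.sum_eq_zero, zero_div]
    intro a ha
    rw [if_neg]
    intro hmem
    apply hcon
    have h2 : y = (x + y + a) - (x + a) := by abel
    rw [h2, two_nsmul]
    exact Finset.sub_mem_sub hmem (Finset.add_mem_add hx ha)
  rw [h1] at h
  exact lt_irrefl _ h

theorem telescope (A T : Finset G) (l : ℕ) (hA : A.Nonempty)
    (hT : ∀ s ∈ T, ∀ s' ∈ T, ∀ y : G,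
      |gn A (A + A) (y + s - s') - gn A (A + A) y| ≤ 1 / (16 * l)) :
    ∀ j : ℕ, ∀ u ∈ j • T, ∀ v ∈ j • T, |gn A (A + A) (u - v) - 1| ≤ j * (1 / (16 * l)) := by
  intro j
  induction j with
  | zero =>
    intro u hu v hv
    rw [zero_nsmul, Finset.mem_zero] at hu hv
    rw [hu, hv, sub_zero, gn_zero A hA]
    simp
  | succ j ih =>
    intro u hu v hv
    rw [succ_nsmul, Finset.mem_add] at hu hv
    obtain ⟨u', hu', s, hs, rfl⟩ := hu
    obtain ⟨v', hv', s', hs', rfl⟩ := hv
    have h1 := ih u' hu' v' hv'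
    have h2 := hT s hs s' hs' (u' - v')
    have h3 : u' + s - (v' + s') = u' - v' + s - s' := by abel
    rw [h3]
    have h4 : gn A (A + A) (u' - v' + s - s') - 1 =
        (gn A (A + A) (u' - v' + s - s') - gn A (A + A) (u' - v')) +
          (gn A (A + A) (u' - v') - 1) := by ring
    rw [h4]
    refine (abs_add_le _ _).trans ?_
    push_cast
    linarith

end Q1aL

open Finset in
open scoped Pointwise in
theorem y1a : Y1a := by
  refine ⟨390003, by norm_num, ?_⟩
  intro G _ _ _ A K l hA hK hAA hl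
  obtain ⟨T, hTA, hcard, hT⟩ := Q1aL.t_AP A K l hA hK hAA hl
  have hA0 : (0 : ℝ) < A.card := by exact_mod_cast hA.card_pos
  have hl' : (0 : ℝ) < l := by exact_mod_cast hl
  refine ⟨T, hTA, ?_, hcard, ?_⟩
  · rw [Finset.nonempty_iff_ne_empty]
    intro h0
    rw [h0, Finset.card_empty, Nat.cast_zero, mul_zero] at hcard
    linarith
  · intro x hx
    rw [Finset.mem_sub] at hx
    obtain ⟨u, hu, v, hv, rfl⟩ := hx
    have h1 := Q1aL.telescope A T l hA hT l u hu v hv
    have h2 : (l : ℝ) * (1 / (16 * l)) = 1 / 16 := by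
      field_simp
    rw [h2] at h1
    have h3 := (abs_le.1 h1).1
    exact Q1aL.mem_of_gn_pos A _ (by linarith)

end Pool.Agent.H98.Fold
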