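import Pool.Agent.H98.Fold.Stmt

set_option autoImplicit false

namespace Pool.Agent.H98.Fold

open Finset H112
open scoped Pointwise

universe u

namespace Q2L

/-- Fourier analysis on a finite group: let `f = (u * ǔ) * (r * ř)^m` with `u` uniform on `A`;
if `Re e(γ x) ≥ 1/2` for all `γ` with `|r̂(γ)| ≥ 1/2` and `3 * 4^{-m} < f(0)|A|` then
`f(x) > 0`. -/
theorem finite_pos {Q : Type} [AddCommGroup Q] [Fintype Q] {A : Finset Q} (hA : A.Nonempty)
    {r : AddMonoidAlgebra ℝ Q} {m : ℕ}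
    (h4 : 3 * (1 / 4 : ℝ) ^ m <
      (U A * refl (U A) * (r * refl r) ^ m).coeff 0 * A.card)
    (x : Q) (hx : ∀ γ : Q →+ UnitAddCircle, 1 / 2 ≤ ‖ft r γ‖ → 1 / 2 ≤ (ee (γ x)).re) :
    0 < (U A * refl (U A) * (r * refl r) ^ m).coeff x := by
  classical
  choose g hg using (Fourier_exists_char (Q := Q))
  set f := U A * refl (U A) * (r * refl r) ^ m with hf
  set N : ℝ := (Fintype.card Q : ℝ) with hN
  have hNpos : 0 < N := by
    rw [hN]
    exact_mod_cast Fintype.card_pos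
  -- the weights
  let a : AddChar Q ℂ → ℝ := fun χ => ‖ft (U A) (g χ)‖ ^ 2
  let b : AddChar Q ℂ → ℝ := fun χ => ‖ft r (g χ)‖ ^ 2
  have ha0 : ∀ χ, 0 ≤ a χ := fun χ => by positivity
  have hb0 : ∀ χ, 0 ≤ b χ := fun χ => by positivity
  have hwu : ∀ χ, ft (U A * refl (U A)) (g χ) = ((a χ : ℝ) : ℂ) := by
    intro χ
    rw [ft_mul, ft_refl, Complex.mul_conj, Complex.normSq_eq_norm_sq]
  have hwf : ∀ χ, ft f (g χ) = ((a χ * b χ ^ m : ℝ) : ℂ) := by
    intro χ
    rw [hf, ft_mul, hwu, ft_pow, ft_mul, ft_refl, Complex.mul_conj, Complex.normSq_eq_norm_sq]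
    simp [b]
  have hu := Fourier_inversion_re (U A * refl (U A)) g hg a hwu 0
  have hf0 := Fourier_inversion_re f g hg _ hwf 0
  have hfx := Fourier_inversion_re f g hg _ hwf x
  simp only [map_zero, Fourier_ee_zero, Complex.one_re, one_mul] at hu hf0
  rw [Fourier_U_refl_zero hA] at hu
  -- pointwise inequality
  have hkey : ∀ χ, (a χ * b χ ^ m) / 2 - 3 / 2 * ((1 / 4 : ℝ) ^ m * a χ) ≤
      (ee (g χ x)).re * (a χ * b χ ^ m) := by
    intro χ
    have hw0 : 0 ≤ a χ * b χ ^ m := mul_nonneg (ha0 χ) (pow_nonneg (hb0 χ) m)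
    have hq0 : 0 ≤ (1 / 4 : ℝ) ^ m * a χ := mul_nonneg (by positivity) (ha0 χ)
    by_cases h : 1 / 2 ≤ ‖ft r (g χ)‖
    · have := hx _ h
      nlinarith
    · push Not at h
      have hre : -1 ≤ (ee (g χ x)).re := by
        have h1 := Complex.abs_re_le_norm (ee (g χ x))
        rw [Fourier_norm_ee] at h1
        exact (abs_le.mp h1).1
      have hb : b χ ≤ 1 / 4 := by
        have h0 := norm_nonneg (ft r (g χ))
        simp only [b]
        nlinarith
      have hbm : b χ ^ m ≤ (1 / 4 : ℝ) ^ m := pow_le_pow_left₀ (hb0 χ) hb m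
      have hab : a χ * b χ ^ m ≤ (1 / 4 : ℝ) ^ m * a χ := by
        rw [mul_comm]
        exact mul_le_mul_of_nonneg_right hbm (ha0 χ)
      nlinarith
  have hsum := Finset.sum_le_sum fun χ (_ : χ ∈ (Finset.univ : Finset (AddChar Q ℂ))) => hkey χ
  rw [← hfx, Finset.sum_sub_distrib, ← Finset.sum_div, ← hf0, ← Finset.mul_sum,
    ← Finset.mul_sum, ← hu] at hsum
  have hcard : (0 : ℝ) < A.card := by exact_mod_cast hA.card_pos
  have h5 : 3 * ((1 / 4 : ℝ) ^ m * (A.card : ℝ)⁻¹) < f.coeff 0 := by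
    rw [← mul_assoc, ← div_eq_mul_inv, div_lt_iff₀ hcard]
    exact h4
  have h7 : N * (3 * ((1 / 4 : ℝ) ^ m * (A.card : ℝ)⁻¹)) < N * f.coeff 0 :=
    mul_lt_mul_of_pos_left h5 hNpos
  have h8 : (3 / 2 : ℝ) * ((1 / 4 : ℝ) ^ m * (N * (A.card : ℝ)⁻¹)) =
    1 / 2 * (N * (3 * ((1 / 4 : ℝ) ^ m * (A.card : ℝ)⁻¹))) := by ring
  rw [h8] at hsum
  have h9 : 0 < N * f.coeff x := by linarith
  exact (mul_pos_iff_of_pos_left hNpos).1 h9

/-- the same in a finitely generated group -/
theorem fg_pos {G : Type*} [AddCommGroup G] [AddGroup.FG G] {A : Finset G} (hA : A.Nonempty)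
    {r : AddMonoidAlgebra ℝ G} {m : ℕ}
    (h4 : 3 * (1 / 4 : ℝ) ^ m <
      (U A * refl (U A) * (r * refl r) ^ m).coeff 0 * A.card)
    (x : G) (hx : x ∈ bohr {γ | 1 / 2 ≤ ‖ft r γ‖} (1 / 6)) :
    0 < (U A * refl (U A) * (r * refl r) ^ m).coeff x := by
  classical
  set f := U A * refl (U A) * (r * refl r) ^ m with hf
  obtain ⟨Q, _, _, π, hπ⟩ := exists_finite_quotient G (A ∪ f.coeff.support ∪ {0, x})
  have hinjA : Set.InjOn π A := hπ.mono (by
    intro z hz
    simp only [Finset.coe_union, Set.mem_union]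
    exact Or.inl (Or.inl hz))
  have hpush : AddMonoidAlgebra.mapDomain π f =
      U (A.image π) * refl (U (A.image π)) *
        (AddMonoidAlgebra.mapDomain π r * refl (AddMonoidAlgebra.mapDomain π r)) ^ m := by
    rw [hf, AddMonoidAlgebra.mapDomain_mul, AddMonoidAlgebra.mapDomain_mul, Fourier_push_pow,
      AddMonoidAlgebra.mapDomain_mul, Fourier_push_refl, Fourier_push_refl,
      Fourier_push_U π hinjA]
  have hS : (f.coeff.support : Set G) ⊆ ((A ∪ f.coeff.support ∪ {0, x} : Finset G) : Set G) := by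
    intro z hz
    simp only [Finset.coe_union, Set.mem_union]
    exact Or.inl (Or.inr hz)
  have h0 : (AddMonoidAlgebra.mapDomain π f).coeff 0 = f.coeff 0 := by
    have := Fourier_push_apply π (f := f) hS hπ (z := 0) (by simp)
    rwa [map_zero] at this
  have hxx : (AddMonoidAlgebra.mapDomain π f).coeff (π x) = f.coeff x :=
    Fourier_push_apply π (f := f) hS hπ (z := x) (by simp)
  rw [hpush] at h0 hxx
  rw [← hxx]
  refine finite_pos (hA.image π) ?_ (π x) ?_
  · rw [h0, Finset.card_image_of_injOn hinjA]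
    exact h4
  · intro γ hγ
    rw [Fourier_push_ft] at hγ
    exact Fourier_re_ee (hx (γ.comp π) hγ)

theorem ft_U {G : Type*} [AddCommGroup G] {F : Finset G} (γ : G →+ UnitAddCircle) :
    ft (U F) γ = (F.card : ℂ)⁻¹ * ∑ y ∈ F, ee (γ y) := by
  classical
  have h1 : ∀ a, (U F).coeff a = if a ∈ F then (F.card : ℝ)⁻¹ else 0 := by
    intro a
    simp [U, unif]
  rw [ft, Finsupp.sum_of_support_subset (s := F)]
  · rw [Finset.mul_sum]
    refine Finset.sum_congr rfl fun y hy => ?_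
    rw [h1, if_pos hy]
    push_cast
    rfl
  · intro a ha
    rw [Finsupp.mem_support_iff, h1] at ha
    by_contra hh
    exact ha (if_neg hh)
  · intro i _
    simp

theorem big_iff {G : Type*} [AddCommGroup G] {T : Finset G} (hT : T.Nonempty)
    (γ : G →+ UnitAddCircle) : (1 / 2 ≤ ‖ft (U T) γ‖) → (T.card : ℝ) / 2 ≤ ‖fs T γ‖ := by
  intro h
  have hc : (0 : ℝ) < T.card := by exact_mod_cast hT.card_pos
  have h6 : ‖∑ y ∈ T, ee (γ y)‖ = T.card * ‖ft (U T) γ‖ := by
    rw [ft_U, norm_mul, norm_inv, Complex.norm_natCast, ← mul_assoc, mul_inv_cancel₀ hc.ne', one_mul]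
  show (T.card : ℝ) / 2 ≤ ‖∑ t ∈ T, ee (γ t)‖
  rw [h6]
  have := mul_le_mul_of_nonneg_left h hc.le
  linarith

/-- Cauchy-Schwarz: the value at `0` of `g * ǧ` -/
theorem coeff_zero_ge {G : Type*} [AddCommGroup G] {g : AddMonoidAlgebra ℝ G} (hg : Law g)
    {D : Finset G} (hD : g.coeff.support ⊆ D) :
    1 ≤ (D.card : ℝ) * (g * refl g).coeff 0 := by
  have h0 : (g * refl g).coeff 0 = ∑ y ∈ g.coeff.support, g.coeff y ^ 2 := by
    rw [coeff_mul_apply]
    refine Finset.sum_congr rfl fun y _ => ?_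
    show g.coeff y * (refl g).coeff (0 - y) = _
    rw [refl_apply, zero_sub, neg_neg, sq]
  have h1 : ∑ y ∈ g.coeff.support, g.coeff y ^ 2 = ∑ y ∈ D, g.coeff y ^ 2 := by
    refine Finset.sum_subset hD fun y _ hy => ?_
    rw [Finsupp.notMem_support_iff] at hy
    rw [hy]; norm_num
  have h2 : ∑ y ∈ D, g.coeff y = 1 := by
    rw [← hg.2, Finsupp.sum]
    symm
    refine Finset.sum_subset hD fun y _ hy => ?_
    rwa [Finsupp.notMem_support_iff] at hy
  rw [h0, h1]
  have h3 := sq_sum_le_card_mul_sum_sq (s := D) (f := fun y => g.coeff y)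
  rw [h2, one_pow] at h3
  exact h3

theorem support_pow {G : Type*} [AddCommGroup G] [DecidableEq G] (F : Finset G) (j : ℕ) :
    ((U F) ^ j).coeff.support ⊆ j • F := by
  induction j with
  | zero =>
    intro x hx
    rw [pow_zero] at hx
    rw [zero_smul]
    rw [Finsupp.mem_support_iff] at hx
    rw [Finset.mem_zero]
    by_contra hne
    apply hx
    show (AddMonoidAlgebra.single (0 : G) (1 : ℝ)).coeff x = 0
    rw [AddMonoidAlgebra.coeff_single]
    exact Finsupp.single_eq_of_ne hne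
  | succ j ih =>
    rw [pow_succ, succ_nsmul]
    exact support_mul_subset ih size_support_U (fun a ha b hb => Finset.add_mem_add ha hb)

end Q2L

theorem y2 : Y2.{u} := by
  intro G _ _ _ X T K k hX hT hK hKk x hx
  classical
  have hX0 : (0 : ℝ) < X.card := by exact_mod_cast hX.card_pos
  set f := U X * refl (U X) * (U T * refl (U T)) ^ k with hf
  set g := U X * (U T) ^ k with hg
  have hfg : f = g * refl g := by
    rw [hf, hg, refl_mul, refl_pow (U T) k, mul_pow]; ring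
  have hgs : g.coeff.support ⊆ X + k • T :=
    support_mul_subset size_support_U (Q2L.support_pow T k)
      (fun a ha b hb => Finset.add_mem_add ha hb)
  have hglaw : Law g := (law_U hX).mul ((law_U hT).pow k)
  have hrefl : (H112.refl g).coeff.support ⊆ -(X + k • T) := by
    intro y hy
    rw [Finsupp.mem_support_iff, refl_apply, ← Finsupp.mem_support_iff] at hy
    have := hgs hy
    rw [Finset.mem_neg]
    exact ⟨-y, this, neg_neg y⟩
  have hfs : f.coeff.support ⊆ X - X + (k • T - k • T) := by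
    rw [hfg]
    refine support_mul_subset hgs hrefl (fun a ha b hb => ?_)
    obtain ⟨c, hc, rfl⟩ := Finset.mem_neg.1 hb
    obtain ⟨a₁, ha₁, a₂, ha₂, rfl⟩ := Finset.mem_add.1 ha
    obtain ⟨c₁, hc₁, c₂, hc₂, rfl⟩ := Finset.mem_add.1 hc
    have : a₁ + a₂ + -(c₁ + c₂) = (a₁ - c₁) + (a₂ - c₂) := by abel
    rw [this]
    exact Finset.add_mem_add (Finset.sub_mem_sub ha₁ hc₁) (Finset.sub_mem_sub ha₂ hc₂)
  have h0 : 1 ≤ ((X + k • T).card : ℝ) * f.coeff 0 := by
    rw [hfg]
    exact Q2L.coeff_zero_ge hglaw hgs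
  have hf0 : 0 ≤ f.coeff 0 := by
    rw [hfg]
    exact (hglaw.mul hglaw.refl).1 0
  have h1 : 1 ≤ K * (f.coeff 0 * X.card) := by
    have := mul_le_mul_of_nonneg_right hK hf0
    linarith
  have h2 : 3 * (1 / 4 : ℝ) ^ k < f.coeff 0 * X.card := by
    have h4 : (0 : ℝ) < 4 ^ k := by positivity
    have h5 : 0 ≤ f.coeff 0 * X.card := mul_nonneg hf0 hX0.le
    have h6 : 0 < f.coeff 0 * X.card := by
      rcases h5.lt_or_eq with h | h
      · exact h
      · rw [← h] at h1; linarith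
    have h7 : 3 * K * (f.coeff 0 * X.card) < 4 ^ k * (f.coeff 0 * X.card) :=
      mul_lt_mul_of_pos_right hKk h6
    have h8 : 3 < (f.coeff 0 * X.card) * 4 ^ k := by linarith
    rw [one_div_pow, mul_one_div, div_lt_iff₀ h4]
    exact h8
  have h3 := Q2L.fg_pos hX (r := U T) (m := k) h2 x (fun γ hγ => hx γ (Q2L.big_iff hT γ hγ))
  apply hfs
  rw [Finsupp.mem_support_iff]
  exact h3.ne'

end Pool.Agent.H98.Fold
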