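import Pool.Agent.H98.Fold.Stmt

/-!
# Relative form of Chang's theorem
-/

set_option autoImplicit false

namespace Pool.Agent.H98.Fold

open Finset H112
open scoped Pointwise

universe u

namespace Q3L

theorem ee_sum {ι : Type*} (s : Finset ι) (f : ι → UnitAddCircle) :
    ee (∑ i ∈ s, f i) = ∏ i ∈ s, ee (f i) := by
  classical
  induction s using Finset.induction_on with
  | empty => rw [sum_empty, prod_empty, Near_ee_zero]
  | insert a s ha ih => rw [sum_insert ha, prod_insert ha, Near_ee_add, ih]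

variable {G : Type u} [AddCommGroup G] [DecidableEq G]

omit [DecidableEq G] in
/-- the exponential sum over `F + j Z` -/
theorem sum_char (F Z : Finset G) (j : ℕ) (γ : G →+ UnitAddCircle) :
    ∑ f ∈ F, ∑ z ∈ Fintype.piFinset (fun _ : Fin j => Z), ee (γ (f + ∑ i, z i)) =
      fs F γ * fs Z γ ^ j := by
  have h1 : ∀ f : G, ∑ z ∈ Fintype.piFinset (fun _ : Fin j => Z), ee (γ (f + ∑ i, z i)) =
      ee (γ f) * fs Z γ ^ j := by
    intro f
    have h2 : ∀ z : Fin j → G, ee (γ (f + ∑ i, z i)) = ee (γ f) * ∏ i, ee (γ (z i)) := by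
      intro z
      rw [map_add, map_sum, Near_ee_add, ee_sum]
    simp only [h2]
    rw [← Finset.mul_sum, ← Finset.prod_univ_sum (fun _ : Fin j => Z) (fun _ z => ee (γ z)),
      Finset.prod_const, Finset.card_univ, Fintype.card_fin]
    rfl
  simp only [h1]
  rw [← Finset.sum_mul]
  rfl

omit [DecidableEq G] in
theorem norm_fs_le (F : Finset G) (γ : G →+ UnitAddCircle) : ‖fs F γ‖ ≤ F.card := by
  unfold fs
  refine (norm_sum_le _ _).trans ?_
  simp [Near_norm_ee]

/-- the coefficients of the Riesz product -/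
noncomputable def co (C S : ℝ) (w : ℂ) (e : ℤ) : ℂ :=
  if e = 0 then (C : ℂ) else if e = 1 then ((S / 2 : ℝ) : ℂ) * w
    else ((S / 2 : ℝ) : ℂ) * (starRingEnd ℂ) w

/-- the three values -/
def tri : Finset ℤ := {-1, 0, 1}

theorem card_tri : tri.card = 3 := rfl

theorem mem_tri (e : ℤ) : e ∈ tri ↔ |e| ≤ 1 := by
  unfold tri
  rw [abs_le]
  simp only [mem_insert, mem_singleton]
  omega

theorem norm_co {C S : ℝ} {w : ℂ} (hC : 0 ≤ C) (hS : 0 ≤ S) (hSC : S / 2 ≤ C) (hw : ‖w‖ = 1)
    (e : ℤ) : ‖co C S w e‖ ≤ C := by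
  unfold co
  split_ifs
  · rw [Complex.norm_real, Real.norm_eq_abs, abs_of_nonneg hC]
  · rw [norm_mul, hw, mul_one, Complex.norm_real, Real.norm_eq_abs, abs_of_nonneg (by linarith)]
    exact hSC
  · rw [norm_mul, RCLike.norm_conj, hw, mul_one, Complex.norm_real, Real.norm_eq_abs,
      abs_of_nonneg (by linarith)]
    exact hSC

omit [DecidableEq G] in
theorem fac (C S : ℝ) (w : ℂ) (γ : G →+ UnitAddCircle) (x : G) :
    ((C + S * (w * ee (γ x)).re : ℝ) : ℂ) = ∑ e ∈ tri, co C S w e * ee ((e • γ) x) := by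
  have h1 : ee (((1 : ℤ) • γ) x) = ee (γ x) := by rw [one_smul]
  have h2 : ee (((-1 : ℤ) • γ) x) = (starRingEnd ℂ) (ee (γ x)) := by
    rw [neg_smul, one_smul, AddMonoidHom.neg_apply, Near_ee_neg]
  have h3 : ee (((0 : ℤ) • γ) x) = 1 := by
    rw [zero_zsmul, AddMonoidHom.zero_apply, Near_ee_zero]
  have h4 : ((w * ee (γ x)).re : ℂ) = (w * ee (γ x) + (starRingEnd ℂ) (w * ee (γ x))) / 2 :=
    Complex.re_eq_add_conj _
  unfold tri
  rw [Finset.sum_insert (by decide), Finset.sum_insert (by decide), Finset.sum_singleton, h1, h2, h3]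
  have c0 : co C S w 0 = C := if_pos rfl
  have c1 : co C S w 1 = ((S / 2 : ℝ) : ℂ) * w := by
    unfold co
    rw [if_neg one_ne_zero, if_pos rfl]
  have c2 : co C S w (-1) = ((S / 2 : ℝ) : ℂ) * (starRingEnd ℂ) w := by
    unfold co
    rw [if_neg (by decide), if_neg (by decide)]
  rw [c0, c1, c2]
  push_cast
  rw [h4, map_mul]
  ring

omit [DecidableEq G] in
theorem riesz {s : ℕ} (C S : ℝ) (w : Fin s → ℂ) (Λ : Fin s → (G →+ UnitAddCircle)) (x : G) :
    ((∏ i, (C + S * (w i * ee (Λ i x)).re) : ℝ) : ℂ) =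
      ∑ ε ∈ Fintype.piFinset (fun _ : Fin s => tri),
        (∏ i, co C S (w i) (ε i)) * ee ((∑ i, ε i • Λ i) x) := by
  rw [Complex.ofReal_prod]
  simp only [fac]
  rw [Finset.prod_univ_sum]
  refine Finset.sum_congr rfl fun ε _ => ?_
  rw [Finset.prod_mul_distrib, AddMonoidHom.finsetSum_apply, ee_sum]

/-- the sum of a nonnegative function over `F + j Z` -/
theorem lower {T F Z : Finset G} {j : ℕ} (hTF : T - j • Z ⊆ F) (g : G → ℝ) (hg : ∀ x, 0 ≤ g x) :
    (Z.card : ℝ) ^ j * ∑ t ∈ T, g t ≤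
      ∑ f ∈ F, ∑ z ∈ Fintype.piFinset (fun _ : Fin j => Z), g (f + ∑ i, z i) := by
  rw [Finset.sum_comm]
  have h1 : ∀ z ∈ Fintype.piFinset (fun _ : Fin j => Z),
      ∑ t ∈ T, g t ≤ ∑ f ∈ F, g (f + ∑ i, z i) := by
    intro z hz
    rw [Fintype.mem_piFinset] at hz
    have hzm : ∑ i, z i ∈ j • Z := by
      rw [Finset.mem_nsmul]
      refine ⟨fun i => ⟨z i, hz i⟩, ?_⟩
      rw [List.sum_ofFn]
    calc ∑ t ∈ T, g t = ∑ f ∈ T.image (fun t => t - ∑ i, z i), g (f + ∑ i, z i) := by
          rw [Finset.sum_image (fun a _ b _ hab => sub_left_injective hab)]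
          refine Finset.sum_congr rfl fun t _ => ?_
          rw [sub_add_cancel]
      _ ≤ ∑ f ∈ F, g (f + ∑ i, z i) := by
          refine Finset.sum_le_sum_of_subset_of_nonneg ?_ fun x _ _ => hg _
          intro x hx
          obtain ⟨t, ht, rfl⟩ := Finset.mem_image.1 hx
          exact hTF (Finset.sub_mem_sub ht hzm)
  have h2 := Finset.sum_le_sum h1
  rw [Finset.sum_const, Fintype.card_piFinset, Finset.prod_const, Finset.card_univ,
    Fintype.card_fin, nsmul_eq_mul] at h2
  push_cast at h2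
  exact h2

end Q3L

open Q3L in
theorem y3 : Y3.{u} := by
  intro G _ _ T F Z j s Λ hT hZ hTF h3 hΛ hdis
  classical
  have hTc : (0 : ℝ) < T.card := by exact_mod_cast hT.card_pos
  have hZc : (0 : ℝ) < Z.card := by exact_mod_cast hZ.card_pos
  choose w hw using fun i => Complex.exists_norm_eq_mul_self (fs T (Λ i))
  set C : ℝ := Real.cosh (1 / 2) with hC
  set S : ℝ := Real.sinh (1 / 2) with hS
  have hC1 : 1 ≤ C := Real.one_le_cosh _
  have hC0 : 0 ≤ C := by linarith
  have hS0 : 0 ≤ S := Real.sinh_nonneg_iff.2 (by norm_num)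
  have hSC : S / 2 ≤ C := by
    have : S ≤ C := (Real.sinh_lt_cosh _).le
    linarith
  set uu : G → ℝ := fun x => ∑ i, (w i * ee (Λ i x)).re with huu
  set g : G → ℝ := fun x => Real.exp (1 / 2 * uu x) with hg
  set P : G → ℝ := fun x => ∏ i, (C + S * (w i * ee (Λ i x)).re) with hP
  have hle : ∀ i x, |(w i * ee (Λ i x)).re| ≤ 1 := by
    intro i x
    refine (Complex.abs_re_le_norm _).trans ?_
    rw [norm_mul, (hw i).1, Near_norm_ee, mul_one]
  have hgP : ∀ x, g x ≤ P x := by
    intro x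
    rw [hg, hP]
    simp only [huu]
    rw [Finset.mul_sum, Real.exp_sum]
    refine Finset.prod_le_prod (fun i _ => (Real.exp_pos _).le) fun i _ => ?_
    have := Real.exp_mul_le_cosh_add_mul_sinh (hle i x) (1 / 2)
    rw [mul_comm, mul_comm S]
    exact this
  -- upper bound for the Riesz product
  set N : ℝ := ∑ f ∈ F, ∑ z ∈ Fintype.piFinset (fun _ : Fin j => Z), P (f + ∑ i, z i) with hN
  have hNC : (N : ℂ) = ∑ ε ∈ Fintype.piFinset (fun _ : Fin s => tri),
      (∏ i, co C S (w i) (ε i)) * (fs F (∑ i, ε i • Λ i) * fs Z (∑ i, ε i • Λ i) ^ j) := by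
    rw [hN]
    push_cast
    simp only [hP, riesz]
    have e1 : ∀ ε : Fin s → ℤ, (∏ i, co C S (w i) (ε i)) *
        (fs F (∑ i, ε i • Λ i) * fs Z (∑ i, ε i • Λ i) ^ j) =
        ∑ f ∈ F, ∑ z ∈ Fintype.piFinset (fun _ : Fin j => Z),
          (∏ i, co C S (w i) (ε i)) * ee ((∑ i, ε i • Λ i) (f + ∑ i, z i)) := by
      intro ε
      rw [← sum_char, Finset.mul_sum]
      refine Finset.sum_congr rfl fun f _ => ?_
      rw [Finset.mul_sum]
    simp only [e1]
    symm
    rw [Finset.sum_comm]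
    refine Finset.sum_congr rfl fun f _ => ?_
    exact Finset.sum_comm
  have hterm : ∀ ε ∈ Fintype.piFinset (fun _ : Fin s => tri), ε ≠ 0 →
      ‖(∏ i, co C S (w i) (ε i)) * (fs F (∑ i, ε i • Λ i) * fs Z (∑ i, ε i • Λ i) ^ j)‖ ≤
        C ^ s * (F.card * (Z.card / 2) ^ j) := by
    intro ε hε hε0
    rw [Fintype.mem_piFinset] at hε
    have h1 := hdis ε (fun i => (mem_tri _).1 (hε i)) hε0
    have h2 : ‖fs Z (∑ i, ε i • Λ i)‖ ≤ Z.card / 2 := by
      by_contra hc
      push Not at hc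
      exact h1 hc.le
    rw [norm_mul, norm_mul, norm_pow, norm_prod]
    refine mul_le_mul ?_ ?_ (by positivity) (by positivity)
    · calc ∏ i, ‖co C S (w i) (ε i)‖ ≤ ∏ _i : Fin s, C :=
            Finset.prod_le_prod (fun i _ => norm_nonneg _)
              fun i _ => norm_co hC0 hS0 hSC (hw i).1 _
        _ = C ^ s := by rw [Finset.prod_const, Finset.card_univ, Fintype.card_fin]
    · exact mul_le_mul (norm_fs_le _ _) (pow_le_pow_left₀ (norm_nonneg _) h2 _) (by positivity)
        (by positivity)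
  have hterm0 : ‖(∏ i, co C S (w i) ((0 : Fin s → ℤ) i)) *
      (fs F (∑ i, (0 : Fin s → ℤ) i • Λ i) * fs Z (∑ i, (0 : Fin s → ℤ) i • Λ i) ^ j)‖ ≤
        C ^ s * (F.card * Z.card ^ j) := by
    rw [norm_mul, norm_mul, norm_pow, norm_prod]
    refine mul_le_mul ?_ ?_ (by positivity) (by positivity)
    · calc ∏ i, ‖co C S (w i) ((0 : Fin s → ℤ) i)‖ ≤ ∏ _i : Fin s, C :=
            Finset.prod_le_prod (fun i _ => norm_nonneg _)
              fun i _ => norm_co hC0 hS0 hSC (hw i).1 _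
        _ = C ^ s := by rw [Finset.prod_const, Finset.card_univ, Fintype.card_fin]
    · exact mul_le_mul (norm_fs_le _ _) (pow_le_pow_left₀ (norm_nonneg _) (norm_fs_le _ _) _)
        (by positivity) (by positivity)
  have h0mem : (0 : Fin s → ℤ) ∈ Fintype.piFinset (fun _ : Fin s => tri) := by
    rw [Fintype.mem_piFinset]
    intro i
    rw [mem_tri]
    simp
  have hNle : N ≤ 2 * (C ^ s * (F.card * Z.card ^ j)) := by
    have h1 : N ≤ ‖(N : ℂ)‖ := by
      rw [Complex.norm_real]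
      exact Real.le_norm_self _
    refine h1.trans ?_
    rw [hNC, ← Finset.add_sum_erase _ _ h0mem]
    refine (norm_add_le _ _).trans ?_
    rw [two_mul]
    refine add_le_add hterm0 ((norm_sum_le _ _).trans ?_)
    have h2 : ∑ ε ∈ (Fintype.piFinset (fun _ : Fin s => tri)).erase 0,
        ‖(∏ i, co C S (w i) (ε i)) * (fs F (∑ i, ε i • Λ i) * fs Z (∑ i, ε i • Λ i) ^ j)‖ ≤
        ∑ _ε ∈ (Fintype.piFinset (fun _ : Fin s => tri)).erase 0,
          C ^ s * (F.card * (Z.card / 2) ^ j) :=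
      Finset.sum_le_sum fun ε hε => hterm ε (Finset.mem_of_mem_erase hε) (Finset.ne_of_mem_erase hε)
    refine h2.trans ?_
    rw [Finset.sum_const, nsmul_eq_mul]
    have h3' : (((Fintype.piFinset (fun _ : Fin s => tri)).erase 0).card : ℝ) ≤ 2 ^ j := by
      refine le_trans ?_ h3
      have h4 : ((Fintype.piFinset (fun _ : Fin s => tri)).erase 0).card ≤ 3 ^ s := by
        refine (Finset.card_erase_le).trans ?_
        rw [Fintype.card_piFinset, Finset.prod_const, Finset.card_univ, Fintype.card_fin, card_tri]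
      exact_mod_cast h4
    calc (((Fintype.piFinset (fun _ : Fin s => tri)).erase 0).card : ℝ) *
          (C ^ s * (F.card * (Z.card / 2) ^ j))
        ≤ 2 ^ j * (C ^ s * (F.card * (Z.card / 2) ^ j)) :=
          mul_le_mul_of_nonneg_right h3' (by positivity)
      _ = C ^ s * (F.card * Z.card ^ j) := by
          rw [div_pow]
          field_simp
  -- lower bound
  have hlow := lower hTF g fun x => (Real.exp_pos _).le
  have hgN : ∑ f ∈ F, ∑ z ∈ Fintype.piFinset (fun _ : Fin j => Z), g (f + ∑ i, z i) ≤ N :=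
    Finset.sum_le_sum fun f _ => Finset.sum_le_sum fun z _ => hgP _
  have hsumu : (s : ℝ) * (T.card / 2) ≤ ∑ t ∈ T, uu t := by
    have h1 : ∑ t ∈ T, uu t = ∑ i, ‖fs T (Λ i)‖ := by
      simp only [huu]
      rw [Finset.sum_comm]
      refine Finset.sum_congr rfl fun i _ => ?_
      have h2 := congrArg Complex.re (hw i).2
      rw [Complex.ofReal_re] at h2
      rw [h2]
      unfold fs
      rw [Finset.mul_sum, Complex.re_sum]
    rw [h1]
    calc (s : ℝ) * (T.card / 2) = ∑ _i : Fin s, (T.card : ℝ) / 2 := by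
          rw [Finset.sum_const, Finset.card_univ, Fintype.card_fin, nsmul_eq_mul]
      _ ≤ ∑ i, ‖fs T (Λ i)‖ := Finset.sum_le_sum fun i _ => hΛ i
  have hjen : Real.exp (s / 4) * T.card ≤ ∑ t ∈ T, g t := by
    have h1 : ∀ t ∈ T, Real.exp (s / 4) * (1 + (1 / 2 * uu t - s / 4)) ≤ g t := by
      intro t _
      have h2 : g t = Real.exp (s / 4) * Real.exp (1 / 2 * uu t - s / 4) := by
        rw [← Real.exp_add]
        simp only [hg]
        congr 1
        ring
      rw [h2]
      refine mul_le_mul_of_nonneg_left ?_ (Real.exp_pos _).le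
      have := Real.add_one_le_exp (1 / 2 * uu t - s / 4)
      linarith
    refine le_trans ?_ (Finset.sum_le_sum h1)
    rw [← Finset.mul_sum]
    refine mul_le_mul_of_nonneg_left ?_ (Real.exp_pos _).le
    rw [Finset.sum_add_distrib, Finset.sum_sub_distrib, ← Finset.mul_sum]
    simp only [Finset.sum_const, nsmul_eq_mul, mul_one]
    nlinarith
  have hCs : C ^ s ≤ Real.exp (s / 8) := by
    have h1 : C ≤ Real.exp ((1 / 2) ^ 2 / 2) := Real.cosh_le_exp_half_sq _
    calc C ^ s ≤ Real.exp ((1 / 2) ^ 2 / 2) ^ s := pow_le_pow_left₀ hC0 h1 s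
      _ = Real.exp (s / 8) := by
          rw [← Real.exp_nat_mul]
          congr 1
          ring
  have hmain : Real.exp (s / 4) * T.card ≤ 2 * (Real.exp (s / 8) * F.card) := by
    have hZj : (0 : ℝ) < (Z.card : ℝ) ^ j := pow_pos hZc j
    have h1 : (Z.card : ℝ) ^ j * (Real.exp (s / 4) * T.card) ≤
        (Z.card : ℝ) ^ j * (2 * (C ^ s * F.card)) := by
      calc (Z.card : ℝ) ^ j * (Real.exp (s / 4) * T.card) ≤ (Z.card : ℝ) ^ j * ∑ t ∈ T, g t :=
            mul_le_mul_of_nonneg_left hjen hZj.le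
        _ ≤ N := hlow.trans hgN
        _ ≤ 2 * (C ^ s * (F.card * Z.card ^ j)) := hNle
        _ = (Z.card : ℝ) ^ j * (2 * (C ^ s * F.card)) := by ring
    have h2 := le_of_mul_le_mul_left h1 hZj
    refine h2.trans ?_
    refine mul_le_mul_of_nonneg_left ?_ (by norm_num)
    exact mul_le_mul_of_nonneg_right hCs (by positivity)
  have hfin : Real.exp (s / 8) ≤ 2 * F.card / T.card := by
    rw [le_div_iff₀ hTc]
    have h1 : Real.exp (s / 4) = Real.exp (s / 8) * Real.exp (s / 8) := by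
      rw [← Real.exp_add]
      congr 1
      ring
    rw [h1] at hmain
    have h2 : Real.exp (s / 8) * (Real.exp (s / 8) * T.card) ≤
        Real.exp (s / 8) * (2 * F.card) := by
      calc Real.exp (s / 8) * (Real.exp (s / 8) * T.card)
          = Real.exp (s / 8) * Real.exp (s / 8) * T.card := by ring
        _ ≤ 2 * (Real.exp (s / 8) * F.card) := hmain
        _ = Real.exp (s / 8) * (2 * F.card) := by ring
    exact le_of_mul_le_mul_left h2 (Real.exp_pos _)
  have hlog := Real.log_le_log (Real.exp_pos _) hfin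
  rw [Real.log_exp] at hlog
  linarith

end Pool.Agent.H98.Fold
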