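import Pool.Agent.H98.Fold.Stmt

/-!
# Maximal dissociated families
-/

set_option autoImplicit false

namespace Pool.Agent.H98.Fold

open Finset H112
open scoped Pointwise

universe u

theorem y4 : Y4.{u} := by
  intro M _ D E R hE hR
  classical
  obtain ⟨P, hP⟩ : ∃ P : ℕ → Prop, P = fun s => ∃ Λ : Fin s → M, (∀ i, Λ i ∈ D) ∧
      ∀ ε : Fin s → ℤ, (∀ i, |ε i| ≤ 1) → ε ≠ 0 → (∑ i, ε i • Λ i) ∉ E := ⟨_, rfl⟩
  have hPR : ∀ s, P s → s ≤ R := by
    intro s hs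
    rw [hP] at hs
    obtain ⟨Λ, h1, h2⟩ := hs
    exact hR s Λ h1 h2
  have hP0 : P 0 := by
    rw [hP]
    exact ⟨Fin.elim0, fun i => i.elim0, fun ε _ h => absurd (Subsingleton.elim ε 0) h⟩
  obtain ⟨s, hs⟩ : ∃ s, s = Nat.findGreatest P R := ⟨_, rfl⟩
  have hPs : P s := by
    rw [hs]
    exact Nat.findGreatest_spec (Nat.zero_le R) hP0
  have hmax : ¬ P (s + 1) := by
    intro h
    have h1 := Nat.le_findGreatest (hPR _ h) h
    omega
  have hPs' := hPs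
  rw [hP] at hPs'
  obtain ⟨Λ, hΛ, hgood⟩ := hPs'
  refine ⟨s, Λ, hPR s hPs, hΛ, fun γ hγ => ?_⟩
  have hex : ∃ ε : Fin (s + 1) → ℤ, (∀ i, |ε i| ≤ 1) ∧ ε ≠ 0 ∧
      (∑ i, ε i • (Fin.cons γ Λ : Fin (s + 1) → M) i) ∈ E := by
    by_contra hcon
    apply hmax
    rw [hP]
    refine ⟨Fin.cons γ Λ, fun i => ?_, fun ε h1 h2 h3 => hcon ⟨ε, h1, h2, h3⟩⟩
    refine Fin.cases ?_ (fun j => ?_) i
    · rw [Fin.cons_zero]
      exact hγ
    · rw [Fin.cons_succ]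
      exact hΛ j
  obtain ⟨ε, hε1, hε0, hεE⟩ := hex
  rw [Fin.sum_univ_succ] at hεE
  simp only [Fin.cons_zero, Fin.cons_succ] at hεE
  have hcase : ε 0 = 0 ∨ ε 0 = 1 ∨ ε 0 = -1 := by
    have h1 := abs_le.1 (hε1 0)
    omega
  rcases hcase with h | h | h
  · exfalso
    rw [h, zero_smul, zero_add] at hεE
    refine hgood (fun i => ε i.succ) (fun i => hε1 i.succ) ?_ hεE
    intro h0
    apply hε0
    funext i
    refine Fin.cases ?_ (fun j => ?_) i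
    · rw [h]
      rfl
    · exact congrFun h0 j
  · rw [h, one_smul] at hεE
    refine ⟨fun i => -ε i.succ, fun i => ?_, _, hεE, ?_⟩
    · rw [abs_neg]
      exact hε1 i.succ
    · simp only [neg_smul, Finset.sum_neg_distrib]
      abel
  · rw [h, neg_one_smul] at hεE
    refine ⟨fun i => ε i.succ, fun i => hε1 i.succ, _, hE _ hεE, ?_⟩
    abel

end Pool.Agent.H98.Fold
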