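import Pool.Agent.H98.Fold.Stmt

/-!
# The Bohr set is large
-/

set_option autoImplicit false

namespace Pool.Agent.H98.Fold

open Finset H112
open scoped Pointwise

universe u

namespace Q5L

theorem norm_coe_le (a : ℝ) : ‖(a : UnitAddCircle)‖ ≤ |a| := by
  rw [UnitAddCircle.norm_eq]
  have := round_le a 0
  simpa using this

theorem fact01 : Fact ((0:ℝ) < 1) := ⟨one_pos⟩

/-- the representative in `[0,1)` -/
noncomputable def rep (t : UnitAddCircle) : ℝ := (AddCircle.equivIco (1:ℝ) 0 t : ℝ)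

theorem rep_mem (t : UnitAddCircle) : 0 ≤ rep t ∧ rep t < 1 := by
  have h := (AddCircle.equivIco (1:ℝ) 0 t).2
  rw [Set.mem_Ico] at h
  unfold rep
  exact ⟨h.1, by linarith [h.2]⟩

theorem rep_coe (t : UnitAddCircle) : ((rep t : ℝ) : UnitAddCircle) = t :=
  AddCircle.coe_equivIco

/-- the integral part of the product of the representative with `q` -/
noncomputable def code (q : ℕ) (t : UnitAddCircle) : ℕ := ⌊rep t * q⌋₊

theorem code_lt {q : ℕ} (hq : 1 ≤ q) (t : UnitAddCircle) : code q t < q := by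
  unfold code
  have h := rep_mem t
  have hq' : (0:ℝ) < q := by exact_mod_cast hq
  rw [Nat.floor_lt (mul_nonneg h.1 hq'.le)]
  nlinarith [h.2]

theorem norm_sub_le_of_code {q : ℕ} (hq : 1 ≤ q) {t t' : UnitAddCircle} (h : code q t = code q t') :
    ‖t - t'‖ * q ≤ 1 := by
  have hq' : (0:ℝ) < q := by exact_mod_cast hq
  have h1 : t - t' = ((rep t - rep t' : ℝ) : UnitAddCircle) := by
    rw [AddCircle.coe_sub, rep_coe, rep_coe]
  have h2 : ‖t - t'‖ ≤ |rep t - rep t'| := by
    rw [h1]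
    exact norm_coe_le _
  have h3 : |rep t - rep t'| * q ≤ 1 := by
    have a1 := Nat.floor_le (mul_nonneg (rep_mem t).1 hq'.le)
    have a2 := Nat.lt_floor_add_one (rep t * q)
    have a3 := Nat.floor_le (mul_nonneg (rep_mem t').1 hq'.le)
    have a4 := Nat.lt_floor_add_one (rep t' * q)
    have h4 : (⌊rep t * q⌋₊ : ℝ) = (⌊rep t' * q⌋₊ : ℝ) := by
      exact_mod_cast h
    have e0 : |rep t - rep t'| * q = |(rep t - rep t') * q| := by
      rw [abs_mul, abs_of_pos hq']
    rw [e0, abs_le]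
    constructor <;> nlinarith
  exact (mul_le_mul_of_nonneg_right h2 hq'.le).trans h3

theorem big_small {G : Type u} [AddCommGroup G] [DecidableEq G] (Z : Finset G) (hZ : Z.Nonempty)
    (η : G →+ UnitAddCircle) (hη : η ∈ big Z) (x : G) (δ : ℝ)
    (h : (((Z + {x}) \ Z).card : ℝ) ≤ δ * Z.card) : ‖η x‖ ≤ δ := by
  have hZc : (0:ℝ) < Z.card := by exact_mod_cast hZ.card_pos
  have Zx : Z + {x} = Z.image (fun z => z + x) := by
    ext y
    rw [Finset.mem_add, Finset.mem_image]
    constructor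
    · rintro ⟨z, hz, w, hw, rfl⟩
      rw [Finset.mem_singleton] at hw
      exact ⟨z, hz, by rw [hw]⟩
    · rintro ⟨z, hz, rfl⟩
      exact ⟨z, hz, x, Finset.mem_singleton_self x, rfl⟩
  have h1 : (ee (η x) - 1) * fs Z η = ∑ y ∈ Z + {x}, ee (η y) - ∑ y ∈ Z, ee (η y) := by
    have h2 : ∑ y ∈ Z + {x}, ee (η y) = ∑ z ∈ Z, ee (η (z + x)) := by
      rw [Zx, Finset.sum_image]
      intro a _ b _ hab
      exact add_right_cancel hab
    rw [h2, sub_mul, one_mul]
    unfold fs
    rw [Finset.mul_sum]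
    congr 1
    refine Finset.sum_congr rfl fun z _ => ?_
    rw [map_add, Fourier_ee_add, mul_comm]
  have hcard : (Z + {x}).card = Z.card := by
    rw [Zx, Finset.card_image_of_injective]
    exact add_left_injective x
  have hsd : (Z \ (Z + {x})).card = ((Z + {x}) \ Z).card := by
    have e1 := Finset.card_sdiff_add_card_inter Z (Z + {x})
    have e2 := Finset.card_sdiff_add_card_inter (Z + {x}) Z
    rw [Finset.inter_comm] at e2
    omega
  have h3 : ∑ y ∈ Z + {x}, ee (η y) - ∑ y ∈ Z, ee (η y) =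
      ∑ y ∈ (Z + {x}) \ Z, ee (η y) - ∑ y ∈ Z \ (Z + {x}), ee (η y) := by
    rw [← Finset.sum_sdiff_sub_sum_sdiff]
  have h4 : ‖(ee (η x) - 1) * fs Z η‖ ≤ 2 * (δ * Z.card) := by
    rw [h1, h3]
    have b1 : ∀ W : Finset G, ‖∑ y ∈ W, ee (η y)‖ ≤ W.card := by
      intro W
      refine (norm_sum_le _ _).trans ?_
      rw [Finset.sum_congr rfl fun y _ => Fourier_norm_ee (η y), Finset.sum_const, nsmul_one]
    refine (norm_sub_le _ _).trans ?_
    have b2 := b1 ((Z + {x}) \ Z)
    have b3 := b1 (Z \ (Z + {x}))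
    rw [hsd] at b3
    linarith
  rw [norm_mul] at h4
  have h5 : (Z.card : ℝ) / 2 ≤ ‖fs Z η‖ := hη
  have h6 := four_mul_norm_le (η x)
  have h7 : ‖ee (η x) - 1‖ * ((Z.card : ℝ) / 2) ≤ 2 * (δ * Z.card) :=
    (mul_le_mul_of_nonneg_left h5 (norm_nonneg _)).trans h4
  have h8 : 4 * ‖η x‖ * ((Z.card : ℝ) / 2) ≤ 2 * (δ * Z.card) :=
    (mul_le_mul_of_nonneg_right h6 (by positivity)).trans h7
  have h9 : ‖η x‖ * Z.card ≤ δ * Z.card := by linarith
  exact le_of_mul_le_mul_right h9 hZc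

end Q5L

open Q5L in
/-- **The Bohr set is large.** -/
theorem y5 : Y5.{u} := by
  classical
  intro G _ _ X Z D s q Λ δ r hX hZ hq hsr hδ hXZ hD
  have hq' : (0:ℝ) < q := by exact_mod_cast hq
  let c : G → (Fin s → Fin q) := fun x i => ⟨code q (Λ i x), code_lt hq _⟩
  -- some fiber is large
  obtain ⟨y, hy⟩ : ∃ y : Fin s → Fin q, X.card ≤ q ^ s * (X.filter fun x => c x = y).card := by
    by_contra hcon
    push Not at hcon
    have h1 : X.card = ∑ y : Fin s → Fin q, (X.filter fun x => c x = y).card :=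
      Finset.card_eq_sum_card_fiberwise fun x _ => Finset.mem_coe.2 (Finset.mem_univ (c x))
    have hcard : (Finset.univ : Finset (Fin s → Fin q)).card = q ^ s := by
      rw [Finset.card_univ, Fintype.card_fun, Fintype.card_fin, Fintype.card_fin]
    have hne : (Finset.univ : Finset (Fin s → Fin q)).Nonempty := by
      obtain ⟨x, _⟩ := hX
      exact ⟨c x, Finset.mem_univ _⟩
    have h2 : ∑ y : Fin s → Fin q, q ^ s * (X.filter fun x => c x = y).card <
        ∑ _y : Fin s → Fin q, X.card :=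
      Finset.sum_lt_sum_of_nonempty hne fun y _ => hcon y
    rw [← Finset.mul_sum, ← h1, Finset.sum_const, hcard, smul_eq_mul] at h2
    exact lt_irrefl _ h2
  refine hy.trans (Nat.mul_le_mul_left _ ?_)
  set F := X.filter fun x => c x = y with hF
  have hFne : F.Nonempty := by
    rw [← Finset.card_pos]
    have h0 := hX.card_pos
    by_contra hcon
    have h00 : F.card = 0 := by omega
    rw [h00] at hy
    omega
  obtain ⟨x₀, hx₀⟩ := hFne
  have hx₀X : x₀ ∈ X := (Finset.mem_filter.1 hx₀).1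
  have hfin : {x : G | x ∈ X - X ∧ x ∈ bohr D r}.Finite :=
    (X - X).finite_toSet.subset fun x hx => hx.1
  rw [← Set.ncard_coe_finset F]
  refine Set.ncard_le_ncard_of_injOn (fun x => x - x₀) ?_ ?_ hfin
  · intro x hx
    have hxF := Finset.mem_coe.1 hx
    have hxX : x ∈ X := (Finset.mem_filter.1 hxF).1
    have hmem : x - x₀ ∈ X - X := Finset.sub_mem_sub hxX hx₀X
    refine ⟨hmem, ?_⟩
    intro γ hγ
    obtain ⟨ε, hε, η, hη, hγe⟩ := hD γ hγ
    have hη1 : ‖η (x - x₀)‖ ≤ δ := big_small Z hZ η hη _ δ (hXZ _ hmem)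
    have hL : ∀ i, ‖Λ i (x - x₀)‖ * q ≤ 1 := by
      intro i
      rw [map_sub]
      apply norm_sub_le_of_code hq
      have e1 : c x = y := (Finset.mem_filter.1 hxF).2
      have e2 : c x₀ = y := (Finset.mem_filter.1 hx₀).2
      have e3 := congrFun (e1.trans e2.symm) i
      exact congrArg Fin.val e3
    have hγ1 : γ (x - x₀) = ∑ i, ε i • Λ i (x - x₀) + η (x - x₀) := by
      rw [hγe, AddMonoidHom.add_apply, AddMonoidHom.finsetSum_apply]
      rfl
    have hsum : ‖∑ i, ε i • Λ i (x - x₀)‖ * q ≤ s := by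
      have h1 : ‖∑ i, ε i • Λ i (x - x₀)‖ ≤ ∑ i, ‖Λ i (x - x₀)‖ := by
        refine (norm_sum_le _ _).trans (Finset.sum_le_sum fun i _ => ?_)
        rcases abs_le.1 (hε i) with ⟨l1, l2⟩
        have h3 : ε i = -1 ∨ ε i = 0 ∨ ε i = 1 := by omega
        rcases h3 with h3 | h3 | h3 <;> rw [h3]
        · rw [neg_one_zsmul, norm_neg]
        · rw [zero_smul, norm_zero]
          exact norm_nonneg _
        · rw [one_smul]
      calc ‖∑ i, ε i • Λ i (x - x₀)‖ * q ≤ (∑ i, ‖Λ i (x - x₀)‖) * q :=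
            mul_le_mul_of_nonneg_right h1 hq'.le
        _ = ∑ i, ‖Λ i (x - x₀)‖ * q := Finset.sum_mul _ _ _
        _ ≤ ∑ _i : Fin s, (1:ℝ) := Finset.sum_le_sum fun i _ => hL i
        _ = s := by simp
    have htot : ‖γ (x - x₀)‖ * q ≤ r * q := by
      rw [hγ1]
      have h1 := norm_add_le (∑ i, ε i • Λ i (x - x₀)) (η (x - x₀))
      have h2 := mul_le_mul_of_nonneg_right h1 hq'.le
      have h3 := mul_le_mul_of_nonneg_right hη1 hq'.le
      have h4 := mul_le_mul_of_nonneg_right hδ hq'.le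
      nlinarith
    exact le_of_mul_le_mul_right htot hq'
  · intro a _ b _ hab
    exact sub_left_injective hab

end Pool.Agent.H98.Fold
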