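import Pool.Agent.H98.Fold.Stmt

/-!
# The structure of Bohr sets of polynomial growth
-/

set_option autoImplicit false

namespace Pool.Agent.H98.Fold

open Finset H112
open scoped Pointwise

universe u

namespace Q6L

section

variable {G : Type u} [AddCommGroup G] {S : Set (G →+ UnitAddCircle)}

theorem mem_ann {x : G} : x ∈ ann S ↔ ∀ γ ∈ S, γ x = 0 := Iff.rfl

theorem ann_sub_bohr {r : ℝ} (hr : 0 ≤ r) {x : G} (hx : x ∈ ann S) : x ∈ bohr S r := by
  intro γ hγ
  rw [mem_ann.1 hx γ hγ, norm_zero]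
  exact hr

theorem bohr_add_ann {r : ℝ} {x h : G} (hx : x ∈ bohr S r) (hh : h ∈ ann S) : x + h ∈ bohr S r := by
  intro γ hγ
  rw [map_add, mem_ann.1 hh γ hγ, add_zero]
  exact hx γ hγ

variable {m : ℕ} {N : Seminorm ℝ (Fin m → ℝ)} {ψ : (Fin m → ℤ) →+ G}

theorem N_sub_le (c c' : Fin m → ℤ) : N (fun i => (((c - c') i : ℤ) : ℝ)) ≤
    N (fun i => (c i : ℝ)) + N (fun i => (c' i : ℝ)) := by
  have h : (fun i => (((c - c') i : ℤ) : ℝ)) = (fun i => (c i : ℝ)) - fun i => (c' i : ℝ) := by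
    funext i
    rw [Pi.sub_apply, Pi.sub_apply]
    push_cast
    rfl
  rw [h]
  exact map_sub_le_add N _ _

/-- two lattice points of norm at most `1/6` which differ by an element of the annihilator are equal -/
theorem inj (hN : ∀ x, N x = 0 → x = 0)
    (hψ : ∀ c : Fin m → ℤ, N (fun i => (c i : ℝ)) < 1 / 2 → ∀ r : ℝ, 0 ≤ r →
      (ψ c ∈ bohr S r ↔ c ∈ LL N r)) {c c' : Fin m → ℤ} (hc : c ∈ LL N (1 / 6))
    (hc' : c' ∈ LL N (1 / 6)) (h : ψ c - ψ c' ∈ ann S) : c = c' := by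
  have h1 : N (fun i => (((c - c') i : ℤ) : ℝ)) < 1 / 2 := by
    refine lt_of_le_of_lt (N_sub_le c c') ?_
    have a1 : N (fun i => (c i : ℝ)) ≤ 1 / 6 := hc
    have a2 : N (fun i => (c' i : ℝ)) ≤ 1 / 6 := hc'
    linarith
  have h2 : ψ (c - c') ∈ bohr S 0 := by
    rw [map_sub]
    exact ann_sub_bohr le_rfl h
  have h3 : N (fun i => (((c - c') i : ℤ) : ℝ)) ≤ 0 := (hψ _ h1 0 le_rfl).1 h2
  have h4 := hN _ (le_antisymm h3 (apply_nonneg N _))
  funext i
  have h5 := congrFun h4 i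
  simp only [Pi.sub_apply, Pi.zero_apply] at h5
  have h6 : c i - c' i = 0 := by exact_mod_cast h5
  omega

theorem fin_LL (hfin : (bohr S (1 / 6)).Finite) (hN : ∀ x, N x = 0 → x = 0)
    (hψ : ∀ c : Fin m → ℤ, N (fun i => (c i : ℝ)) < 1 / 2 → ∀ r : ℝ, 0 ≤ r →
      (ψ c ∈ bohr S r ↔ c ∈ LL N r)) : (LL N (1 / 6)).Finite := by
  refine Set.Finite.of_finite_image (f := fun c => ψ c) (hfin.subset ?_) ?_
  · rintro x ⟨c, hc, rfl⟩
    have h1 : N (fun i => (c i : ℝ)) ≤ 1 / 6 := hc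
    exact (hψ c (by linarith) (1 / 6) (by norm_num)).2 hc
  · intro c hc c' hc' h
    refine inj hN hψ hc hc' ?_
    have h' : ψ c = ψ c' := h
    rw [h', sub_self]
    exact (ann S).zero_mem

/-- lower bound of the Bohr set -/
theorem low (hfin : (bohr S (1 / 6)).Finite) (hN : ∀ x, N x = 0 → x = 0)
    (hψ : ∀ c : Fin m → ℤ, N (fun i => (c i : ℝ)) < 1 / 2 → ∀ r : ℝ, 0 ≤ r →
      (ψ c ∈ bohr S r ↔ c ∈ LL N r)) :
    (LL N (1 / 6)).ncard * (ann S : Set G).ncard ≤ (bohr S (1 / 6)).ncard := by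
  rw [← Set.ncard_prod]
  refine Set.ncard_le_ncard_of_injOn (fun p => ψ p.1 + p.2) ?_ ?_ hfin
  · rintro ⟨c, h⟩ ⟨hc, hh⟩
    have h1 : N (fun i => (c i : ℝ)) ≤ 1 / 6 := hc
    exact bohr_add_ann ((hψ c (by linarith) (1 / 6) (by norm_num)).2 hc) hh
  · rintro ⟨c, h⟩ ⟨hc, hh⟩ ⟨c', h'⟩ ⟨hc', hh'⟩ heq
    have heq' : ψ c + h = ψ c' + h' := heq
    have hd : ψ c - ψ c' ∈ ann S := by
      have h1 : ψ c - ψ c' = h' - h := by
        rw [sub_eq_sub_iff_add_eq_add, heq']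
        abel
      rw [h1]
      exact (ann S).sub_mem hh' hh
    have hcc : c = c' := inj hN hψ hc hc' hd
    rw [hcc] at heq'
    rw [hcc, add_left_cancel heq']

/-- upper bound of the Bohr set -/
theorem upp {r : ℝ} (hLL : (LL N r).Finite) (hann : (ann S : Set G).Finite)
    (hrep : ∀ x ∈ bohr S r, ∃ c ∈ LL N r, x - ψ c ∈ ann S) :
    (bohr S r).ncard ≤ (LL N r).ncard * (ann S : Set G).ncard := by
  classical
  choose! f hf1 hf2 using hrep
  rw [← Set.ncard_prod]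
  refine Set.ncard_le_ncard_of_injOn (fun x => (f x, x - ψ (f x))) ?_ ?_ (hLL.prod hann)
  · intro x hx
    exact ⟨hf1 x hx, hf2 x hx⟩
  · intro x _ y _ h
    have h1 : f x = f y := congrArg Prod.fst h
    have h2 : x - ψ (f x) = y - ψ (f y) := congrArg Prod.snd h
    rw [h1] at h2
    exact sub_left_injective h2

end

/-- the linear map with the given images of the unit vectors -/
noncomputable def lin {m : ℕ} (b : Fin m → Fin m → ℤ) : (Fin m → ℝ) →ₗ[ℝ] (Fin m → ℝ) where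
  toFun v := ∑ i, v i • fun l => (b i l : ℝ)
  map_add' v w := by
    rw [← Finset.sum_add_distrib]
    exact Finset.sum_congr rfl fun i _ => by rw [Pi.add_apply, add_smul]
  map_smul' a v := by
    rw [RingHom.id_apply, Finset.smul_sum]
    exact Finset.sum_congr rfl fun i _ => by rw [Pi.smul_apply, smul_eq_mul, mul_smul]

theorem lin_int {m : ℕ} (b : Fin m → Fin m → ℤ) (c : Fin m → ℤ) :
    lin b (fun i => (c i : ℝ)) = fun l => (((∑ i, c i • b i) l : ℤ) : ℝ) := by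
  funext l
  show (∑ i, (c i : ℝ) • fun l => (b i l : ℝ)) l = _
  rw [Finset.sum_apply, Finset.sum_apply]
  push_cast
  refine Finset.sum_congr rfl fun i _ => ?_
  rw [Pi.smul_apply, smul_eq_mul, Pi.smul_apply, smul_eq_mul]
  push_cast
  rfl

theorem lin_unit {m : ℕ} (b : Fin m → Fin m → ℤ) (i : Fin m) :
    lin b (fun l => if l = i then 1 else 0) = fun l => (b i l : ℝ) := by
  show ∑ j, (if j = i then (1 : ℝ) else 0) • (fun l => (b j l : ℝ)) = _
  rw [Finset.sum_eq_single i]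
  · rw [if_pos rfl, one_smul]
  · intro j _ hj
    rw [if_neg hj, zero_smul]
  · intro h
    exact absurd (Finset.mem_univ i) h

/-- integer combinations -/
def comb {m : ℕ} (b : Fin m → Fin m → ℤ) : (Fin m → ℤ) →+ (Fin m → ℤ) where
  toFun c := ∑ i, c i • b i
  map_zero' := Finset.sum_eq_zero fun i _ => by rw [Pi.zero_apply, zero_smul]
  map_add' c c' := by
    rw [← Finset.sum_add_distrib]
    exact Finset.sum_congr rfl fun i _ => by rw [Pi.add_apply, add_smul]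

end Q6L

open Q6L

theorem y6 (h7 : Y7) : Y6.{u} := by
  intro G _ S r₀ s₀ k₀ t hfin hs0 hsr hr hcard
  have hr0 : 0 ≤ r₀ := hs0.trans hsr
  have hr6 : r₀ ≤ 1 / 6 := by
    have h1 : 0 ≤ (3 * (k₀ : ℝ) * t) * r₀ := by positivity
    linarith
  obtain ⟨m, N, ψ, hN, hψ, hrep, hspan⟩ := lattice_repr S hfin hr0 hr6
  have hann : (ann S : Set G).Finite := hfin.subset fun x hx => ann_sub_bohr (by norm_num) hx
  have hLL6 := fin_LL hfin hN hψ
  have hLLr : (LL N r₀).Finite := hLL6.subset fun c hc => le_trans hc hr6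
  have hlow := low hfin hN hψ
  have hupp := upp hLLr hann hrep
  have hm : m ≤ k₀ := by
    by_contra hcon
    push Not at hcon
    have hsub : LL N ((3 * (k₀ : ℝ) * t + 1) * r₀) ⊆ LL N (1 / 6) := fun c hc => le_trans hc hr
    have h1 := dim_growth N hr0 hspan hcon.le (hLL6.subset hsub)
    have h2 := Set.ncard_le_ncard hsub hLL6
    have h3 : (t + 1) ^ k₀ * (bohr S r₀).ncard ≤ (bohr S (1 / 6)).ncard := by
      calc (t + 1) ^ k₀ * (bohr S r₀).ncard
          ≤ (t + 1) ^ k₀ * ((LL N r₀).ncard * (ann S : Set G).ncard) :=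
            Nat.mul_le_mul_left _ hupp
        _ = (t + 1) ^ k₀ * (LL N r₀).ncard * (ann S : Set G).ncard := by ring
        _ ≤ (LL N (1 / 6)).ncard * (ann S : Set G).ncard :=
            Nat.mul_le_mul_right _ (h1.trans h2)
        _ ≤ _ := hlow
    exact absurd hcard (not_lt.2 h3)
  obtain ⟨b, hb1, hb2⟩ := h7 m N r₀ hr0 hspan
  refine ⟨m, N.comp (lin b), ψ.comp (comb b), hm, hann.to_subtype, ?_, ?_, ?_⟩
  · intro i
    rw [Seminorm.comp_apply, lin_unit]
    exact hb1 i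
  · intro x hx
    obtain ⟨c, hc, hxc⟩ := hrep x (fun γ hγ => (hx γ hγ).trans hsr)
    have hc' : N (fun i => (c i : ℝ)) ≤ r₀ := hc
    have h1 : ψ c ∈ bohr S s₀ := by
      intro γ hγ
      have h2 := mem_ann.1 hxc γ hγ
      rw [map_sub, sub_eq_zero] at h2
      rw [← h2]
      exact hx γ hγ
    have h3 : c ∈ LL N s₀ := (hψ c (by linarith) s₀ hs0).1 h1
    obtain ⟨n, hn⟩ := hb2 c
    refine ⟨n, ?_, ?_⟩
    · rw [Seminorm.comp_apply, lin_int, ← hn]
      exact h3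
    · show x - ψ (∑ i, n i • b i) ∈ ann S
      rw [← hn]
      exact hxc
  · intro c hc
    rw [Seminorm.comp_apply, lin_int] at hc
    show ψ (∑ i, c i • b i) ∈ bohr S (1 / 6)
    exact (hψ (∑ i, c i • b i) (by linarith) (1 / 6) (by norm_num)).2 hc

end Pool.Agent.H98.Fold
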