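import Pool.Agent.H98.Fold.Stmt

/-!
# Short generators of the integer lattice (task Y7, written by helper410)
-/

set_option autoImplicit false

namespace Pool.Agent.H98.Fold

open Finset H112
open scoped Pointwise

namespace Q7L

/-- the real vector of an integer vector -/
def rl {m : ℕ} (z : Fin m → ℤ) : Fin m → ℝ := fun i => (z i : ℝ)

theorem rl_add {m : ℕ} (z w : Fin m → ℤ) : rl (z + w) = rl z + rl w := by
  funext i; simp [rl]

theorem rl_sub {m : ℕ} (z w : Fin m → ℤ) : rl (z - w) = rl z - rl w := by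
  funext i; simp [rl]

theorem rl_smul {m : ℕ} (n : ℤ) (z : Fin m → ℤ) : rl (n • z) = (n : ℝ) • rl z := by
  funext i; simp [rl]

theorem rl_zero {m : ℕ} : rl (0 : Fin m → ℤ) = 0 := by
  funext i; simp [rl]

theorem rl_sum {m : ℕ} {ι : Type} (s : Finset ι) (f : ι → Fin m → ℤ) :
    rl (∑ i ∈ s, f i) = ∑ i ∈ s, rl (f i) := by
  funext i; simp [rl]

theorem rl_inj {m : ℕ} {z w : Fin m → ℤ} (h : rl z = rl w) : z = w := by
  funext i
  have := congrFun h i
  simp only [rl] at this
  exact_mod_cast this

/-- integer points with bounded coordinates -/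
theorem fin_bdd {m : ℕ} (B : ℝ) (S : Set (Fin m → ℤ)) (h : ∀ z ∈ S, ∀ l, |((z l : ℤ) : ℝ)| ≤ B) :
    S.Finite := by
  have h1 : S ⊆ Set.pi Set.univ (fun _ : Fin m => Set.Icc (-⌈B⌉) ⌈B⌉) := by
    intro z hz l _
    have h2 := abs_le.1 (h z hz l)
    have h3 : B ≤ ⌈B⌉ := Int.le_ceil B
    constructor
    · have : (-(⌈B⌉ : ℝ)) ≤ (z l : ℝ) := by linarith
      exact_mod_cast this
    · have : ((z l : ℤ) : ℝ) ≤ (⌈B⌉ : ℝ) := by linarith
      exact_mod_cast this
  exact (Set.Finite.pi' (fun _ => Set.finite_Icc _ _)).subset (fun z hz l => h1 hz l (Set.mem_univ l))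

/-- The inductive statement. -/
theorem key {m : ℕ} (k : ℕ) : ∀ v : Fin k → Fin m → ℤ, ∃ b : Fin k → Fin m → ℤ,
    (∀ i, ∃ c : Fin k → ℝ, (∀ j, |c j| ≤ 1) ∧ rl (b i) = ∑ j, c j • rl (v j)) ∧
    ∀ z : Fin m → ℤ, rl z ∈ Submodule.span ℝ (Set.range fun j => rl (v j)) →
      ∃ n : Fin k → ℤ, z = ∑ i, n i • b i := by
  induction k with
  | zero =>
    intro v
    refine ⟨fun i => Fin.elim0 i, fun i => Fin.elim0 i, fun z hz => ⟨fun i => Fin.elim0 i, ?_⟩⟩
    have h1 : (Set.range fun j => rl (v j)) = ∅ := Set.range_eq_empty _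
    rw [h1, Submodule.span_empty, Submodule.mem_bot] at hz
    rw [Fin.sum_univ_zero]
    exact rl_inj (hz.trans rl_zero.symm)
  | succ k ih =>
    intro v
    obtain ⟨b', hb1, hb2⟩ := ih (fun j => v j.castSucc)
    set w : Fin m → ℤ := v (Fin.last k) with hw
    set W : Submodule ℝ (Fin m → ℝ) := Submodule.span ℝ (Set.range fun j : Fin k => rl (v j.castSucc))
      with hW
    have hvW : ∀ j : Fin k, rl (v j.castSucc) ∈ W := fun j => Submodule.subset_span ⟨j, rfl⟩
    have hrep : ∀ z : Fin m → ℤ, rl z ∈ Submodule.span ℝ (Set.range fun j => rl (v j)) →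
        ∃ (a : Fin k → ℝ) (t : ℝ), rl z = ∑ j, a j • rl (v j.castSucc) + t • rl w := by
      intro z hz
      obtain ⟨c, hc⟩ := (Submodule.mem_span_range_iff_exists_fun ℝ).1 hz
      rw [Fin.sum_univ_castSucc] at hc
      exact ⟨fun j => c j.castSucc, c (Fin.last k), hc.symm⟩
    by_cases hwW : rl w ∈ W
    · refine ⟨Fin.snoc b' 0, ?_, ?_⟩
      · intro i
        refine Fin.lastCases ?_ (fun i => ?_) i
        · refine ⟨fun _ => 0, fun _ => by simp, ?_⟩
          rw [Fin.snoc_last, rl_zero]
          simp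
        · obtain ⟨c, hc1, hc2⟩ := hb1 i
          refine ⟨Fin.snoc c 0, ?_, ?_⟩
          · intro j
            refine Fin.lastCases ?_ (fun j => ?_) j
            · rw [Fin.snoc_last]; simp
            · rw [Fin.snoc_castSucc]; exact hc1 j
          · rw [Fin.snoc_castSucc, hc2, Fin.sum_univ_castSucc]
            simp only [Fin.snoc_castSucc, Fin.snoc_last, zero_smul, add_zero]
      · intro z hz
        obtain ⟨a, t, hat⟩ := hrep z hz
        have hzW : rl z ∈ W := by
          rw [hat]
          exact W.add_mem (W.sum_mem fun j _ => W.smul_mem _ (hvW j)) (W.smul_mem _ hwW)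
        obtain ⟨n, hn⟩ := hb2 z hzW
        refine ⟨Fin.snoc n 0, ?_⟩
        rw [Fin.sum_univ_castSucc]
        simp only [Fin.snoc_castSucc, Fin.snoc_last, zero_smul, add_zero]
        exact hn
    · obtain ⟨g, hgw, hgW⟩ := Submodule.exists_le_ker_of_notMem hwW
      set f : (Fin m → ℝ) →ₗ[ℝ] ℝ := (g (rl w))⁻¹ • g with hf
      have hfW : ∀ x ∈ W, f x = 0 := by
        intro x hx
        have : g x = 0 := LinearMap.mem_ker.1 (hgW hx)
        rw [hf, LinearMap.smul_apply, this, smul_zero]
      have hfw : f (rl w) = 1 := by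
        rw [hf, LinearMap.smul_apply, smul_eq_mul, inv_mul_cancel₀ hgw]
      have hfrep : ∀ (a : Fin k → ℝ) (t : ℝ), f (∑ j, a j • rl (v j.castSucc) + t • rl w) = t := by
        intro a t
        rw [map_add, hfW _ (W.sum_mem fun j _ => W.smul_mem _ (hvW j)), map_smul, hfw, zero_add,
          smul_eq_mul, mul_one]
      set Z : Set (Fin m → ℤ) := {z | 0 < f (rl z) ∧ f (rl z) ≤ 1 ∧ ∃ a : Fin k → ℝ,
        (∀ j, |a j| ≤ 1) ∧ rl z = ∑ j, a j • rl (v j.castSucc) + f (rl z) • rl w} with hZ
      have hZfin : Z.Finite := by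
        refine fin_bdd (∑ l, (∑ j : Fin k, |rl (v j.castSucc) l| + |rl w l|)) Z ?_
        rintro z ⟨h1, h2, a, ha, hz⟩ l
        have h3 : ((z l : ℤ) : ℝ) = ∑ j, a j * rl (v j.castSucc) l + f (rl z) * rl w l := by
          have := congrFun hz l
          simpa [rl, Finset.sum_apply] using this
        have h4 : |((z l : ℤ) : ℝ)| ≤ ∑ j : Fin k, |rl (v j.castSucc) l| + |rl w l| := by
          rw [h3]
          refine (abs_add_le _ _).trans (add_le_add ?_ ?_)
          · refine (Finset.abs_sum_le_sum_abs _ _).trans (Finset.sum_le_sum fun j _ => ?_)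
            rw [abs_mul]
            exact mul_le_of_le_one_left (abs_nonneg _) (ha j)
          · rw [abs_mul]
            refine mul_le_of_le_one_left (abs_nonneg _) ?_
            rw [abs_of_pos h1]
            exact h2
        refine h4.trans (Finset.single_le_sum (f := fun l =>
          ∑ j : Fin k, |rl (v j.castSucc) l| + |rl w l|) (fun l _ => ?_) (Finset.mem_univ l))
        exact add_nonneg (Finset.sum_nonneg fun _ _ => abs_nonneg _) (abs_nonneg _)
      have hZne : Z.Nonempty := by
        refine ⟨w, ?_, ?_, fun _ => 0, fun _ => by simp, ?_⟩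
        · rw [hfw]; exact one_pos
        · rw [hfw]
        · rw [hfw]; simp
      obtain ⟨z0, hz0, hmin⟩ := Set.exists_min_image Z (fun z => f (rl z)) hZfin hZne
      obtain ⟨ht0, ht1, a0, ha0, hza0⟩ := hz0
      refine ⟨Fin.snoc b' z0, ?_, ?_⟩
      · intro i
        refine Fin.lastCases ?_ (fun i => ?_) i
        · refine ⟨Fin.snoc a0 (f (rl z0)), ?_, ?_⟩
          · intro j
            refine Fin.lastCases ?_ (fun j => ?_) j
            · rw [Fin.snoc_last, abs_of_pos ht0]; exact ht1
            · rw [Fin.snoc_castSucc]; exact ha0 j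
          · rw [Fin.snoc_last, Fin.sum_univ_castSucc]
            simp only [Fin.snoc_castSucc, Fin.snoc_last]
            exact hza0
        · obtain ⟨c, hc1, hc2⟩ := hb1 i
          refine ⟨Fin.snoc c 0, ?_, ?_⟩
          · intro j
            refine Fin.lastCases ?_ (fun j => ?_) j
            · rw [Fin.snoc_last]; simp
            · rw [Fin.snoc_castSucc]; exact hc1 j
          · rw [Fin.snoc_castSucc, hc2, Fin.sum_univ_castSucc]
            simp only [Fin.snoc_castSucc, Fin.snoc_last, zero_smul, add_zero]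
      · intro z hz
        set n : ℤ := ⌊f (rl z) / f (rl z0)⌋ with hn
        obtain ⟨a, t, hat⟩ := hrep z hz
        have hft : f (rl z) = t := by rw [hat]; exact hfrep a t
        set t' : ℝ := t - n * f (rl z0) with ht'
        set a' : Fin k → ℝ := fun j => a j - n * a0 j with ha'
        have hz1 : rl (z - n • z0) = ∑ j, a' j • rl (v j.castSucc) + t' • rl w := by
          rw [rl_sub, rl_smul, hat]
          conv_lhs => rw [hza0]
          rw [smul_add, Finset.smul_sum, ha', ht']
          simp only [sub_smul, Finset.sum_sub_distrib, smul_smul]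
          abel
        have hn1 : (n : ℝ) ≤ t / f (rl z0) := by rw [hn, hft]; exact Int.floor_le _
        have hn2 : t / f (rl z0) < n + 1 := by rw [hn, hft]; exact Int.lt_floor_add_one _
        have h1 : 0 ≤ t' := by
          rw [le_div_iff₀ ht0] at hn1
          rw [ht']; linarith
        have h2 : t' < f (rl z0) := by
          rw [div_lt_iff₀ ht0] at hn2
          rw [ht']; linarith
        have h3 : t' = 0 := by
          by_contra h4
          have h5 : 0 < t' := lt_of_le_of_ne h1 (Ne.symm h4)
          set z2 : Fin m → ℤ := (z - n • z0) - ∑ j, ⌊a' j⌋ • v j.castSucc with hz2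
          have h6 : rl z2 = ∑ j, Int.fract (a' j) • rl (v j.castSucc) + t' • rl w := by
            rw [hz2, rl_sub, hz1, rl_sum]
            simp only [rl_smul]
            have h7 : ∀ j, Int.fract (a' j) = a' j - ⌊a' j⌋ := fun j => rfl
            simp only [h7, sub_smul, Finset.sum_sub_distrib]
            abel
          have h8 : f (rl z2) = t' := by rw [h6]; exact hfrep _ _
          have h9 : z2 ∈ Z := by
            refine ⟨by rw [h8]; exact h5, by rw [h8]; linarith, fun j => Int.fract (a' j), ?_, ?_⟩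
            · intro j
              rw [abs_of_nonneg (Int.fract_nonneg _)]
              exact (Int.fract_lt_one _).le
            · rw [h8]; exact h6
          have h10 := hmin z2 h9
          simp only [h8] at h10
          linarith
        have h11 : rl (z - n • z0) ∈ W := by
          rw [hz1, h3, zero_smul, add_zero]
          exact W.sum_mem fun j _ => W.smul_mem _ (hvW j)
        obtain ⟨n', hn'⟩ := hb2 _ h11
        refine ⟨Fin.snoc n' n, ?_⟩
        rw [Fin.sum_univ_castSucc]
        simp only [Fin.snoc_castSucc, Fin.snoc_last]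
        rw [← hn']
        abel

end Q7L

open Q7L in
theorem y7 : Y7 := by
  intro m N ρ hρ hspan
  set s : Set (Fin m → ℝ) := {v : Fin m → ℝ | ∃ c ∈ LL N ρ, v = fun i => (c i : ℝ)} with hs
  obtain ⟨B, hBs, hBspan, hBli⟩ := exists_linearIndependent ℝ s
  have hBtop : Submodule.span ℝ B = ⊤ := hBspan.trans hspan
  have hfin : Finite B := hBli.finite
  have hfinT : Fintype B := Fintype.ofFinite B
  have hcard : Fintype.card B = m := by
    have b := Module.Basis.mk hBli (by rw [Subtype.range_coe]; exact hBtop.ge)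
    have := Module.finrank_eq_card_basis b
    rw [Module.finrank_fin_fun] at this
    exact this.symm
  let e : Fin m ≃ B := (Fintype.equivFinOfCardEq hcard).symm
  have hv : ∀ i : Fin m, ∃ c : Fin m → ℤ, c ∈ LL N ρ ∧ ((e i : B) : Fin m → ℝ) = rl c := by
    intro i
    obtain ⟨c, hc1, hc2⟩ := hBs (e i).2
    exact ⟨c, hc1, hc2⟩
  choose v hv1 hv2 using hv
  obtain ⟨b, hb1, hb2⟩ := key m v
  have hrange : (Set.range fun j => rl (v j)) = B := by
    ext x
    constructor
    · rintro ⟨j, rfl⟩
      show rl (v j) ∈ B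
      rw [← hv2]
      exact (e j).2
    · intro hx
      refine ⟨e.symm ⟨x, hx⟩, ?_⟩
      show rl (v (e.symm ⟨x, hx⟩)) = x
      rw [← hv2, Equiv.apply_symm_apply]
  refine ⟨b, ?_, ?_⟩
  · intro i
    obtain ⟨c, hc1, hc2⟩ := hb1 i
    have h1 : N (rl (b i)) ≤ m * ρ := by
      rw [hc2]
      calc N (∑ j, c j • rl (v j)) ≤ ∑ j, N (c j • rl (v j)) :=
            Finset.le_sum_of_subadditive N (map_zero N).le (map_add_le_add N) _ _
        _ ≤ ∑ _j : Fin m, ρ := by
            refine Finset.sum_le_sum fun j _ => ?_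
            rw [map_smul_eq_mul, Real.norm_eq_abs]
            have h2 : N (rl (v j)) ≤ ρ := hv1 j
            calc |c j| * N (rl (v j)) ≤ 1 * N (rl (v j)) :=
                  mul_le_mul_of_nonneg_right (hc1 j) (apply_nonneg N _)
              _ = N (rl (v j)) := one_mul _
              _ ≤ ρ := h2
        _ = m * ρ := by rw [Finset.sum_const, Finset.card_univ, Fintype.card_fin, nsmul_eq_mul]
    exact h1
  · intro z
    refine hb2 z ?_
    rw [hrange, hBtop]
    exact Submodule.mem_top

end Pool.Agent.H98.Fold
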