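import Pool.Agent.H98.Fold.Main
import Pool.Agent.H98.Fold.Q1a
import Pool.Agent.H98.Fold.Q1
import Pool.Agent.H98.Fold.Q2
import Pool.Agent.H98.Fold.Q3
import Pool.Agent.H98.Fold.Q4
import Pool.Agent.H98.Fold.Q5
import Pool.Agent.H98.Fold.Q6
import Pool.Agent.H98.Fold.Q7
--Q8
--Q9

/-!
# Polylogarithmic sumsets: the theorem
-/

set_option autoImplicit false

namespace Pool.Agent.H98.Fold

open Finset H112 Pool.Agent.H98.Gap Pool.Agent.H98.Big Pool.Agent.Y806.DF Pool.Agent.R92.Star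
open scoped Pointwise

universe u

theorem scale {n N₀ : ℕ} (hN₀ : 1 ≤ N₀) (hn : N₀ ≤ n) :
    ∃ m n₁ : ℕ, 1 ≤ m ∧ N₀ ≤ n₁ ∧ n₁ ≤ 2 * N₀ + 1 ∧ n ≤ n₁ * m ∧ n₁ * m ≤ 2 * n := by
  have hm1 : 1 ≤ n / N₀ := (Nat.one_le_div_iff (by omega)).2 hn
  obtain ⟨m, hm⟩ : ∃ m, m = n / N₀ := ⟨_, rfl⟩
  rw [← hm] at hm1
  have h1 : m * N₀ ≤ n := by rw [hm]; exact Nat.div_mul_le_self _ _
  have h2 : n < (m + 1) * N₀ := by
    rw [hm]
    exact (Nat.div_lt_iff_lt_mul (by omega)).1 (Nat.lt_succ_self _)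
  obtain ⟨N', hN'⟩ : ∃ N', N' = n / m := ⟨_, rfl⟩
  have h3 : N₀ ≤ N' := by
    rw [hN', Nat.le_div_iff_mul_le (by omega)]
    rw [mul_comm]; exact h1
  have h4 : N' ≤ 2 * N₀ := by
    rw [hN']
    refine Nat.div_le_of_le_mul ?_
    calc n ≤ (m + 1) * N₀ := h2.le
      _ ≤ (m + m) * N₀ := Nat.mul_le_mul_right _ (by omega)
      _ = m * (2 * N₀) := by ring
  have h5 : n < (N' + 1) * m := by
    rw [hN']
    exact (Nat.div_lt_iff_lt_mul (by omega)).1 (Nat.lt_succ_self _)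
  have h6 : N' * m ≤ n := by rw [hN']; exact Nat.div_mul_le_self _ _
  have h7 : m ≤ n := by
    calc m = m * 1 := (mul_one m).symm
      _ ≤ m * N₀ := Nat.mul_le_mul_left _ hN₀
      _ ≤ n := h1
  refine ⟨m, N' + 1, hm1, by omega, by omega, h5.le, ?_⟩
  calc (N' + 1) * m = N' * m + m := by ring
    _ ≤ 2 * n := by omega

/-- from the structure theorem to the conclusion -/
theorem fold_fin {Cp Cn C' : ℝ} (hCp : 1 ≤ Cp) (hCn : 1 ≤ Cn)
    (hgr : ∀ (K : ℝ), 1 ≤ K → ∃ E : ℕ,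
      (E : ℝ) ≤ Cp * (1 + Real.log K) ^ 2 ∧ ∀ (Γ : Type u) [AddCommGroup Γ] [DecidableEq Γ]
      (A : Finset Γ) (n : ℕ), (0 : Γ) ∈ A → Cp * (1 + Real.log K) ^ 2 ≤ n →
      ((n • A + n • A).card : ℝ) ≤ K ^ 8 * (n • A).card →
      ∀ m : ℕ, 1 ≤ m → (m • A).card ≤ (4 * m) ^ E * (n • A).card)
    (hst : ∀ (Γ : Type u) [AddCommGroup Γ] [DecidableEq Γ] (A : Finset Γ) (K : ℝ) (n E : ℕ),
      (0 : Γ) ∈ A → 1 ≤ K → 1 ≤ n → ((n • A + n • A).card : ℝ) ≤ K * (n • A).card →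
      (∀ m : ℕ, 1 ≤ m → (m • (A - A)).card ≤ (4 * m) ^ E * (n • (A - A)).card) →
      Cn * (1 + Real.log K) ^ 9 ≤ n → (n : ℝ) ≤ 8 * Cn * (1 + Real.log K) ^ 9 →
      (E : ℝ) ≤ Cp * (1 + Real.log K) ^ 2 → Struct n A)
    (hconv : ∀ (Γ : Type u) [AddCommGroup Γ] [DecidableEq Γ] (D : ℕ)
      (V : Set (Fin D → ℝ)) (ψ : (Fin D → ℤ) →+ Γ) (K : ℝ) (A P : Finset Γ), 1 ≤ K → Sym V →
      (∀ x : Fin D → ℝ, (∀ i, |x i| ≤ 1) → x ∈ V) → A.Nonempty → (P : Set Γ) = ψ '' lat V →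
      ((A + P).card : ℝ) ≤ K * P.card → (P.card : ℝ) ≤ K * A.card → Concl C' K A)
    (Γ : Type u) [AddCommGroup Γ] [DecidableEq Γ] (K : ℝ) (A B : Finset Γ) (n : ℕ)
    (hK : 1 ≤ K) (h0 : (0 : Γ) ∈ A) (hB : B.Nonempty)
    (hn : Cn * (13 + Cp) ^ 9 * (1 + Real.log K) ^ 9 + 1 ≤ n)
    (hBA : ((B + n • A).card : ℝ) ≤ K * (n • A).card) (hAB : ((n • A).card : ℝ) ≤ K * B.card) :
    Concl (100 * |C'| + 1) K B := by
  classical
  have hK0 : 0 < K := by linarith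
  have hlK : 0 ≤ Real.log K := Real.log_nonneg hK
  obtain ⟨X, hX⟩ : ∃ X, X = n • A := ⟨_, rfl⟩
  rw [← hX] at hBA hAB
  have h0X : (0 : Γ) ∈ X := by rw [hX]; exact Finset.zero_mem_nsmul h0
  have hXne : X.Nonempty := ⟨0, h0X⟩
  have hX0 : (0 : ℝ) < X.card := by exact_mod_cast hXne.card_pos
  have hB0 : (0 : ℝ) < B.card := by exact_mod_cast hB.card_pos
  have hdoub : ((X + X).card : ℝ) ≤ K ^ 3 * X.card := by
    have h1 := Finset.ruzsa_triangle_inequality_add_add_add X B X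
    have h2 : ((X + X).card : ℝ) * B.card ≤ (X + B).card * (B + X).card := by
      exact_mod_cast h1
    rw [add_comm X B] at h2
    have h3 : ((X + X).card : ℝ) * B.card ≤ (K ^ 3 * X.card) * B.card := by
      calc _ ≤ _ := h2
        _ ≤ (K * X.card) * (K * X.card) :=
          mul_le_mul hBA hBA (Nat.cast_nonneg _) (by positivity)
        _ ≤ (K * X.card) * (K * (K * B.card)) := by gcongr
        _ = _ := by ring
    exact le_of_mul_le_mul_right h3 hB0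
  -- the new doubling constants
  obtain ⟨Kg, hKg⟩ : ∃ Kg : ℝ, Kg = K ^ 12 := ⟨_, rfl⟩
  have hKg1 : 1 ≤ Kg := by rw [hKg]; exact one_le_pow₀ hK
  obtain ⟨K₁, hK₁⟩ : ∃ K₁ : ℝ, K₁ = Kg * Real.exp Cp := ⟨_, rfl⟩
  have hexp1 : 1 ≤ Real.exp Cp := Real.one_le_exp (by linarith)
  have hKK₁ : Kg ≤ K₁ := by rw [hK₁]; nlinarith
  have hK₁1 : 1 ≤ K₁ := hKg1.trans hKK₁
  have hlKg : Real.log Kg = 12 * Real.log K := by
    rw [hKg, Real.log_pow]; push_cast; ring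
  have hlK₁ : Real.log K₁ = 12 * Real.log K + Cp := by
    rw [hK₁, Real.log_mul (by positivity) (Real.exp_pos _).ne', Real.log_exp, hlKg]
  obtain ⟨E, hE, hgrow⟩ := hgr Kg hKg1
  -- the scale
  obtain ⟨w, hw⟩ : ∃ w : ℝ, w = 1 + Real.log K₁ := ⟨_, rfl⟩
  have hw' : w = 1 + 12 * Real.log K + Cp := by rw [hw, hlK₁]; ring
  have hw1 : 1 ≤ w := by rw [hw']; linarith
  have hCw1 : 1 ≤ Cn * w ^ 9 := by
    have := one_le_pow₀ hw1 (n := 9)
    nlinarith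
  have hwle : w ≤ (13 + Cp) * (1 + Real.log K) := by
    rw [hw']
    nlinarith
  obtain ⟨N₀, hN₀⟩ : ∃ N₀ : ℕ, N₀ = ⌈Cn * w ^ 9⌉₊ := ⟨_, rfl⟩
  have hN₀l : Cn * w ^ 9 ≤ N₀ := by rw [hN₀]; exact Nat.le_ceil _
  have hN₀u : (N₀ : ℝ) < Cn * w ^ 9 + 1 := by rw [hN₀]; exact Nat.ceil_lt_add_one (by positivity)
  have hN₀1 : 1 ≤ N₀ := by
    have : (1 : ℝ) ≤ N₀ := hCw1.trans hN₀l
    exact_mod_cast this
  have hN₀n : N₀ ≤ n := by
    have h1 : Cn * w ^ 9 ≤ Cn * (13 + Cp) ^ 9 * (1 + Real.log K) ^ 9 := by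
      calc Cn * w ^ 9 ≤ Cn * ((13 + Cp) * (1 + Real.log K)) ^ 9 :=
            mul_le_mul_of_nonneg_left (pow_le_pow_left₀ (by linarith) hwle 9) (by linarith)
        _ = _ := by rw [mul_pow]; ring
    have h2 : (N₀ : ℝ) ≤ n := by linarith
    exact_mod_cast h2
  obtain ⟨m, n₁, hm1, hn₁l, hn₁u, hnm, hnm2⟩ := scale hN₀1 hN₀n
  have hn₁1 : 1 ≤ n₁ := hN₀1.trans hn₁l
  have hn₁lr : Cn * w ^ 9 ≤ n₁ := hN₀l.trans (by exact_mod_cast hn₁l)
  have hn₁ur : (n₁ : ℝ) ≤ 8 * Cn * w ^ 9 := by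
    have h1 : (n₁ : ℝ) ≤ 2 * N₀ + 1 := by exact_mod_cast hn₁u
    linarith
  obtain ⟨A', hA'⟩ : ∃ A', A' = m • A := ⟨_, rfl⟩
  have h0A' : (0 : Γ) ∈ A' := by rw [hA']; exact Finset.zero_mem_nsmul h0
  obtain ⟨X₁, hX₁⟩ : ∃ X₁, X₁ = n₁ • A' := ⟨_, rfl⟩
  have hX₁' : X₁ = (n₁ * m) • A := by rw [hX₁, hA', mul_smul]
  have hXX₁ : X ⊆ X₁ := by rw [hX, hX₁']; exact Finset.nsmul_subset_nsmul_right h0 hnm
  have hX₁X : X₁ ⊆ 2 • X := by
    rw [hX₁', hX, ← mul_smul]; exact Finset.nsmul_subset_nsmul_right h0 hnm2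
  have h0X₁ : (0 : Γ) ∈ X₁ := hXX₁ h0X
  have hcX : (X.card : ℝ) ≤ X₁.card := by exact_mod_cast Finset.card_le_card hXX₁
  have hmulsub : ∀ a b : ℕ, a • X₁ - b • X₁ ⊆ (2 * a) • X - (2 * b) • X := by
    intro a b
    have h1 : ∀ a : ℕ, a • X₁ ⊆ (2 * a) • X := by
      intro a
      have e : (2 * a) • X = a • (2 • X) := by rw [← mul_smul, mul_comm]
      rw [e]
      exact Finset.nsmul_subset_nsmul_left hX₁X
    exact Finset.sub_subset_sub (h1 a) (h1 b)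
  have hd1 : ((n₁ • A' + n₁ • A').card : ℝ) ≤ K₁ * (n₁ • A').card := by
    rw [← hX₁]
    have e : X₁ + X₁ = 2 • X₁ - 0 • X₁ := by rw [zero_smul, sub_zero, two_nsmul]
    have h1 := Finset.card_le_card (hmulsub 2 0)
    rw [← e] at h1
    have h2 := plun hXne hdoub (2 * 2) (2 * 0)
    calc ((X₁ + X₁).card : ℝ) ≤ (((2 * 2) • X - (2 * 0) • X : Finset Γ).card : ℝ) := by
          exact_mod_cast h1
      _ ≤ (K ^ 3) ^ (2 * 2 + 2 * 0) * X.card := h2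
      _ = Kg * X.card := by rw [hKg]; ring
      _ ≤ K₁ * X₁.card := mul_le_mul hKK₁ hcX hX0.le (by linarith)
  have hAA' : n₁ • (A' - A') = X₁ - X₁ := by rw [hX₁, nsmul_sub]
  have hd2 : ((n₁ • (A' - A') + n₁ • (A' - A')).card : ℝ) ≤ Kg ^ 8 * (n₁ • (A' - A')).card := by
    have e : n₁ • (A' - A') + n₁ • (A' - A') = 2 • X₁ - 2 • X₁ := by
      rw [hAA', ← nsmul_sub, two_nsmul]
    rw [e, hAA']
    have h1 := Finset.card_le_card (hmulsub 2 2)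
    have h2 := plun hXne hdoub (2 * 2) (2 * 2)
    have h3 : (X.card : ℝ) ≤ (X₁ - X₁).card := by
      refine hcX.trans ?_
      exact_mod_cast Finset.card_le_card_sub_left ⟨0, h0X₁⟩
    calc ((2 • X₁ - 2 • X₁ : Finset Γ).card : ℝ) ≤ (((2 * 2) • X - (2 * 2) • X : Finset Γ).card : ℝ) := by
          exact_mod_cast h1
      _ ≤ (K ^ 3) ^ (2 * 2 + 2 * 2) * X.card := h2
      _ = Kg ^ 2 * X.card := by rw [hKg]; ring
      _ ≤ Kg ^ 8 * (X₁ - X₁).card :=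
          mul_le_mul (pow_le_pow_right₀ hKg1 (by norm_num)) h3 hX0.le (by positivity)
  have hwg : 1 + Real.log Kg ≤ w := by rw [hlKg, hw']; linarith
  have hwg1 : 1 ≤ 1 + Real.log Kg := by rw [hlKg]; linarith
  have hgrn : Cp * (1 + Real.log Kg) ^ 2 ≤ n₁ := by
    refine le_trans ?_ hn₁lr
    have h1 : Cp ≤ w := by rw [hw']; linarith
    have h2 : (1 + Real.log Kg) ^ 2 ≤ w ^ 2 := pow_le_pow_left₀ (by linarith) hwg 2
    calc Cp * (1 + Real.log Kg) ^ 2 ≤ w * w ^ 2 := mul_le_mul h1 h2 (by positivity) (by linarith)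
      _ = w ^ 3 := by ring
      _ ≤ w ^ 9 := pow_le_pow_right₀ hw1 (by norm_num)
      _ = 1 * w ^ 9 := (one_mul _).symm
      _ ≤ _ := mul_le_mul_of_nonneg_right hCn (by positivity)
  have h0AA : (0 : Γ) ∈ A' - A' := Finset.mem_sub.2 ⟨0, h0A', 0, h0A', sub_zero 0⟩
  obtain ⟨D, V, ψ, hV1, hV2, hV3, hV4, hV5, hV6⟩ := hst Γ A' K₁ n₁ E h0A' hK₁1 hn₁1 hd1
    (hgrow Γ (A' - A') n₁ h0AA hgrn hd2) (by rw [← hw]; exact hn₁lr) (by rw [← hw]; exact hn₁ur) (by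
      refine hE.trans ?_
      rw [← hw]
      exact mul_le_mul_of_nonneg_left (pow_le_pow_left₀ (by linarith) hwg 2) (by linarith))
  rw [← hX₁] at hV5 hV6
  obtain ⟨P, hP⟩ : ∃ P : Finset Γ, P = (8 • X₁ - 8 • X₁).filter (fun x => x ∈ ψ '' lat V) := ⟨_, rfl⟩
  have hPe : (P : Set Γ) = ψ '' lat V := by
    ext x
    rw [Finset.mem_coe, hP, Finset.mem_filter]
    constructor
    · exact fun h => h.2
    · rintro ⟨z, hz, rfl⟩
      exact ⟨hV6 z hz, z, hz, rfl⟩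
  have hXP : X ⊆ P := by
    intro x hx
    obtain ⟨z, hz, he⟩ := hV5 x (hXX₁ hx)
    have : x ∈ (P : Set Γ) := by rw [hPe]; exact ⟨z, hz, he.symm⟩
    exact Finset.mem_coe.1 this
  have hPX : P ⊆ 16 • X - 16 • X := by
    rw [hP]
    exact (Finset.filter_subset _ _).trans (hmulsub 8 8)
  have hcXP : (X.card : ℝ) ≤ P.card := by exact_mod_cast Finset.card_le_card hXP
  have hBP : ((B + P).card : ℝ) ≤ K ^ 100 * P.card := by
    have h1 : ((B + P).card : ℝ) ≤ (B + (16 • X - 16 • X)).card := by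
      exact_mod_cast Finset.card_le_card (Finset.add_subset_add_left hPX)
    have h2 := Finset.ruzsa_triangle_inequality_add_add_add B X (16 • X - 16 • X)
    have h3 : ((B + (16 • X - 16 • X)).card : ℝ) * X.card ≤
        (B + X).card * (X + (16 • X - 16 • X)).card := by exact_mod_cast h2
    have e : X + (16 • X - 16 • X) = 17 • X - 16 • X := by
      rw [show (17 : ℕ) = 1 + 16 by norm_num, add_smul 1 16 X, one_smul, add_sub_assoc]
    rw [e] at h3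
    have h4 := plun hXne hdoub 17 16
    have h5 : ((B + (16 • X - 16 • X)).card : ℝ) * X.card ≤ (K ^ 100 * X.card) * X.card := by
      calc _ ≤ _ := h3
        _ ≤ (K * X.card) * ((K ^ 3) ^ (17 + 16) * X.card) :=
          mul_le_mul hBA h4 (by positivity) (by positivity)
        _ = _ := by ring
    have h6 := le_of_mul_le_mul_right h5 hX0
    calc _ ≤ _ := h1
      _ ≤ _ := h6
      _ ≤ _ := mul_le_mul_of_nonneg_left hcXP (by positivity)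
  have hPB : (P.card : ℝ) ≤ K ^ 100 * B.card := by
    have h1 : (P.card : ℝ) ≤ ((16 • X - 16 • X : Finset Γ).card : ℝ) := by
      exact_mod_cast Finset.card_le_card hPX
    have h2 := plun hXne hdoub 16 16
    calc (P.card : ℝ) ≤ _ := h1
      _ ≤ (K ^ 3) ^ (16 + 16) * X.card := h2
      _ ≤ (K ^ 3) ^ (16 + 16) * (K * B.card) := mul_le_mul_of_nonneg_left hAB (by positivity)
      _ = K ^ 97 * B.card := by ring
      _ ≤ _ := mul_le_mul_of_nonneg_right (pow_le_pow_right₀ hK (by norm_num)) hB0.le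
  have hfin := hconv Γ D V ψ (K ^ 100) B P (one_le_pow₀ hK)
    ⟨hV1, hV2, hV3, ⟨0, hV4 0 (fun i => by simp)⟩⟩ hV4 hB hPe hBP hPB
  have h4 := concl_pow hK (m := 100) (by norm_num) hfin
  exact_mod_cast h4

end Pool.Agent.H98.Fold
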