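import Mathlib

/-!
# Polylogarithmic sumsets: the numerical statement
-/

set_option autoImplicit false

namespace Pool.Agent.H98.Fold

/-- **The parameters.**

Proof. Let `w = 1 + log K`, `u = ⌈w⌉₊`, so `1 ≤ w ≤ u ≤ 2 w`, `log K ≤ u - 1`, `log (2 K) ≤ u`. Let `c ≥ 1` be a natural number,
chosen below. Put `R = c u^4`, `k = 4 u`, `L = 16 C₀ u^4`, `j = 2 (R + 1)`, `k₀ = t = 48 R`, `m₀ = k₀^3`, `r₀ = 1/(6 (3 k₀ t + 1))`,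
`q₀ = 12 R (3 k₀ t + 1)`, `s₀ = r₀/m₀`, `q₁ = 24 R (3 k₀ t + 1) m₀`, `δ = s₀/4`, `I = k₀^12 n`, `ℓ = Nat.clog 2 k₀` (so
`k₀ ≤ 2^ℓ`), `p₀ = 11 u + 7 R ℓ`.
* `3 K^5 ≤ 3 e^(5(u-1)) < 256^u = 4^k` as `e^5 < 256`.
* `C₀ k² log(2K)² ≤ C₀ 16 u² u²`.
* `3^(R+1) ≤ 4^(R+1) = 2^j`.
* `r₀ q₀ = 2 R`, `(s₀/2) q₁ = 2 R`, `2 δ = s₀/2`, `(3 k₀ t + 1) r₀ = 1/6`.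
* `q₀ ≤ 12 R 4 k₀² = k₀³`, so `K^6 q₀^R ≤ e^(6 u) k₀^(3 R) < (k₀ + 1)^(48 R)` (as `u ≤ R`, `49^45 > e^6`).
* `q₁ ≤ 24 R 4 k₀² k₀³ = 2 k₀^6 ≤ k₀^7 ≤ 2^(7 ℓ)`, `K^7 ≤ e^(7 (u-1)) ≤ 2^(11 u)`, so `K^7 q₁^R ≤ 2^(11 u + 7 R ℓ) < 2^(p₀+1)`.
* `p₀ + k₀ + 1 ≤ k₀^3 = m₀` (crude, `ℓ ≤ k₀`), so `(p₀ + k₀ + 1) s₀ ≤ r₀ ≤ 1/18`, and `k₀² r₀ ≤ 1/18`.
* `p₀ (p₀ + k₀ + 1) ≤ ((60 + 7 ℓ) R)² = (60 + 7 ℓ)² c² u^8`, and `ℓ ≤ 1 + log₂ (48 c u^4)`, so `(60 + 7 ℓ)² ≤ C₁ c u` with an absolute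
constant `C₁` (the square of a logarithm is `O` of the fourth root: `Real.log_le_rpow_div` or `log x ≤ 8 x^(1/8)`).
So with `C = 512 C₁ c³`: `p₀ (p₀+k₀+1) ≤ C₁ c³ u^9 ≤ C w^9 ≤ n`; also `p₀ + 1 ≤ p₀ (p₀ + k₀ + 1)`.
* `(4 (I+1) n)^E < (1+δ)^I`: `δ ≥ 1/(96 k₀^5)`, `log(1+δ) ≥ δ/2`, so `I log(1+δ) ≥ k₀^7 n/192`, whereas `E ≤ C_E u² ≤ k₀` (if `c ≥ C_E`) and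
`log (4 (I+1) n) ≤ log (8 k₀^12 n²) ≤ 3 + 12 k₀ + 2 n ≤ 17 k₀ n`.
* The main condition: `4 n (1 + j I) ≤ 32 48^12 c^13 u^52 n²` (`j ≤ 4 c u^4`), `n ≤ 8 C w^9 ≤ 8 C u^9`, `C = 512 C₁ c³`: so
`log (4 n (1 + j I)) ≤ a + 19 log c + 70 log u` with an absolute `a`, and with `log u ≤ u`, `log K ≤ u` it is enough that
`22 + 128 C₀ + 8 C_E (a + 70 + 19 log c) ≤ c`. Such a natural number `c ≥ C_E` exists (compare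
`Pool/Agent/H98/Big/Num.lean`, `exists_param`; `log c = o(c)`). -/
def Y9 : Prop :=
  ∀ C₀ CE : ℝ, 0 < C₀ → 1 ≤ CE → ∃ C : ℝ, 1 ≤ C ∧ ∀ (K : ℝ) (n E : ℕ), 1 ≤ K →
    C * (1 + Real.log K) ^ 9 ≤ n → (n : ℝ) ≤ 8 * C * (1 + Real.log K) ^ 9 →
    (E : ℝ) ≤ CE * (1 + Real.log K) ^ 2 →
    ∃ (L δ r₀ s₀ : ℝ) (k j I R q₀ q₁ k₀ t p₀ : ℕ), 1 ≤ k ∧ 3 * K ^ 5 < 4 ^ k ∧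
      C₀ * k ^ 2 * Real.log (2 * K) ^ 2 ≤ L ∧ 0 < δ ∧
      ((4 * ((I + 1) * n) : ℕ) : ℝ) ^ E < (1 + δ) ^ I ∧ (3 : ℝ) ^ (R + 1) ≤ 2 ^ j ∧
      8 * (Real.log 2 + E * Real.log (4 * (n * (1 + j * I))) + 2 * Real.log K + L) < R + 1 ∧
      1 ≤ q₀ ∧ 1 ≤ q₁ ∧ 2 * R ≤ r₀ * q₀ ∧ 2 * R ≤ (s₀ / 2) * q₁ ∧ 2 * δ ≤ s₀ / 2 ∧ 0 < s₀ ∧
      s₀ ≤ r₀ ∧ (3 * k₀ * t + 1) * r₀ ≤ 1 / 6 ∧ K ^ 6 * (q₀ : ℝ) ^ R < ((t : ℝ) + 1) ^ k₀ ∧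
      K ^ 7 * (q₁ : ℝ) ^ R < 2 ^ (p₀ + 1) ∧ p₀ * (p₀ + k₀ + 1) ≤ n ∧ p₀ + 1 ≤ n ∧
      ((p₀ : ℝ) + k₀ + 1) * s₀ + k₀ * (k₀ * r₀) ≤ 1 / 6

end Pool.Agent.H98.Fold
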