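import Pool.Agent.H98.Fold.Core
import Pool.Agent.H98.Fold.Stmt9

/-!
# Polylogarithmic sumsets: arbitrary groups, and the conclusion
-/

set_option autoImplicit false

namespace Pool.Agent.H98.Fold

open Finset H112 Pool.Agent.H98.Gap Pool.Agent.H98.Big Pool.Agent.Y806.DF Pool.Agent.R92.Star
open scoped Pointwise

universe u

/-- the conclusion about `n A` -/
def Struct {Γ : Type u} [AddCommGroup Γ] [DecidableEq Γ] (n : ℕ) (A : Finset Γ) : Prop :=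
  ∃ (D : ℕ) (V : Set (Fin D → ℝ)) (ψ : (Fin D → ℤ) →+ Γ), Convex ℝ V ∧ IsCompact V ∧
      (∀ x ∈ V, -x ∈ V) ∧ (∀ x : Fin D → ℝ, (∀ i, |x i| ≤ 1) → x ∈ V) ∧
      (∀ x ∈ n • A, ∃ z : Fin D → ℤ, (fun i => (z i : ℝ)) ∈ V ∧ x = ψ z) ∧
      ∀ z : Fin D → ℤ, (fun i => (z i : ℝ)) ∈ V → ψ z ∈ 8 • (n • A) - 8 • (n • A)

theorem image_nsmul' {G G' : Type u} [AddCommGroup G] [AddCommGroup G'] [DecidableEq G]
    [DecidableEq G'] (f : G →+ G') (X : Finset G) (j : ℕ) :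
    (j • X).image f = j • (X.image f) := by
  induction j with
  | zero => rw [zero_smul, zero_smul, Finset.image_zero, map_zero]; rfl
  | succ j ih => rw [succ_nsmul, succ_nsmul, Finset.image_add, ih]

theorem image_sub' {G G' : Type u} [AddCommGroup G] [AddCommGroup G'] [DecidableEq G]
    [DecidableEq G'] (f : G →+ G') (X Y : Finset G) :
    (X - Y).image f = X.image f - Y.image f :=
  Finset.image_image₂_distrib (fun a b => map_sub f a b)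

/-- structure theorem with the parameters of `Y9`, in any abelian group -/
theorem fold_gen {C₀ C CE : ℝ} (hcs : CSC.{u} C₀) (hy2 : Y2.{u}) (hy3 : Y3.{u}) (hy4 : Y4.{u})
    (hy5 : Y5.{u}) (hy6 : Y6.{u}) (hy8 : Y8.{u})
    (hnum : ∀ (K : ℝ) (n E : ℕ), 1 ≤ K →
    C * (1 + Real.log K) ^ 9 ≤ n → (n : ℝ) ≤ 8 * C * (1 + Real.log K) ^ 9 →
    (E : ℝ) ≤ CE * (1 + Real.log K) ^ 2 →
    ∃ (L δ r₀ s₀ : ℝ) (k j I R q₀ q₁ k₀ t p₀ : ℕ), 1 ≤ k ∧ 3 * K ^ 5 < 4 ^ k ∧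
      C₀ * k ^ 2 * Real.log (2 * K) ^ 2 ≤ L ∧ 0 < δ ∧
      ((4 * ((I + 1) * n) : ℕ) : ℝ) ^ E < (1 + δ) ^ I ∧ (3 : ℝ) ^ (R + 1) ≤ 2 ^ j ∧
      8 * (Real.log 2 + E * Real.log (4 * (n * (1 + j * I))) + 2 * Real.log K + L) < R + 1 ∧
      1 ≤ q₀ ∧ 1 ≤ q₁ ∧ 2 * R ≤ r₀ * q₀ ∧ 2 * R ≤ (s₀ / 2) * q₁ ∧ 2 * δ ≤ s₀ / 2 ∧ 0 < s₀ ∧
      s₀ ≤ r₀ ∧ (3 * k₀ * t + 1) * r₀ ≤ 1 / 6 ∧ K ^ 6 * (q₀ : ℝ) ^ R < ((t : ℝ) + 1) ^ k₀ ∧
      K ^ 7 * (q₁ : ℝ) ^ R < 2 ^ (p₀ + 1) ∧ p₀ * (p₀ + k₀ + 1) ≤ n ∧ p₀ + 1 ≤ n ∧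
      ((p₀ : ℝ) + k₀ + 1) * s₀ + k₀ * (k₀ * r₀) ≤ 1 / 6)
    {Γ : Type u} [AddCommGroup Γ] [DecidableEq Γ] {A : Finset Γ} (h0 : (0 : Γ) ∈ A) {K : ℝ}
    {n E : ℕ} (hK : 1 ≤ K) (hn1 : 1 ≤ n)
    (hdoub : ((n • A + n • A).card : ℝ) ≤ K * (n • A).card)
    (hgrow : ∀ m : ℕ, 1 ≤ m → (m • (A - A)).card ≤ (4 * m) ^ E * (n • (A - A)).card)
    (hnl : C * (1 + Real.log K) ^ 9 ≤ n) (hnu : (n : ℝ) ≤ 8 * C * (1 + Real.log K) ^ 9)
    (hE : (E : ℝ) ≤ CE * (1 + Real.log K) ^ 2) : Struct n A := by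
  classical
  obtain ⟨L, δ, r₀, s₀, k, j, I, R, q₀, q₁, k₀, t, p₀, a1, a2, a3, a4, a5, a6, a7, a8, a9, a10, a11,
    a12, a13, a14, a15, a16, a17, a18, a19, a20⟩ := hnum K n E hK hnl hnu hE
  obtain ⟨G, hG⟩ : ∃ G : AddSubgroup Γ, G = AddSubgroup.closure (A : Set Γ) := ⟨_, rfl⟩
  obtain ⟨A', hA'⟩ := exists_model A G (fun a ha => by
    rw [hG]; exact AddSubgroup.subset_closure ha)
  have hinj : Function.Injective G.subtype := G.subtype_injective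
  have : AddGroup.FG G := by
    rw [AddGroup.fg_iff_addSubgroup_fg]
    exact ⟨A, hG.symm⟩
  have himg : ∀ j : ℕ, (j • A').image G.subtype = j • A := by
    intro j
    rw [image_nsmul', hA']
  have himg2 : ∀ j : ℕ, (j • (A' - A')).image G.subtype = j • (A - A) := by
    intro j
    rw [image_nsmul', image_sub', hA']
  have hcard : ∀ j : ℕ, (j • A').card = (j • A).card := by
    intro j
    rw [← himg, Finset.card_image_of_injective _ hinj]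
  have hcard2 : ∀ j : ℕ, (j • (A' - A')).card = (j • (A - A)).card := by
    intro j
    rw [← himg2, Finset.card_image_of_injective _ hinj]
  have hcardd : (n • A' + n • A').card = (n • A + n • A).card := by
    rw [← himg, ← Finset.image_add, Finset.card_image_of_injective _ hinj]
  have h0' : (0 : G) ∈ A' := by
    rw [← hA'] at h0
    obtain ⟨a, ha, ha0⟩ := Finset.mem_image.1 h0
    have : a = 0 := hinj (by rw [ha0, map_zero])
    rwa [this] at ha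
  obtain ⟨D, V, ψ, hV1, hV2, hV3, hV4, hV5, hV6⟩ := fold_core hcs hy2 hy3 hy4 hy5 hy6 hy8 h0' hK
    (by rw [hcardd, hcard]; exact hdoub) hn1 a1 a2 a3
    (fun m hm => by rw [hcard2, hcard2]; exact hgrow m hm) a4 a5 a6 a7 a8 a9 a10 a11 a12 a13 a14 a15
    a16 a17 a18 a19 a20
  refine ⟨D, V, G.subtype.comp ψ, hV1, hV2, hV3, hV4, ?_, ?_⟩
  · intro x hx
    rw [← himg] at hx
    obtain ⟨y, hy, rfl⟩ := Finset.mem_image.1 hx
    obtain ⟨z, hz, he⟩ := hV5 y hy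
    exact ⟨z, hz, by rw [he]; rfl⟩
  · intro z hz
    have h1 := hV6 z hz
    have h2 : G.subtype (ψ z) ∈ (8 • (n • A') - 8 • (n • A')).image G.subtype :=
      Finset.mem_image_of_mem _ h1
    rw [image_sub', image_nsmul', himg] at h2
    exact h2

/-- growth -/
theorem growth_bound : ∃ Cp : ℝ, 1 ≤ Cp ∧ ∀ (K : ℝ), 1 ≤ K → ∃ E : ℕ,
    (E : ℝ) ≤ Cp * (1 + Real.log K) ^ 2 ∧ ∀ (Γ : Type u) [AddCommGroup Γ] [DecidableEq Γ]
    (A : Finset Γ) (n : ℕ), (0 : Γ) ∈ A → Cp * (1 + Real.log K) ^ 2 ≤ n →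
    ((n • A + n • A).card : ℝ) ≤ K ^ 8 * (n • A).card →
    ∀ m : ℕ, 1 ≤ m → (m • A).card ≤ (4 * m) ^ E * (n • A).card := by
  obtain ⟨Cp, hCp, hpar⟩ := params 1 one_pos
  refine ⟨Cp, hCp, ?_⟩
  intro K hK
  obtain ⟨n₁, s₀, E, I, k, D, hn₁1, hn₁C, hs₀n₁, hs₀, hE, hI, hRI, hk, -, -, -, -, hlC⟩ := hpar K hK
  have hw1 : 1 ≤ 1 + Real.log K := by
    have := Real.log_nonneg hK
    linarith
  have e2 : (1 + Real.log K) ^ ((1 : ℝ) + 1) = (1 + Real.log K) ^ 2 := by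
    rw [← Real.rpow_natCast]; norm_num
  have e3 : (1 + Real.log K) ^ ((2 : ℝ) + 1) = (1 + Real.log K) ^ 3 := by
    rw [← Real.rpow_natCast]; norm_num
  rw [e2] at hn₁C
  rw [e3] at hlC
  refine ⟨E, ?_, ?_⟩
  · -- `E ≤ k` and `E ≤ I`
    have hEk : E ≤ k := by
      by_contra hcon
      push Not at hcon
      have h1 : 1 ≤ 2 * ((k + 1) * (I * n₁)) := by
        have : 1 ≤ (k + 1) * (I * n₁) := Nat.mul_pos (Nat.succ_pos _) (Nat.mul_pos hI hn₁1)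
        omega
      have h2 : 4 ^ k < 4 * (4 * (2 * ((k + 1) * (I * n₁)))) ^ E := by
        calc 4 ^ k < 4 ^ (k + 1) := Nat.pow_lt_pow_right (by norm_num) (Nat.lt_succ_self k)
          _ ≤ 4 ^ E := Nat.pow_le_pow_right (by norm_num) hcon
          _ ≤ (4 * (2 * ((k + 1) * (I * n₁)))) ^ E := Nat.pow_le_pow_left (by omega) E
          _ ≤ _ := Nat.le_mul_of_pos_left _ (by norm_num)
      omega
    have hEI : E ≤ I := by
      by_contra hcon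
      push Not at hcon
      have h1 : (1 : ℝ) ≤ ((I * n₁ : ℕ) : ℝ) := by exact_mod_cast Nat.mul_pos hI hn₁1
      have h2 : ((13 : ℝ) / 12) ^ (I - 1) ≤ ((4 * (I * n₁) : ℕ) : ℝ) ^ E := by
        calc ((13 : ℝ) / 12) ^ (I - 1) ≤ (13 / 12) ^ E :=
              pow_le_pow_right₀ (by norm_num) (by omega)
          _ ≤ _ := pow_le_pow_left₀ (by norm_num) (by push_cast at h1 ⊢; linarith) E
      linarith
    have h1 : (E : ℝ) * E ≤ Cp * (1 + Real.log K) ^ 3 := by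
      have h2 : E * E ≤ (k + 1) * I := Nat.mul_le_mul (by omega) hEI
      have h3 : (0 : ℝ) < n₁ := by exact_mod_cast hn₁1
      have h4 : ((E * E : ℕ) : ℝ) * n₁ ≤ (Cp * (1 + Real.log K) ^ 3) * n₁ := by
        refine le_trans ?_ hlC
        have h5 : E * E * n₁ ≤ 4 * (2 * ((k + 1) * (I * n₁))) + 8 := by
          calc E * E * n₁ ≤ (k + 1) * I * n₁ := Nat.mul_le_mul_right _ h2
            _ = (k + 1) * (I * n₁) := by ring
            _ ≤ _ := by omega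
        exact_mod_cast h5
      have h6 := le_of_mul_le_mul_right h4 h3
      push_cast at h6
      exact h6
    have h2 : (E : ℝ) ^ 2 ≤ (Cp * (1 + Real.log K) ^ 2) ^ 2 := by
      calc (E : ℝ) ^ 2 = E * E := by ring
        _ ≤ Cp * (1 + Real.log K) ^ 3 := h1
        _ ≤ (Cp * Cp) * (1 + Real.log K) ^ 4 := by
            refine mul_le_mul ?_ (pow_le_pow_right₀ hw1 (by norm_num)) (by positivity) (by positivity)
            nlinarith
        _ = _ := by ring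
    exact (sq_le_sq₀ (by positivity) (by positivity)).1 h2
  · intro Γ _ _ A n h0 hn hdoub m hm
    have hnn : n₁ ≤ n := by
      have : (n₁ : ℝ) ≤ n := hn₁C.trans hn
      exact_mod_cast this
    obtain ⟨E', d, hE', hd, hgr⟩ := grow_main h0 hdoub (by omega) hs₀
    refine (hgr m hm).trans (Nat.mul_le_mul_right _ ?_)
    exact Nat.pow_le_pow_right (by omega) (hE'.trans (hE d hd))

end Pool.Agent.H98.Fold
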