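import Pool.Agent.H98.Fold.Stmt
import Pool.Agent.H98.Big.Main
import Pool.Agent.H98.Gap.Final

/-!
# Polylogarithmic sumsets: preparations
-/

set_option autoImplicit false

namespace Pool.Agent.H98.Fold

open Finset H112 Pool.Agent.H98.Gap Pool.Agent.H98.Big
open scoped Pointwise

universe u

section
variable {M : Type u} [AddCommGroup M]

/-- a subfamily of a dissociated family is dissociated -/
theorem sub_dis {E : Set M} {s s' : ℕ} (h : s' ≤ s) {Λ : Fin s → M}
    (hΛ : ∀ ε : Fin s → ℤ, (∀ i, |ε i| ≤ 1) → ε ≠ 0 → (∑ i, ε i • Λ i) ∉ E) :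
    ∀ ε : Fin s' → ℤ, (∀ i, |ε i| ≤ 1) → ε ≠ 0 → (∑ i, ε i • Λ (Fin.castLE h i)) ∉ E := by
  classical
  intro ε hε hne
  obtain ⟨ε', hε'⟩ : ∃ ε' : Fin s → ℤ, ε' = fun i : Fin s => if hi : (i : ℕ) < s' then ε ⟨i, hi⟩ else 0 :=
    ⟨_, rfl⟩
  have hcast : ∀ i : Fin s', ε' (Fin.castLE h i) = ε i := by
    intro i
    rw [hε']
    simp
  have hsum : ∑ i, ε' i • Λ i = ∑ i, ε i • Λ (Fin.castLE h i) := by
    symm
    refine Finset.sum_of_injOn (Fin.castLE h) ?_ ?_ ?_ ?_
    · intro i _ j _ hij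
      exact Fin.castLE_injective h hij
    · intro i _
      exact Finset.mem_coe.2 (Finset.mem_univ _)
    · intro i _ hi
      have : ¬ (i : ℕ) < s' := by
        intro hlt
        apply hi
        exact ⟨⟨i, hlt⟩, Finset.mem_coe.2 (Finset.mem_univ _), Fin.ext rfl⟩
      rw [hε']
      simp [this]
    · intro i _
      rw [hcast]
  rw [← hsum]
  refine hΛ ε' ?_ ?_
  · intro i
    rw [hε']
    dsimp only
    split_ifs
    · exact hε _
    · simp
  · intro h0
    apply hne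
    funext i
    rw [← hcast i, h0]
    rfl

end

section
variable {G : Type u} [AddCommGroup G] [DecidableEq G]

/-- a Folner scale -/
theorem folner {A₀ : Finset G} {n E I : ℕ} {δ : ℝ} (hδ : 0 < δ) (hn : 1 ≤ n)
    (hne : A₀.Nonempty)
    (hgrow : ∀ m : ℕ, 1 ≤ m → (m • A₀).card ≤ (4 * m) ^ E * (n • A₀).card)
    (hI : ((4 * ((I + 1) * n) : ℕ) : ℝ) ^ E < (1 + δ) ^ I) :
    ∃ i : ℕ, 1 ≤ i ∧ i ≤ I ∧
      ((((i + 1) * n) • A₀).card : ℝ) ≤ (1 + δ) * ((i * n) • A₀).card := by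
  by_contra hcon
  push Not at hcon
  have hstep : ∀ i : ℕ, i ≤ I → (1 + δ) ^ i * ((n • A₀).card : ℝ) ≤ (((i + 1) * n) • A₀).card := by
    intro i
    induction i with
    | zero => intro _; simp
    | succ i ih =>
      intro hi
      have h1 := ih (by omega)
      have h2 := hcon (i + 1) (by omega) hi
      calc (1 + δ) ^ (i + 1) * ((n • A₀).card : ℝ) = (1 + δ) * ((1 + δ) ^ i * (n • A₀).card) := by
            ring
        _ ≤ (1 + δ) * (((i + 1) * n) • A₀).card := mul_le_mul_of_nonneg_left h1 (by positivity)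
        _ ≤ _ := h2.le
  have h1 := hstep I le_rfl
  have h2 := hgrow ((I + 1) * n) (Nat.mul_pos (Nat.succ_pos _) hn)
  have h3 : ((((I + 1) * n) • A₀).card : ℝ) ≤
      ((4 * ((I + 1) * n) : ℕ) : ℝ) ^ E * (n • A₀).card := by exact_mod_cast h2
  have h4 : (0 : ℝ) < (n • A₀).card := by exact_mod_cast (hne.nsmul (n := n)).card_pos
  have h5 := mul_lt_mul_of_pos_right hI h4
  linarith

omit [DecidableEq G] in
theorem fs_neg (T : Finset G) (γ : G →+ UnitAddCircle) : ‖fs T (-γ)‖ = ‖fs T γ‖ := by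
  have h : fs T (-γ) = starRingEnd ℂ (fs T γ) := by
    unfold fs
    rw [map_sum]
    refine Finset.sum_congr rfl fun t _ => ?_
    rw [AddMonoidHom.neg_apply]
    unfold ee
    rw [AddCircle.toCircle_neg, Circle.coe_inv_eq_conj]
  rw [h]
  exact Complex.norm_conj _

omit [DecidableEq G] in
theorem big_neg {T : Finset G} {γ : G →+ UnitAddCircle} (h : γ ∈ big T) : -γ ∈ big T := by
  show (T.card : ℝ) / 2 ≤ ‖fs T (-γ)‖
  rw [fs_neg]; exact h

omit [DecidableEq G] in
theorem bohr_neg {S : Set (G →+ UnitAddCircle)} {r : ℝ} {x : G} (h : x ∈ bohr S r) :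
    -x ∈ bohr S r := by
  intro γ hγ
  rw [map_neg, norm_neg]
  exact h γ hγ

omit [DecidableEq G] in
theorem bohr_sub {S : Set (G →+ UnitAddCircle)} {r r' : ℝ} {x y : G} (hx : x ∈ bohr S r)
    (hy : y ∈ bohr S r') : x - y ∈ bohr S (r + r') := by
  intro γ hγ
  rw [map_sub]
  exact (norm_sub_le _ _).trans (add_le_add (hx γ hγ) (hy γ hγ))

/-- the bound for dissociated families in the large spectrum -/
theorem chang_bound (h3 : Y3.{u}) {T Z : Finset G} {j R : ℕ} (hT : T.Nonempty) (hZ : Z.Nonempty)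
    (hj : (3 : ℝ) ^ (R + 1) ≤ 2 ^ j)
    (hR : 8 * Real.log (2 * (T - j • Z).card / T.card) < R + 1) :
    ∀ (s : ℕ) (Λ : Fin s → (G →+ UnitAddCircle)), (∀ i, Λ i ∈ big T) →
      (∀ ε : Fin s → ℤ, (∀ i, |ε i| ≤ 1) → ε ≠ 0 → (∑ i, ε i • Λ i) ∉ big Z) → s ≤ R := by
  intro s Λ hΛ hd
  by_contra hcon
  push Not at hcon
  have h1 := sub_dis (E := big Z) (show R + 1 ≤ s from hcon) hd
  have h2 := h3 G T (T - j • Z) Z j (R + 1) (fun i => Λ (Fin.castLE hcon i)) hT hZ
    (Finset.Subset.refl _) hj (fun i => hΛ _) h1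
  push_cast at h2
  linarith

/-- the bound for dissociated families in `A` -/
theorem elem_bound {A : Finset G} (h0 : (0 : G) ∈ A) {S : Set (G →+ UnitAddCircle)} {s₀ : ℝ}
    {n p₀ : ℕ} (hfin : (bohr S (s₀ / 2)).Finite) (hpn : p₀ + 1 ≤ n)
    (hcard : (((n • A : Finset G) : Set G) + bohr S (s₀ / 2)).ncard <
      2 ^ (p₀ + 1) * (bohr S (s₀ / 2)).ncard) :
    ∀ (s : ℕ) (Λ : Fin s → G), (∀ i, Λ i ∈ (A : Set G)) →
      (∀ ε : Fin s → ℤ, (∀ i, |ε i| ≤ 1) → ε ≠ 0 → (∑ i, ε i • Λ i) ∉ bohr S s₀) → s ≤ p₀ := by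
  classical
  intro s Λ hΛ hd
  by_contra hcon
  push Not at hcon
  have h1 := sub_dis (E := bohr S s₀) (show p₀ + 1 ≤ s from hcon) hd
  have hsep : Sep A (bohr S (s₀ / 2)) (p₀ + 1) (fun i => Λ (Fin.castLE hcon i)) := by
    refine ⟨fun i => Finset.mem_coe.1 (hΛ _), ?_⟩
    intro f g hfg p hp q hq heq
    refine h1 (fun i => (if f i then 1 else 0) - (if g i then 1 else 0)) ?_ ?_ ?_
    · intro i
      split_ifs <;> simp
    · intro h
      apply hfg
      funext i
      have h2 := congrFun h i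
      cases hf : f i <;> cases hg : g i <;> simp [hf, hg] at h2 ⊢
    · have e : ∑ i, ((if f i then (1 : ℤ) else 0) - (if g i then 1 else 0)) • Λ (Fin.castLE hcon i) =
          q - p := by
        have e1 : ∀ i, ((if f i then (1 : ℤ) else 0) - (if g i then 1 else 0)) •
            Λ (Fin.castLE hcon i) = (if f i then Λ (Fin.castLE hcon i) else 0) -
              (if g i then Λ (Fin.castLE hcon i) else 0) := by
          intro i
          rw [sub_smul]
          split_ifs <;> simp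
        rw [Finset.sum_congr rfl fun i _ => e1 i, Finset.sum_sub_distrib]
        rw [sub_eq_sub_iff_add_eq_add]
        rw [heq]
        abel
      rw [e]
      have := bohr_sub hq hp
      rwa [add_halves] at this
  have h2 := sep_card h0 hfin hpn hsep
  omega

end

end Pool.Agent.H98.Fold
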