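import Pool.Agent.H98.Fold.Stmt

/-!
# The convex progression
-/

set_option autoImplicit false
set_option linter.unusedSectionVars false
set_option linter.unusedDecidableInType false

namespace Pool.Agent.H98.Fold

open Finset H112
open scoped Pointwise

universe u

namespace Q8L

section comb

variable {G : Type u} [AddCommGroup G] [DecidableEq G]

lemma sum_memB {ι : Type*} (s : Finset ι) {B : Finset G} (m : ι → ℕ) (g : ι → G)
    (hg : ∀ i ∈ s, g i ∈ B) : ∑ i ∈ s, m i • g i ∈ (∑ i ∈ s, m i) • B := by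
  classical
  induction s using Finset.induction_on with
  | empty => simp
  | insert a s ha ih =>
    rw [Finset.sum_insert ha, Finset.sum_insert ha, add_nsmul]
    exact Finset.add_mem_add (Finset.nsmul_mem_nsmul (hg a (Finset.mem_insert_self a s)))
      (ih fun i hi => hg i (Finset.mem_insert_of_mem hi))

lemma comb_mem {A : Finset G} (h0 : (0 : G) ∈ A) {n : ℕ} {ι : Type*} [Fintype ι] (m : ι → ℕ)
    (g : ι → G) (hg : ∀ i, g i ∈ A ∨ -g i ∈ A) (hm : ∑ i, m i ≤ n) :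
    ∑ i, m i • g i ∈ n • A - n • A := by
  classical
  have h1 : ∀ i, g i ∈ A - A := by
    intro i
    rcases hg i with h | h
    · have := Finset.sub_mem_sub h h0
      rwa [sub_zero] at this
    · have := Finset.sub_mem_sub h0 h
      rwa [sub_neg_eq_add, zero_add] at this
  have h2 := sum_memB Finset.univ m g (fun i _ => h1 i)
  have h00 : (0 : G) ∈ A - A := by
    have := Finset.sub_mem_sub h0 h0
    rwa [sub_zero] at this
  have h3 : (∑ i, m i) • (A - A) ⊆ n • (A - A) := Finset.nsmul_subset_nsmul_right h00 hm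
  have h4 := h3 h2
  rwa [nsmul_sub] at h4

lemma comb_int {A : Finset G} (h0 : (0 : G) ∈ A) {n p K : ℕ} (lam : Fin p → G)
    (hlam : ∀ i, lam i ∈ A) (c : Fin p → ℤ) (hc : ∀ i, |c i| ≤ K) (hn : p * K ≤ n) :
    ∑ i, c i • lam i ∈ n • A - n • A := by
  classical
  have h1 : ∀ i, c i • lam i = (c i).natAbs • (if 0 ≤ c i then lam i else -lam i) := by
    intro i
    split_ifs with h
    · rw [← natCast_zsmul, Int.natAbs_of_nonneg h]
    · push Not at h
      rw [← natCast_zsmul, Int.ofNat_natAbs_of_nonpos h.le, smul_neg, neg_smul, neg_neg]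
  rw [Finset.sum_congr rfl fun i _ => h1 i]
  refine comb_mem h0 _ _ (fun i => ?_) ?_
  · split_ifs
    · exact Or.inl (hlam i)
    · rw [neg_neg]
      exact Or.inr (hlam i)
  · refine le_trans (Finset.sum_le_card_nsmul _ _ K fun i _ => ?_) ?_
    · have := abs_le.1 (hc i)
      omega
    · rw [Finset.card_univ, Fintype.card_fin, smul_eq_mul]
      exact hn

end comb

section conv

/-- symmetric convex combinations -/
lemma bal {E : Type*} [AddCommGroup E] [Module ℝ E] {C : Set E} (hC : Convex ℝ C)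
    (hs : ∀ x ∈ C, -x ∈ C) (h0 : (0 : E) ∈ C) {ι : Type*} [Fintype ι] (t : ι → ℝ) (s : ι → E)
    (hsC : ∀ i, s i ∈ C) (ht : ∑ i, |t i| ≤ 1) : ∑ i, t i • s i ∈ C := by
  classical
  set T : ℝ := ∑ i, |t i| with hT
  have hT0 : 0 ≤ T := Finset.sum_nonneg fun i _ => abs_nonneg _
  rcases hT0.eq_or_lt with h | h
  · have h1 : ∀ i, t i = 0 := by
      intro i
      have h2 := (Finset.sum_eq_zero_iff_of_nonneg fun i _ => abs_nonneg (t i)).1 h.symm i
        (Finset.mem_univ i)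
      exact abs_eq_zero.1 h2
    simp only [h1, zero_smul, Finset.sum_const_zero]
    exact h0
  · have h1 : ∑ i, (|t i| / T) • (if 0 ≤ t i then s i else -s i) ∈ C := by
      refine hC.sum_mem (fun i _ => div_nonneg (abs_nonneg _) hT0) ?_ (fun i _ => ?_)
      · rw [← Finset.sum_div]
        exact div_self h.ne'
      · split_ifs
        · exact hsC i
        · exact hs _ (hsC i)
    have h2 := hC.smul_mem_of_zero_mem h0 h1 (t := T) ⟨hT0, ht⟩
    have h3 : T • ∑ i, (|t i| / T) • (if 0 ≤ t i then s i else -s i) = ∑ i, t i • s i := by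
      rw [Finset.smul_sum]
      refine Finset.sum_congr rfl fun i _ => ?_
      rw [smul_smul, mul_div_cancel₀ _ h.ne']
      split_ifs with h4
      · rw [abs_of_nonneg h4]
      · push Not at h4
        rw [abs_of_neg h4, smul_neg, neg_smul, neg_neg]
    rwa [h3] at h2

lemma bal_smul {E : Type*} [AddCommGroup E] [Module ℝ E] {C : Set E} (hC : Convex ℝ C)
    (hs : ∀ x ∈ C, -x ∈ C) (h0 : (0 : E) ∈ C) {ι : Type*} [Fintype ι] (t : ι → ℝ) (s : ι → E)
    (hsC : ∀ i, s i ∈ C) {n : ℕ} (ht : ∑ i, |t i| ≤ n) : ∑ i, t i • s i ∈ (n : ℝ) • C := by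
  classical
  rcases Nat.eq_zero_or_pos n with h | h
  · subst h
    rw [Nat.cast_zero] at ht ⊢
    have h1 : ∀ i, t i = 0 := by
      intro i
      have h3 : ∑ i, |t i| = 0 := le_antisymm ht (Finset.sum_nonneg fun i _ => abs_nonneg _)
      have h2 := (Finset.sum_eq_zero_iff_of_nonneg fun i _ => abs_nonneg (t i)).1 h3 i
        (Finset.mem_univ i)
      exact abs_eq_zero.1 h2
    simp only [h1, zero_smul, Finset.sum_const_zero]
    exact ⟨0, h0, by simp⟩
  · have hn : (0 : ℝ) < n := by exact_mod_cast h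
    have h1 := bal hC hs h0 (fun i => t i / n) s hsC (by
      simp only [abs_div, abs_of_pos hn]
      rw [← Finset.sum_div, div_le_one hn]
      exact ht)
    refine ⟨_, h1, ?_⟩
    show (n : ℝ) • ∑ i, (t i / n) • s i = _
    rw [Finset.smul_sum]
    refine Finset.sum_congr rfl fun i _ => ?_
    rw [smul_smul, mul_div_cancel₀ _ hn.ne']

lemma cara {J : Type} [Fintype J] {S : Set (J → ℝ)} {y : J → ℝ} (hy : y ∈ convexHull ℝ S) :
    ∃ (ι : Type) (_ : Fintype ι) (s : ι → (J → ℝ)) (w : ι → ℝ),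
      Fintype.card ι ≤ Fintype.card J + 1 ∧ (∀ i, s i ∈ S) ∧ (∀ i, 0 ≤ w i) ∧ ∑ i, w i = 1 ∧
        ∑ i, w i • s i = y := by
  obtain ⟨ι, _, s, w, h1, h2, h3, h4, h5⟩ := eq_pos_convex_span_of_mem_convexHull hy
  refine ⟨ι, inferInstance, s, w, ?_, fun i => h1 ⟨i, rfl⟩, fun i => (h3 i).le, h4, h5⟩
  refine h2.card_le_finrank_succ.trans (Nat.add_le_add_right ?_ 1)
  refine (Submodule.finrank_le _).trans (le_of_eq ?_)
  rw [Module.finrank_pi]

/-- the seminorm of a vector with small coordinates -/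
lemma semi_le {k : ℕ} (N : Seminorm ℝ (Fin k → ℝ)) {ρ : ℝ}
    (hN : ∀ i : Fin k, N (fun l => if l = i then 1 else 0) ≤ ρ) (w : Fin k → ℝ)
    (hw : ∀ i, |w i| ≤ 1) : N w ≤ k * ρ := by
  have h1 : w = ∑ i, w i • (fun l => if l = i then (1 : ℝ) else 0) := by
    funext l
    rw [Finset.sum_apply]
    simp
  rw [h1]
  refine (Finset.le_sum_of_subadditive N (map_zero N).le (map_add_le_add N) _ _).trans ?_
  have h2 : ∀ i ∈ (Finset.univ : Finset (Fin k)),
      N (w i • (fun l => if l = i then (1 : ℝ) else 0)) ≤ ρ := by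
    intro i _
    rw [map_smul_eq_mul, Real.norm_eq_abs]
    calc |w i| * N (fun l => if l = i then 1 else 0) ≤ 1 * ρ :=
          mul_le_mul (hw i) (hN i) (apply_nonneg N _) zero_le_one
      _ = ρ := one_mul ρ
  refine (Finset.sum_le_card_nsmul _ _ _ h2).trans (le_of_eq ?_)
  rw [Finset.card_univ, Fintype.card_fin, nsmul_eq_mul]

end conv

section maps

variable {G : Type u} [AddCommGroup G]

/-- the map without the coordinates of `H` -/
noncomputable def psi1 {p k : ℕ} (lam : Fin p → G) (θ : (Fin k → ℤ) →+ G) :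
    (Fin p ⊕ Fin k → ℤ) →+ G where
  toFun q := ∑ i, q (Sum.inl i) • lam i + θ (fun j => q (Sum.inr j))
  map_zero' := by
    simp only [Pi.zero_apply, zero_smul, Finset.sum_const_zero, zero_add]
    exact map_zero θ
  map_add' q r := by
    have h : (fun j => (q + r) (Sum.inr j)) = (fun j => q (Sum.inr j)) + fun j => r (Sum.inr j) :=
      rfl
    rw [h, map_add]
    simp only [Pi.add_apply, add_smul, Finset.sum_add_distrib]
    abel

lemma psi1_apply {p k : ℕ} (lam : Fin p → G) (θ : (Fin k → ℤ) →+ G) (q : Fin p ⊕ Fin k → ℤ) :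
    psi1 lam θ q = ∑ i, q (Sum.inl i) • lam i + θ (fun j => q (Sum.inr j)) := rfl

/-- the map with the coordinates of `H` -/
noncomputable def psiH (H : AddSubgroup G) [Fintype H] {J : Type} (f : (J → ℤ) →+ G) :
    (J ⊕ H → ℤ) →+ G where
  toFun z := f (fun i => z (Sum.inl i)) + ∑ h : H, z (Sum.inr h) • (h : G)
  map_zero' := by
    simp only [Pi.zero_apply, zero_smul, Finset.sum_const_zero, add_zero]
    exact map_zero f
  map_add' q r := by
    have h : (fun i => (q + r) (Sum.inl i)) = (fun i => q (Sum.inl i)) + fun i => r (Sum.inl i) :=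
      rfl
    rw [h, map_add]
    simp only [Pi.add_apply, add_smul, Finset.sum_add_distrib]
    abel

lemma psiH_apply (H : AddSubgroup G) [Fintype H] {J : Type} (f : (J → ℤ) →+ G)
    (z : J ⊕ H → ℤ) :
    psiH H f z = f (fun i => z (Sum.inl i)) + ∑ h : H, z (Sum.inr h) • (h : G) := rfl

/-- extension by zero -/
noncomputable def ext0 (J J' : Type*) : (J → ℝ) →ₗ[ℝ] (J ⊕ J' → ℝ) where
  toFun y := Sum.elim y 0
  map_add' x y := by
    funext i
    rcases i with i | i <;> simp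
  map_smul' c x := by
    funext i
    rcases i with i | i <;> simp

/-- the box -/
def box (p k : ℕ) (J' : Type*) : Set ((Fin p ⊕ Fin k) ⊕ J' → ℝ) :=
  Set.pi Set.univ (Sum.elim (Sum.elim (fun _ => {0}) (fun _ => Set.Icc (-1) 1))
    (fun _ => Set.Icc (-1) 1))

lemma mem_box {p k : ℕ} {J' : Type*} {w : (Fin p ⊕ Fin k) ⊕ J' → ℝ} : w ∈ box p k J' ↔
    (∀ i, w (Sum.inl (Sum.inl i)) = 0) ∧ (∀ j, |w (Sum.inl (Sum.inr j))| ≤ 1) ∧
      ∀ h, |w (Sum.inr h)| ≤ 1 := by
  unfold box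
  rw [Set.mem_univ_pi]
  constructor
  · intro h
    refine ⟨fun i => ?_, fun j => ?_, fun h' => ?_⟩
    · exact h (Sum.inl (Sum.inl i))
    · exact abs_le.2 (h (Sum.inl (Sum.inr j)))
    · exact abs_le.2 (h (Sum.inr h'))
  · rintro ⟨h1, h2, h3⟩ ((i | j) | h')
    · exact h1 i
    · exact abs_le.1 (h2 j)
    · exact abs_le.1 (h3 h')

lemma box_convex (p k : ℕ) (J' : Type*) : Convex ℝ (box p k J') := by
  refine convex_pi fun i _ => ?_
  rcases i with (i | j) | h
  · exact convex_singleton 0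
  · exact convex_Icc _ _
  · exact convex_Icc _ _

lemma box_compact (p k : ℕ) (J' : Type*) : IsCompact (box p k J') := by
  refine isCompact_univ_pi fun i => ?_
  rcases i with (i | j) | h
  · exact isCompact_singleton
  · exact isCompact_Icc
  · exact isCompact_Icc

/-- passage to the index set `Fin D` -/
lemma transfer {I : Type u} [Fintype I] (V : Set (I → ℝ)) (ψ : (I → ℤ) →+ G) (B : Set G)
    (R : G → Prop) (h1 : Convex ℝ V) (h2 : IsCompact V) (h3 : ∀ x ∈ V, -x ∈ V)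
    (h4 : ∀ x : I → ℝ, (∀ i, |x i| ≤ 1) → x ∈ V)
    (h5 : ∀ x ∈ B, ∃ z : I → ℤ, (fun i => (z i : ℝ)) ∈ V ∧ x = ψ z)
    (h6 : ∀ z : I → ℤ, (fun i => (z i : ℝ)) ∈ V → R (ψ z)) :
    ∃ (D : ℕ) (V : Set (Fin D → ℝ)) (ψ : (Fin D → ℤ) →+ G), Convex ℝ V ∧ IsCompact V ∧
      (∀ x ∈ V, -x ∈ V) ∧ (∀ x : Fin D → ℝ, (∀ i, |x i| ≤ 1) → x ∈ V) ∧
      (∀ x ∈ B, ∃ z : Fin D → ℤ, (fun i => (z i : ℝ)) ∈ V ∧ x = ψ z) ∧
      ∀ z : Fin D → ℤ, (fun i => (z i : ℝ)) ∈ V → R (ψ z) := by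
  have e : I ≃ Fin (Fintype.card I) := Fintype.equivFin I
  let L : (Fin (Fintype.card I) → ℝ) →ₗ[ℝ] (I → ℝ) :=
    { toFun := fun x i => x (e i), map_add' := fun _ _ => rfl, map_smul' := fun _ _ => rfl }
  let M : (Fin (Fintype.card I) → ℤ) →+ (I → ℤ) :=
    { toFun := fun x i => x (e i), map_zero' := rfl, map_add' := fun _ _ => rfl }
  refine ⟨Fintype.card I, L ⁻¹' V, ψ.comp M, h1.linear_preimage L, ?_, ?_, ?_, ?_, ?_⟩
  · have hV : L ⁻¹' V = (fun y : I → ℝ => fun i => y (e.symm i)) '' V := by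
      ext x
      constructor
      · intro hx
        refine ⟨L x, hx, ?_⟩
        funext i
        show x (e (e.symm i)) = x i
        rw [e.apply_symm_apply]
      · rintro ⟨y, hy, rfl⟩
        show (fun i => y (e.symm (e i))) ∈ V
        simp only [e.symm_apply_apply]
        exact hy
    rw [hV]
    exact h2.image (by fun_prop)
  · intro x hx
    show L (-x) ∈ V
    rw [map_neg]
    exact h3 _ hx
  · intro x hx
    exact h4 _ fun i => hx (e i)
  · intro x hx
    obtain ⟨z, hz, rfl⟩ := h5 x hx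
    refine ⟨fun i => z (e.symm i), ?_, ?_⟩
    · show (fun i => ((z (e.symm (e i)) : ℤ) : ℝ)) ∈ V
      simp only [e.symm_apply_apply]
      exact hz
    · show ψ z = ψ (fun i => z (e.symm (e i)))
      simp only [e.symm_apply_apply]
  · intro z hz
    exact h6 _ hz

end maps

section main

variable {G : Type u} [AddCommGroup G] [DecidableEq G]

/-- the real vector of an integral vector -/
def cz {J : Type*} (q : J → ℤ) : J → ℝ := fun i => (q i : ℝ)

lemma cz_add {J : Type*} (q r : J → ℤ) : cz (q + r) = cz q + cz r := by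
  funext i
  simp [cz]

/-- the vectors of the elements of `A` -/
structure Vecs (A : Finset G) (H : AddSubgroup G) {p k : ℕ} (lam : Fin p → G)
    (θ : (Fin k → ℤ) →+ G) (N : Seminorm ℝ (Fin k → ℝ)) (ρ₂ : ℝ) {X : Type*}
    (v : X → (Fin p ⊕ Fin k → ℤ)) : Prop where
  small : ∀ j i, |v j (Sum.inl i)| ≤ 1
  norm : ∀ j, N (fun i => (v j (Sum.inr i) : ℝ)) ≤ ρ₂
  elt : ∀ j, ∃ g ∈ A, g - psi1 lam θ (v j) ∈ H
  mem : ∀ a ∈ A, ∃ j, a - psi1 lam θ (v j) ∈ H
  unit : ∀ i : Fin p, ∃ j, v j = Sum.elim (Pi.single i 1) 0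

lemma exists_vecs (A : Finset G) (H : AddSubgroup G) {p k : ℕ} (lam : Fin p → G)
    (θ : (Fin k → ℤ) →+ G) (N : Seminorm ℝ (Fin k → ℝ)) {ρ₂ : ℝ} (hρ : 0 ≤ ρ₂)
    (hlam : ∀ i, lam i ∈ A)
    (hA : ∀ a ∈ A, ∃ (ε : Fin p → ℤ) (b : Fin k → ℤ), (∀ i, |ε i| ≤ 1) ∧
      N (fun i => (b i : ℝ)) ≤ ρ₂ ∧ a - ∑ i, ε i • lam i - θ b ∈ H) :
    ∃ v : (A ⊕ Fin p) → (Fin p ⊕ Fin k → ℤ), Vecs A H lam θ N ρ₂ v := by
  choose ε b h1 h2 h3 using fun a : A => hA a.1 a.2
  have e1 : ∀ a : A, a.1 - psi1 lam θ (Sum.elim (ε a) (b a)) ∈ H := by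
    intro a
    rw [psi1_apply]
    have := h3 a
    rw [sub_sub] at this
    exact this
  have e2 : ∀ i : Fin p, lam i - psi1 lam θ (Sum.elim (Pi.single i 1) 0) ∈ H := by
    intro i
    rw [psi1_apply]
    have e3 : θ (fun j => (Sum.elim (Pi.single i 1) 0 : Fin p ⊕ Fin k → ℤ) (Sum.inr j)) = 0 :=
      map_zero θ
    have e4 : ∑ l, (Sum.elim (Pi.single i 1) 0 : Fin p ⊕ Fin k → ℤ) (Sum.inl l) • lam l =
        lam i := by
      rw [Finset.sum_eq_single i]
      · simp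
      · intro l _ hl
        rw [Sum.elim_inl, Pi.single_eq_of_ne hl, zero_smul]
      · intro h
        exact absurd (Finset.mem_univ i) h
    rw [e3, e4, add_zero, sub_self]
    exact zero_mem H
  refine ⟨Sum.elim (fun a => Sum.elim (ε a) (b a)) (fun i => Sum.elim (Pi.single i 1) 0),
    ?_, ?_, ?_, ?_, ?_⟩
  · rintro (a | i) l
    · exact h1 a l
    · show |(Pi.single i 1 : Fin p → ℤ) l| ≤ 1
      by_cases h : l = i
      · rw [h, Pi.single_eq_same]
        simp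
      · rw [Pi.single_eq_of_ne h]
        simp
  · rintro (a | i)
    · exact h2 a
    · show N (fun _ => ((0 : ℤ) : ℝ)) ≤ ρ₂
      have : (fun _ : Fin k => ((0 : ℤ) : ℝ)) = 0 := by
        funext l
        simp
      rw [this, map_zero]
      exact hρ
  · rintro (a | i)
    · exact ⟨a.1, a.2, e1 a⟩
    · exact ⟨lam i, hlam i, e2 i⟩
  · intro a ha
    exact ⟨Sum.inl ⟨a, ha⟩, e1 ⟨a, ha⟩⟩
  · intro i
    exact ⟨Sum.inr i, rfl⟩

variable {A : Finset G} {H : AddSubgroup G} {p k : ℕ} {lam : Fin p → G}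
    {θ : (Fin k → ℤ) →+ G} {N : Seminorm ℝ (Fin k → ℝ)} {ρ₂ : ℝ} {X : Type*}
    {v : X → (Fin p ⊕ Fin k → ℤ)}

/-- the symmetric set of the vectors -/
def SS (v : X → (Fin p ⊕ Fin k → ℤ)) : Set (Fin p ⊕ Fin k → ℝ) :=
  Set.range (fun j => cz (v j)) ∪ -Set.range (fun j => cz (v j))

lemma SS_neg (v : X → (Fin p ⊕ Fin k → ℤ)) : -SS v = SS v := by
  unfold SS
  rw [Set.union_neg, neg_neg, Set.union_comm]

lemma hull_neg (v : X → (Fin p ⊕ Fin k → ℤ)) : ∀ x ∈ convexHull ℝ (SS v),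
    -x ∈ convexHull ℝ (SS v) := by
  intro x hx
  rw [← SS_neg, convexHull_neg, Set.mem_neg, neg_neg]
  exact hx

lemma mem_hull (v : X → (Fin p ⊕ Fin k → ℤ)) (j : X) : cz (v j) ∈ convexHull ℝ (SS v) :=
  subset_convexHull ℝ _ (Or.inl ⟨j, rfl⟩)

lemma hull_zero (v : X → (Fin p ⊕ Fin k → ℤ)) (j : X) : 0 ∈ convexHull ℝ (SS v) := by
  have h := (convex_convexHull ℝ (SS v)) (mem_hull v j) (hull_neg v _ (mem_hull v j))
    (a := 1 / 2) (b := 1 / 2) (by norm_num) (by norm_num) (by norm_num)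
  rwa [smul_neg, add_neg_cancel] at h

lemma part_a (hv : Vecs A H lam θ N ρ₂ v) (h0 : (0 : G) ∈ A) (n : ℕ) : ∀ x ∈ n • A,
    ∃ q : Fin p ⊕ Fin k → ℤ, cz q ∈ (n : ℝ) • convexHull ℝ (SS v) ∧ x - psi1 lam θ q ∈ H := by
  obtain ⟨j0, -⟩ := hv.mem 0 h0
  induction n with
  | zero =>
    intro x hx
    rw [zero_nsmul, Finset.mem_zero] at hx
    refine ⟨0, ⟨0, hull_zero v j0, ?_⟩, ?_⟩
    · funext i
      simp [cz]
    · rw [hx, map_zero, sub_zero]
      exact zero_mem H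
  | succ n ih =>
    intro x hx
    rw [succ_nsmul, Finset.mem_add] at hx
    obtain ⟨y, hy, a, ha, rfl⟩ := hx
    obtain ⟨q, hq1, hq2⟩ := ih y hy
    obtain ⟨j, hj⟩ := hv.mem a ha
    refine ⟨q + v j, ?_, ?_⟩
    · rw [cz_add, Nat.cast_succ,
        (convex_convexHull ℝ (SS v)).add_smul (Nat.cast_nonneg n) zero_le_one, one_smul]
      exact Set.add_mem_add hq1 (mem_hull v j)
    · rw [map_add]
      have e : y + a - (psi1 lam θ q + psi1 lam θ (v j)) =
          (y - psi1 lam θ q) + (a - psi1 lam θ (v j)) := by abel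
      rw [e]
      exact add_mem hq2 hj

/-- the vectors of the symmetric set -/
lemma SS_int (hv : Vecs A H lam θ N ρ₂ v) {s : Fin p ⊕ Fin k → ℝ} (hs : s ∈ SS v) :
    ∃ q : Fin p ⊕ Fin k → ℤ, s = cz q ∧ (∀ i, |q (Sum.inl i)| ≤ 1) ∧
      N (fun i => (q (Sum.inr i) : ℝ)) ≤ ρ₂ ∧ ∃ g, (g ∈ A ∨ -g ∈ A) ∧
        g - psi1 lam θ q ∈ H := by
  rcases hs with ⟨j, rfl⟩ | ⟨j, hj⟩
  · obtain ⟨g, hg, h⟩ := hv.elt j
    exact ⟨v j, rfl, hv.small j, hv.norm j, g, Or.inl hg, h⟩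
  · obtain ⟨g, hg, h⟩ := hv.elt j
    refine ⟨-v j, ?_, fun i => ?_, ?_, -g, Or.inr (by rwa [neg_neg]), ?_⟩
    · rw [← neg_neg s, ← hj]
      funext i
      simp [cz]
    · rw [Pi.neg_apply, abs_neg]
      exact hv.small j i
    · have e : (fun i => (((-v j) (Sum.inr i) : ℤ) : ℝ)) =
          -(fun i => (v j (Sum.inr i) : ℝ)) := by
        funext i
        simp
      rw [e, map_neg_eq_map]
      exact hv.norm j
    · rw [map_neg]
      have e : -g - -(psi1 lam θ (v j)) = -(g - psi1 lam θ (v j)) := by abel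
      rw [e]
      exact neg_mem h

/-- the points of the progression -/
lemma part_b (hv : Vecs A H lam θ N ρ₂ v) (h0 : (0 : G) ∈ A) (hlam : ∀ i, lam i ∈ A) {ρ₁ : ℝ}
    (hρ₂ : 0 ≤ ρ₂) (hN : ∀ i : Fin k, N (fun l => if l = i then 1 else 0) ≤ ρ₁) {n : ℕ}
    (hn : p * (p + k + 1) ≤ n) {y : Fin p ⊕ Fin k → ℝ} (hy : y ∈ (n : ℝ) • convexHull ℝ (SS v))
    (z : Fin p ⊕ Fin k → ℤ) (hz1 : ∀ i, (z (Sum.inl i) : ℝ) = y (Sum.inl i))
    (hz2 : ∀ j, |(z (Sum.inr j) : ℝ) - y (Sum.inr j)| ≤ 1) :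
    ∃ x ∈ n • A - n • A, ∃ y ∈ n • A - n • A, ∃ b : Fin k → ℤ, ∃ h ∈ H,
      N (fun i => (b i : ℝ)) ≤ (p + k + 1) * ρ₂ + k * ρ₁ ∧ psi1 lam θ z = x + y + (θ b + h) := by
  classical
  obtain ⟨y', hy', rfl⟩ := hy
  obtain ⟨ι, _, s, w, hcard, hsS, hw0, hw1, hy⟩ := cara hy'
  rw [Fintype.card_sum, Fintype.card_fin, Fintype.card_fin] at hcard
  choose q hq1 hq2 hq3 g hg1 hg2 using fun i => SS_int hv (hsS i)
  have hn0 : (0 : ℝ) ≤ n := Nat.cast_nonneg n
  let m : ι → ℕ := fun i => ⌊(n : ℝ) * w i⌋₊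
  have hm : ∀ i, (m i : ℝ) ≤ n * w i := fun i => Nat.floor_le (mul_nonneg hn0 (hw0 i))
  have hm' : ∀ i, (n : ℝ) * w i < m i + 1 := fun i => Nat.lt_floor_add_one _
  have hmn : ∑ i, m i ≤ n := by
    have : ((∑ i, m i : ℕ) : ℝ) ≤ n := by
      push_cast
      refine (Finset.sum_le_sum fun i _ => hm i).trans (le_of_eq ?_)
      rw [← Finset.mul_sum, hw1, mul_one]
    exact_mod_cast this
  let f : ι → ℝ := fun i => n * w i - m i
  have hf0 : ∀ i, |f i| ≤ 1 := by
    intro i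
    have h1 := hm i
    have h2 := hm' i
    rw [abs_le]
    constructor
    · show (-1 : ℝ) ≤ n * w i - m i
      linarith
    · show (n : ℝ) * w i - m i ≤ 1
      linarith
  let r : Fin p ⊕ Fin k → ℤ := z - ∑ i, m i • q i
  have hyl : ∀ l, y' l = ∑ i, w i * (q i l : ℝ) := by
    intro l
    rw [← hy, Finset.sum_apply]
    refine Finset.sum_congr rfl fun i _ => ?_
    rw [Pi.smul_apply, smul_eq_mul, hq1 i]
    rfl
  have hr : ∀ l, (r l : ℝ) = ((z l : ℝ) - n * y' l) + ∑ i, f i * (q i l : ℝ) := by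
    intro l
    have e1 : (r l : ℝ) = (z l : ℝ) - ∑ i, (m i : ℝ) * (q i l : ℝ) := by
      show (((z - ∑ i, m i • q i) l : ℤ) : ℝ) = _
      rw [Pi.sub_apply, Finset.sum_apply]
      push_cast
      congr 1
      refine Finset.sum_congr rfl fun i _ => ?_
      rw [Pi.smul_apply, nsmul_eq_mul]
      push_cast
      rfl
    have e2 : ∑ i, f i * (q i l : ℝ) =
        n * ∑ i, w i * (q i l : ℝ) - ∑ i, (m i : ℝ) * (q i l : ℝ) := by
      rw [Finset.mul_sum, ← Finset.sum_sub_distrib]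
      refine Finset.sum_congr rfl fun i _ => ?_
      show ((n : ℝ) * w i - m i) * (q i l : ℝ) = _
      ring
    rw [e1, e2, hyl l]
    ring
  have hcR : (Fintype.card ι : ℝ) ≤ p + k + 1 := by exact_mod_cast hcard
  have hrl : ∀ l, |r (Sum.inl l)| ≤ ((p + k + 1 : ℕ) : ℤ) := by
    intro l
    have e1 : (r (Sum.inl l) : ℝ) = ∑ i, f i * (q i (Sum.inl l) : ℝ) := by
      rw [hr, hz1 l]
      show ((n : ℝ) • y') (Sum.inl l) - n * y' (Sum.inl l) + _ = _
      rw [Pi.smul_apply, smul_eq_mul, sub_self, zero_add]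
    have e2 : |(r (Sum.inl l) : ℝ)| ≤ Fintype.card ι := by
      rw [e1]
      refine (Finset.abs_sum_le_sum_abs _ _).trans ?_
      refine (Finset.sum_le_card_nsmul _ _ 1 fun i _ => ?_).trans (le_of_eq ?_)
      · rw [abs_mul]
        have e3 : |(q i (Sum.inl l) : ℝ)| ≤ 1 := by exact_mod_cast hq2 i l
        calc |f i| * |(q i (Sum.inl l) : ℝ)| ≤ 1 * 1 :=
              mul_le_mul (hf0 i) e3 (abs_nonneg _) zero_le_one
          _ = 1 := one_mul 1
      · rw [Finset.card_univ, nsmul_eq_mul, mul_one]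
    have e3 : ((|r (Sum.inl l)| : ℤ) : ℝ) ≤ (((p + k + 1 : ℕ) : ℤ) : ℝ) := by
      push_cast
      exact e2.trans hcR
    exact_mod_cast e3
  have hrN : N (fun j => (r (Sum.inr j) : ℝ)) ≤ (p + k + 1) * ρ₂ + k * ρ₁ := by
    have e1 : (fun j => (r (Sum.inr j) : ℝ)) =
        (fun j => (z (Sum.inr j) : ℝ) - n * y' (Sum.inr j)) +
          ∑ i, f i • (fun j => (q i (Sum.inr j) : ℝ)) := by
      funext j
      rw [hr, Pi.add_apply, Finset.sum_apply]
      rfl
    rw [e1]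
    refine (map_add_le_add N _ _).trans ?_
    rw [add_comm]
    refine add_le_add ?_ (semi_le N hN _ fun j => hz2 j)
    refine (Finset.le_sum_of_subadditive N (map_zero N).le (map_add_le_add N) _ _).trans ?_
    refine (Finset.sum_le_card_nsmul _ _ ρ₂ fun i _ => ?_).trans ?_
    · rw [map_smul_eq_mul, Real.norm_eq_abs]
      calc |f i| * N (fun j => (q i (Sum.inr j) : ℝ)) ≤ 1 * ρ₂ :=
            mul_le_mul (hf0 i) (hq3 i) (apply_nonneg N _) zero_le_one
        _ = ρ₂ := one_mul ρ₂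
    · rw [Finset.card_univ, nsmul_eq_mul]
      exact mul_le_mul_of_nonneg_right hcR hρ₂
  refine ⟨∑ i, m i • g i, comb_mem h0 m g hg1 hmn, ∑ l, r (Sum.inl l) • lam l,
    comb_int h0 lam hlam _ hrl hn, fun j => r (Sum.inr j),
    ∑ i, m i • (psi1 lam θ (q i) - g i), ?_, hrN, ?_⟩
  · refine sum_mem fun i _ => nsmul_mem ?_ _
    have := neg_mem (hg2 i)
    rwa [neg_sub] at this
  · have e1 : z = r + ∑ i, m i • q i := by
      show z = z - ∑ i, m i • q i + ∑ i, m i • q i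
      rw [sub_add_cancel]
    rw [e1, map_add, map_sum]
    simp only [map_nsmul, nsmul_sub, Finset.sum_sub_distrib]
    rw [psi1_apply]
    abel

end main

end Q8L

open Q8L in
theorem y8 : Y8.{u} := by
  intro G _ _ A H n p k lam θ N ρ₁ ρ₂ h0 hH hρ₁ hρ₂ hlam hN hA hn
  classical
  have : Fintype H := Fintype.ofFinite H
  obtain ⟨v, hv⟩ := exists_vecs A H lam θ N hρ₂ hlam hA
  obtain ⟨j0, -⟩ := hv.mem 0 h0
  have hC := convex_convexHull ℝ (SS v)
  have hfin : (SS v).Finite := by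
    unfold SS
    exact (Set.finite_range _).union (Set.finite_range _).neg
  have hCc : IsCompact (convexHull ℝ (SS v)) := hfin.isCompact_convexHull (𝕜 := ℝ)
  have hLc : Continuous (ext0 (Fin p ⊕ Fin k) H) := LinearMap.continuous_of_finiteDimensional _
  refine transfer (I := (Fin p ⊕ Fin k) ⊕ H)
    ((ext0 (Fin p ⊕ Fin k) H) '' ((n : ℝ) • convexHull ℝ (SS v)) + box p k H)
    (psiH H (psi1 lam θ)) (↑(n • A)) (fun g => ∃ x ∈ n • A - n • A, ∃ y ∈ n • A - n • A,
      ∃ b : Fin k → ℤ, ∃ h ∈ H, N (fun i => (b i : ℝ)) ≤ (p + k + 1) * ρ₂ + k * ρ₁ ∧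
        g = x + y + (θ b + h)) ?_ ?_ ?_ ?_ ?_ ?_
  · exact ((hC.smul _).linear_image _).add (box_convex p k H)
  · exact ((hCc.smul _).image hLc).add (box_compact p k H)
  · rintro _ ⟨_, ⟨_, ⟨y, hy, rfl⟩, rfl⟩, w, hw, rfl⟩
    refine ⟨_, ⟨_, ⟨-y, hull_neg v y hy, rfl⟩, rfl⟩, -w, ?_, ?_⟩
    · rw [mem_box] at hw ⊢
      obtain ⟨h1, h2, h3⟩ := hw
      refine ⟨fun i => ?_, fun j => ?_, fun h => ?_⟩
      · rw [Pi.neg_apply, h1 i, neg_zero]
      · rw [Pi.neg_apply, abs_neg]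
        exact h2 j
      · rw [Pi.neg_apply, abs_neg]
        exact h3 h
    · show ext0 (Fin p ⊕ Fin k) H ((n : ℝ) • -y) + -w = -(ext0 (Fin p ⊕ Fin k) H ((n : ℝ) • y) + w)
      rw [smul_neg, map_neg, neg_add]
  · intro x hx
    choose j hj using hv.unit
    have hpn : p ≤ n := (Nat.le_mul_of_pos_right p (Nat.succ_pos _)).trans hn
    have h1 : ∑ i : Fin p, x (Sum.inl (Sum.inl i)) • cz (v (j i)) ∈
        (n : ℝ) • convexHull ℝ (SS v) := by
      refine bal_smul hC (hull_neg v) (hull_zero v j0) _ _ (fun i => mem_hull v (j i)) ?_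
      refine (Finset.sum_le_card_nsmul _ _ 1 fun i _ => hx _).trans ?_
      rw [Finset.card_univ, Fintype.card_fin, nsmul_eq_mul, mul_one]
      exact_mod_cast hpn
    refine ⟨_, ⟨_, h1, rfl⟩, Sum.elim (Sum.elim 0 fun l => x (Sum.inl (Sum.inr l)))
      (fun h => x (Sum.inr h)), ?_, ?_⟩
    · rw [mem_box]
      exact ⟨fun i => rfl, fun l => hx _, fun h => hx _⟩
    · funext i
      rcases i with (i | l) | h
      · show (∑ i : Fin p, x (Sum.inl (Sum.inl i)) • cz (v (j i))) (Sum.inl i) + 0 = _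
        rw [add_zero, Finset.sum_apply, Finset.sum_eq_single i]
        · rw [hj i]
          show x (Sum.inl (Sum.inl i)) * (((Pi.single i 1 : Fin p → ℤ) i : ℤ) : ℝ) = _
          rw [Pi.single_eq_same, Int.cast_one, mul_one]
        · intro l _ hl
          rw [hj l]
          show x (Sum.inl (Sum.inl l)) * (((Pi.single l 1 : Fin p → ℤ) i : ℤ) : ℝ) = _
          rw [Pi.single_eq_of_ne hl.symm, Int.cast_zero, mul_zero]
        · intro h
          exact absurd (Finset.mem_univ i) h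
      · show (∑ i : Fin p, x (Sum.inl (Sum.inl i)) • cz (v (j i))) (Sum.inr l) +
          x (Sum.inl (Sum.inr l)) = _
        rw [Finset.sum_apply, Finset.sum_eq_zero, zero_add]
        intro i _
        rw [hj i]
        simp [cz]
      · show (0 : ℝ) + x (Sum.inr h) = _
        rw [zero_add]
  · intro x hx
    obtain ⟨q, hq, hxq⟩ := part_a hv h0 n x hx
    refine ⟨Sum.elim q (Pi.single ⟨x - psi1 lam θ q, hxq⟩ 1), ?_, ?_⟩
    · refine ⟨_, ⟨_, hq, rfl⟩, Sum.elim 0 (Pi.single ⟨x - psi1 lam θ q, hxq⟩ 1), ?_, ?_⟩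
      · rw [mem_box]
        refine ⟨fun i => rfl, fun l => ?_, fun h => ?_⟩
        · show |(0 : ℝ)| ≤ 1
          simp
        · show |(Pi.single (⟨x - psi1 lam θ q, hxq⟩ : H) (1 : ℝ) : H → ℝ) h| ≤ 1
          by_cases h' : h = ⟨x - psi1 lam θ q, hxq⟩
          · rw [h', Pi.single_eq_same, abs_one]
          · rw [Pi.single_eq_of_ne h', abs_zero]
            exact zero_le_one
      · funext i
        rcases i with i | h
        · show cz q i + 0 = _
          rw [add_zero]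
          rfl
        · show (0 : ℝ) + (Pi.single (⟨x - psi1 lam θ q, hxq⟩ : H) (1 : ℝ) : H → ℝ) h =
            (((Pi.single (⟨x - psi1 lam θ q, hxq⟩ : H) (1 : ℤ) : H → ℤ) h : ℤ) : ℝ)
          rw [zero_add]
          by_cases h' : h = ⟨x - psi1 lam θ q, hxq⟩
          · rw [h', Pi.single_eq_same, Pi.single_eq_same, Int.cast_one]
          · rw [Pi.single_eq_of_ne h', Pi.single_eq_of_ne h', Int.cast_zero]
    · rw [psiH_apply]
      have e1 : (fun i => (Sum.elim q (Pi.single (⟨x - psi1 lam θ q, hxq⟩ : H) 1) :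
          (Fin p ⊕ Fin k) ⊕ H → ℤ) (Sum.inl i)) = q := rfl
      have e2 : ∑ h : H, (Sum.elim q (Pi.single (⟨x - psi1 lam θ q, hxq⟩ : H) 1) :
          (Fin p ⊕ Fin k) ⊕ H → ℤ) (Sum.inr h) • (h : G) = x - psi1 lam θ q := by
        rw [Finset.sum_eq_single (⟨x - psi1 lam θ q, hxq⟩ : H)]
        · rw [Sum.elim_inr, Pi.single_eq_same, one_smul]
        · intro h _ h'
          rw [Sum.elim_inr, Pi.single_eq_of_ne h', zero_smul]
        · intro h
          exact absurd (Finset.mem_univ _) h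
      rw [e1, e2, add_sub_cancel]
  · rintro z ⟨_, ⟨y, hy, rfl⟩, w, hw, hzw⟩
    rw [mem_box] at hw
    obtain ⟨h1, h2, h3⟩ := hw
    have hz1 : ∀ i, (z (Sum.inl (Sum.inl i)) : ℝ) = y (Sum.inl i) := by
      intro i
      have h4 : y (Sum.inl i) + w (Sum.inl (Sum.inl i)) = (z (Sum.inl (Sum.inl i)) : ℝ) :=
        congrFun hzw (Sum.inl (Sum.inl i))
      rw [h1 i, add_zero] at h4
      exact h4.symm
    have hz2 : ∀ l, |(z (Sum.inl (Sum.inr l)) : ℝ) - y (Sum.inr l)| ≤ 1 := by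
      intro l
      have h4 : y (Sum.inr l) + w (Sum.inl (Sum.inr l)) = (z (Sum.inl (Sum.inr l)) : ℝ) :=
        congrFun hzw (Sum.inl (Sum.inr l))
      have e : (z (Sum.inl (Sum.inr l)) : ℝ) - y (Sum.inr l) = w (Sum.inl (Sum.inr l)) := by
        rw [← h4]
        ring
      rw [e]
      exact h2 l
    obtain ⟨a, ha, a', ha', b, h, hh, hb, he⟩ :=
      part_b hv h0 hlam hρ₂ hN hn hy (fun i => z (Sum.inl i)) hz1 hz2
    refine ⟨a, ha, a', ha', b, h + ∑ h : H, z (Sum.inr h) • (h : G), ?_, hb, ?_⟩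
    · exact add_mem hh (sum_mem fun h _ => zsmul_mem h.2 _)
    · rw [psiH_apply, he]
      abel

end Pool.Agent.H98.Fold
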