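import Pool.Agent.H98.Fold.Stmt9

/-!
# Polylogarithmic sumsets: the choice of the parameters
-/

set_option autoImplicit false
set_option linter.all false

namespace Pool.Agent.H98.Fold

namespace Q9L

theorem exists_c (C₀ CE : ℝ) (h0 : 0 < C₀) (h1 : 1 ≤ CE) : ∃ c : ℕ, 1 ≤ c ∧ CE ≤ c ∧
    24 + 128 * C₀ + 8 * CE * (209 + 19 * Real.log c) ≤ c := by
  obtain ⟨m, hm⟩ := exists_nat_ge (24 + 128 * C₀ + 1672 * CE + 304 * CE)
  have hm1 : (1 : ℝ) ≤ m := by linarith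
  have hm1' : 1 ≤ m := by exact_mod_cast hm1
  have hlog : Real.log ((m ^ 2 : ℕ) : ℝ) ≤ 2 * m := by
    push_cast
    rw [Real.log_pow]
    have := Real.log_le_sub_one_of_pos (show (0 : ℝ) < m by linarith)
    push_cast
    linarith
  refine ⟨m ^ 2, Nat.one_le_pow _ _ hm1', ?_, ?_⟩
  · push_cast
    nlinarith
  · have h2 : 8 * CE * (209 + 19 * Real.log ((m ^ 2 : ℕ) : ℝ)) ≤ 8 * CE * (209 + 19 * (2 * m)) := by
      gcongr
    refine (add_le_add_right h2 _).trans ?_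
    push_cast
    have h3 : (24 + 128 * C₀ + 1672 * CE + 304 * CE) * m ≤ m * m :=
      mul_le_mul_of_nonneg_right hm (by linarith)
    have h4 : 24 + 128 * C₀ + 1672 * CE ≤ (24 + 128 * C₀ + 1672 * CE) * m := by
      have : 0 ≤ 24 + 128 * C₀ + 1672 * CE := by linarith
      nlinarith
    nlinarith

theorem sq_two (a : ℕ) : a ^ 2 ≤ 2 * 2 ^ a := by
  induction a with
  | zero => norm_num
  | succ a ih =>
    have h : a < 2 ^ a := Nat.lt_two_pow_self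
    rw [pow_succ 2 a]
    nlinarith

theorem clog_sq (v : ℕ) : (Nat.clog 2 v) ^ 2 ≤ 4 * v := by
  by_cases hv : 1 < v
  · have h1 := Nat.pow_pred_clog_lt_self (b := 2) (by norm_num) hv
    have h2 := sq_two (Nat.clog 2 v)
    have h3 : 0 < Nat.clog 2 v := Nat.clog_pos (by norm_num) hv
    have h4 : 2 ^ (Nat.clog 2 v) = 2 * 2 ^ (Nat.clog 2 v).pred := by
      rw [mul_comm, ← pow_succ]
      congr 1
      exact (Nat.succ_pred_eq_of_pos h3).symm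
    omega
  · have : v ≤ 1 := by omega
    rw [Nat.clog_of_right_le_one this]
    simp

theorem clog_le (v : ℕ) : Nat.clog 2 v ≤ v :=
  Nat.clog_le_of_le_pow (Nat.lt_two_pow_self).le

theorem exp_half {δ : ℝ} (h0 : 0 ≤ δ) (h1 : δ ≤ 1) : Real.exp (δ / 2) ≤ 1 + δ := by
  have h2 := Real.add_one_le_exp (-(δ / 2))
  have h3 : Real.exp (δ / 2) * Real.exp (-(δ / 2)) = 1 := by
    rw [← Real.exp_add, add_neg_cancel, Real.exp_zero]
  have h4 := Real.exp_pos (δ / 2)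
  nlinarith

/-- the condition with the power of `1 + δ` -/
theorem cond5 {k₀ n E : ℕ} (hk : 48 ≤ k₀) (hn : 1 ≤ n) (hE : E ≤ k₀) {δ : ℝ}
    (hδ : δ = 1 / (24 * (3 * (k₀ : ℝ) * k₀ + 1) * k₀ ^ 3)) :
    ((4 * ((k₀ ^ 12 * n + 1) * n) : ℕ) : ℝ) ^ E < (1 + δ) ^ (k₀ ^ 12 * n) := by
  have hk' : (48 : ℝ) ≤ k₀ := by exact_mod_cast hk
  have hn' : (1 : ℝ) ≤ n := by exact_mod_cast hn
  have hk0 : (0 : ℝ) < k₀ := by linarith
  have hδ0 : 0 < δ := by rw [hδ]; positivity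
  have hM : 24 * (3 * (k₀ : ℝ) * k₀ + 1) * k₀ ^ 3 ≤ 96 * k₀ ^ 5 := by
    have : 3 * (k₀ : ℝ) * k₀ + 1 ≤ 4 * k₀ ^ 2 := by nlinarith
    calc 24 * (3 * (k₀ : ℝ) * k₀ + 1) * k₀ ^ 3 ≤ 24 * (4 * k₀ ^ 2) * k₀ ^ 3 := by gcongr
      _ = _ := by ring
  have hδ1 : 1 / (96 * (k₀ : ℝ) ^ 5) ≤ δ := by
    rw [hδ]
    exact one_div_le_one_div_of_le (by positivity) hM
  have hδ2 : δ ≤ 1 := by
    rw [hδ, div_le_one (by positivity)]
    have a1 : (1 : ℝ) ≤ 3 * (k₀ : ℝ) * k₀ + 1 := by nlinarith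
    have a2 : (1 : ℝ) ≤ (k₀ : ℝ) ^ 3 := one_le_pow₀ (by linarith)
    nlinarith
  have hx : ((4 * ((k₀ ^ 12 * n + 1) * n) : ℕ) : ℝ) ≤ Real.exp (17 * k₀ * n) := by
    have e1 : ((4 * ((k₀ ^ 12 * n + 1) * n) : ℕ) : ℝ) ≤ 8 * (k₀ : ℝ) ^ 12 * n ^ 2 := by
      push_cast
      have a1 : (1 : ℝ) ≤ (k₀ : ℝ) ^ 12 * n := by
        have : (1 : ℝ) ≤ (k₀ : ℝ) ^ 12 := one_le_pow₀ (by linarith)
        nlinarith
      nlinarith
    have e2 : (8 : ℝ) ≤ Real.exp 3 := by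
      have h2 : (2 : ℝ) ≤ Real.exp 1 := by
        have := Real.add_one_le_exp (1 : ℝ)
        linarith
      have h3 : Real.exp 3 = Real.exp 1 ^ 3 := by
        rw [← Real.exp_nat_mul]; norm_num
      rw [h3]
      calc (8 : ℝ) = 2 ^ 3 := by norm_num
        _ ≤ _ := by gcongr
    have e3 : (k₀ : ℝ) ≤ Real.exp k₀ := by
      have := Real.add_one_le_exp (k₀ : ℝ)
      linarith
    have e4 : (n : ℝ) ≤ Real.exp n := by
      have := Real.add_one_le_exp (n : ℝ)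
      linarith
    calc ((4 * ((k₀ ^ 12 * n + 1) * n) : ℕ) : ℝ) ≤ 8 * (k₀ : ℝ) ^ 12 * n ^ 2 := e1
      _ ≤ Real.exp 3 * (Real.exp k₀) ^ 12 * (Real.exp n) ^ 2 := by gcongr
      _ = Real.exp (3 + 12 * k₀ + 2 * n) := by
        rw [← Real.exp_nat_mul, ← Real.exp_nat_mul, ← Real.exp_add, ← Real.exp_add]
        push_cast
        ring_nf
      _ ≤ _ := by
        apply Real.exp_le_exp.2
        nlinarith
  have hEk : (E : ℝ) ≤ k₀ := by exact_mod_cast hE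
  have hE0 : (0 : ℝ) ≤ E := Nat.cast_nonneg E
  calc ((4 * ((k₀ ^ 12 * n + 1) * n) : ℕ) : ℝ) ^ E ≤ (Real.exp (17 * k₀ * n)) ^ E := by gcongr
    _ = Real.exp (E * (17 * k₀ * n)) := by rw [← Real.exp_nat_mul]
    _ ≤ Real.exp (k₀ * (17 * k₀ * n)) := by
      apply Real.exp_le_exp.2
      gcongr
    _ < Real.exp ((k₀ ^ 12 * n : ℕ) * (δ / 2)) := by
      apply Real.exp_lt_exp.2
      push_cast
      have a1 : (k₀ : ℝ) ^ 12 * n * (1 / (96 * (k₀ : ℝ) ^ 5) / 2) ≤ (k₀ : ℝ) ^ 12 * n * (δ / 2) := by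
        gcongr
      have a2 : (k₀ : ℝ) ^ 12 * n * (1 / (96 * (k₀ : ℝ) ^ 5) / 2) = (k₀ : ℝ) ^ 7 * n / 192 := by
        field_simp
        ring
      rw [a2] at a1
      refine lt_of_lt_of_le ?_ a1
      have a3 : (48 : ℝ) ^ 5 ≤ (k₀ : ℝ) ^ 5 := by gcongr
      have a4 : (3264 : ℝ) < (k₀ : ℝ) ^ 5 := lt_of_lt_of_le (by norm_num) a3
      have a5 : 0 < (k₀ : ℝ) ^ 2 * n := by positivity
      have a6 := mul_lt_mul_of_pos_right a4 a5
      rw [lt_div_iff₀ (by norm_num)]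
      calc (k₀ : ℝ) * (17 * k₀ * n) * 192 = 3264 * ((k₀ : ℝ) ^ 2 * n) := by ring
        _ < (k₀ : ℝ) ^ 5 * ((k₀ : ℝ) ^ 2 * n) := a6
        _ = (k₀ : ℝ) ^ 7 * n := by ring
    _ = (Real.exp (δ / 2)) ^ (k₀ ^ 12 * n) := by rw [← Real.exp_nat_mul]
    _ ≤ (1 + δ) ^ (k₀ ^ 12 * n) := by
      have := exp_half hδ0.le hδ2
      gcongr

/-- the main condition -/
theorem cond7 {C₀ CE K : ℝ} {c u n E : ℕ} (h0 : 0 < C₀) (h1 : 1 ≤ CE) (hc1 : 1 ≤ c) (hu : 1 ≤ u)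
    (hc : 24 + 128 * C₀ + 8 * CE * (209 + 19 * Real.log c) ≤ c) (hn1 : 1 ≤ n)
    (hn : (n : ℝ) ≤ 4096 * 400000 * c ^ 3 * u ^ 9) (hE : (E : ℝ) ≤ CE * u ^ 2)
    (hK : Real.log K ≤ u) :
    8 * (Real.log 2 + E * Real.log (4 * (n * (1 + ((2 * (c * u ^ 4 + 1) : ℕ) : ℝ) *
      (((48 * (c * u ^ 4)) ^ 12 * n : ℕ) : ℝ)))) + 2 * Real.log K + 16 * C₀ * u ^ 4) <
      ((c * u ^ 4 : ℕ) : ℝ) + 1 := by
  have hc' : (1 : ℝ) ≤ c := by exact_mod_cast hc1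
  have hu' : (1 : ℝ) ≤ u := by exact_mod_cast hu
  have hn' : (1 : ℝ) ≤ n := by exact_mod_cast hn1
  have hu4 : (1 : ℝ) ≤ (u : ℝ) ^ 4 := one_le_pow₀ hu'
  set R : ℝ := c * u ^ 4 with hR
  have hR1 : 1 ≤ R := by rw [hR]; nlinarith
  have hT : (4 * (n * (1 + ((2 * (c * u ^ 4 + 1) : ℕ) : ℝ) *
      (((48 * (c * u ^ 4)) ^ 12 * n : ℕ) : ℝ)))) ≤ 2 ^ 139 * (c : ℝ) ^ 19 * u ^ 70 := by
    have e1 : ((2 * (c * u ^ 4 + 1) : ℕ) : ℝ) = 2 * (R + 1) := by rw [hR]; push_cast; ring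
    have e2 : (((48 * (c * u ^ 4)) ^ 12 * n : ℕ) : ℝ) = (48 * R) ^ 12 * n := by
      rw [hR]; push_cast; ring
    rw [e1, e2]
    have a1 : 2 * (R + 1) ≤ 4 * R := by linarith
    have a2 : (1 : ℝ) ≤ (48 * R) ^ 12 * n := by
      have : (1 : ℝ) ≤ (48 * R) ^ 12 := one_le_pow₀ (by linarith)
      nlinarith
    have a3 : 1 + 2 * (R + 1) * ((48 * R) ^ 12 * n) ≤ 8 * R * ((48 * R) ^ 12 * n) := by
      nlinarith
    calc 4 * ((n : ℝ) * (1 + 2 * (R + 1) * ((48 * R) ^ 12 * n)))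
        ≤ 4 * ((n : ℝ) * (8 * R * ((48 * R) ^ 12 * n))) := by gcongr
      _ = 32 * 48 ^ 12 * R ^ 13 * (n : ℝ) ^ 2 := by ring
      _ ≤ 32 * 48 ^ 12 * R ^ 13 * (4096 * 400000 * (c : ℝ) ^ 3 * u ^ 9) ^ 2 := by gcongr
      _ = (32 * 48 ^ 12 * (4096 * 400000) ^ 2) * (c : ℝ) ^ 19 * u ^ 70 := by rw [hR]; ring
      _ ≤ 2 ^ 139 * (c : ℝ) ^ 19 * u ^ 70 := by gcongr; norm_num
  have hTpos : 0 < (4 * (n * (1 + ((2 * (c * u ^ 4 + 1) : ℕ) : ℝ) *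
      (((48 * (c * u ^ 4)) ^ 12 * n : ℕ) : ℝ)))) := by positivity
  have hlc : 0 ≤ Real.log c := Real.log_nonneg hc'
  have hlu : Real.log u ≤ u := by
    have := Real.log_le_sub_one_of_pos (show (0 : ℝ) < u by linarith)
    linarith
  have hl2 : Real.log 2 ≤ 1 := by
    have := Real.log_le_sub_one_of_pos (show (0 : ℝ) < 2 by norm_num)
    linarith
  have hlT : Real.log (4 * (n * (1 + ((2 * (c * u ^ 4 + 1) : ℕ) : ℝ) *
      (((48 * (c * u ^ 4)) ^ 12 * n : ℕ) : ℝ)))) ≤ 139 + 19 * Real.log c + 70 * u := by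
    refine (Real.log_le_log hTpos hT).trans ?_
    rw [Real.log_mul (by positivity) (by positivity), Real.log_mul (by positivity) (by positivity),
      Real.log_pow, Real.log_pow, Real.log_pow]
    push_cast
    linarith
  have hET : (E : ℝ) * Real.log (4 * (n * (1 + ((2 * (c * u ^ 4 + 1) : ℕ) : ℝ) *
      (((48 * (c * u ^ 4)) ^ 12 * n : ℕ) : ℝ)))) ≤ CE * u ^ 4 * (209 + 19 * Real.log c) := by
    have hE0 : (0 : ℝ) ≤ E := Nat.cast_nonneg E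
    have b0 : (u : ℝ) ≤ u ^ 2 := by nlinarith
    have b1 : 139 + 19 * Real.log c + 70 * u ≤ u ^ 2 * (209 + 19 * Real.log c) := by
      have : (1 : ℝ) ≤ (u : ℝ) ^ 2 := one_le_pow₀ hu'
      nlinarith
    calc (E : ℝ) * Real.log _ ≤ E * (139 + 19 * Real.log c + 70 * u) := by gcongr
      _ ≤ (CE * u ^ 2) * (u ^ 2 * (209 + 19 * Real.log c)) := by
        refine mul_le_mul hE b1 (by positivity) (by positivity)
      _ = _ := by ring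
  have hcast : ((c * u ^ 4 : ℕ) : ℝ) = R := by rw [hR]; push_cast; ring
  rw [hcast]
  have f1 : (u : ℝ) ≤ u ^ 4 := by
    calc (u : ℝ) = u ^ 1 := (pow_one _).symm
      _ ≤ u ^ 4 := pow_le_pow_right₀ hu' (by norm_num)
  have f2 : (24 + 128 * C₀ + 8 * CE * (209 + 19 * Real.log c)) * (u : ℝ) ^ 4 ≤ c * u ^ 4 := by
    gcongr
  rw [hR]
  nlinarith

end Q9L

open Q9L in
theorem y9 : Y9 := by
  intro C₀ CE h0 h1
  obtain ⟨c, hc1, hcE, hc⟩ := exists_c C₀ CE h0 h1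
  have hc' : (1 : ℝ) ≤ c := by exact_mod_cast hc1
  have hc3 : (1 : ℝ) ≤ (c : ℝ) ^ 3 := one_le_pow₀ hc'
  refine ⟨512 * 400000 * c ^ 3, by nlinarith, ?_⟩
  intro K n E hK hn1 hn2 hE
  set w : ℝ := 1 + Real.log K with hw
  have hlK : 0 ≤ Real.log K := Real.log_nonneg hK
  have hw1 : 1 ≤ w := by linarith
  set u : ℕ := ⌈w⌉₊ with hu
  have hwu : w ≤ u := Nat.le_ceil w
  have huw : (u : ℝ) ≤ 2 * w := by
    have := (Nat.ceil_lt_add_one (show 0 ≤ w by linarith)).le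
    linarith
  have hu1' : (1 : ℝ) ≤ u := hw1.trans hwu
  have hu1 : 1 ≤ u := by exact_mod_cast hu1'
  have hK0 : 0 < K := by linarith
  -- bounds of `K`
  have hKe : K * Real.exp 1 ≤ Real.exp u := by
    have e1 : K = Real.exp (Real.log K) := (Real.exp_log hK0).symm
    rw [e1, ← Real.exp_add]
    apply Real.exp_le_exp.2
    linarith
  have he1 : Real.exp 1 < 2.72 := lt_trans Real.exp_one_lt_d9 (by norm_num)
  have he2 : 2 ≤ Real.exp 1 := by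
    have := Real.add_one_le_exp (1 : ℝ)
    linarith
  have heu : Real.exp u = Real.exp 1 ^ u := by
    rw [← Real.exp_nat_mul, mul_one]
  have hKu : K ≤ Real.exp 1 ^ u := by
    rw [← heu]
    nlinarith
  -- the parameters
  set R : ℕ := c * u ^ 4 with hR
  have hu4 : u ≤ u ^ 4 := Nat.le_self_pow (by norm_num) u
  have huR : u ≤ R := by
    rw [hR]
    calc u ≤ u ^ 4 := hu4
      _ = 1 * u ^ 4 := (one_mul _).symm
      _ ≤ c * u ^ 4 := Nat.mul_le_mul_right _ hc1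
  have hR1 : 1 ≤ R := hu1.trans huR
  have hR1' : (1 : ℝ) ≤ R := by exact_mod_cast hR1
  set k₀ : ℕ := 48 * R with hk₀
  have hk48 : 48 ≤ k₀ := by omega
  have hk48' : (48 : ℝ) ≤ k₀ := by exact_mod_cast hk48
  have hk₀R : (k₀ : ℝ) = 48 * R := by rw [hk₀]; push_cast; ring
  set v : ℕ := 48 * c * u with hv
  set a : ℕ := Nat.clog 2 v with ha
  have hav : a ≤ v := clog_le v
  have ha2 : a ^ 2 ≤ 4 * v := clog_sq v
  have hva : v ≤ 2 ^ a := Nat.le_pow_clog (by norm_num) v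
  have hka : k₀ ≤ 2 ^ (4 * a) := by
    have e1 : k₀ ≤ v ^ 4 := by
      rw [hk₀, hR, hv]
      have : 48 * c ≤ (48 * c) ^ 4 := Nat.le_self_pow (by norm_num) _
      calc 48 * (c * u ^ 4) = (48 * c) * u ^ 4 := by ring
        _ ≤ (48 * c) ^ 4 * u ^ 4 := Nat.mul_le_mul_right _ this
        _ = (48 * c * u) ^ 4 := by ring
    calc k₀ ≤ v ^ 4 := e1
      _ ≤ (2 ^ a) ^ 4 := Nat.pow_le_pow_left hva 4
      _ = 2 ^ (4 * a) := by rw [← pow_mul, mul_comm]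
  have hvR : v ≤ k₀ := by
    rw [hv, hk₀, hR]
    calc 48 * c * u ≤ 48 * c * u ^ 4 := Nat.mul_le_mul_left _ hu4
      _ = _ := by ring
  set p₀ : ℕ := 11 * u + 28 * R * a with hp₀
  set M : ℝ := 3 * (k₀ : ℝ) * k₀ + 1 with hM
  have hM0 : 0 < M := by rw [hM]; positivity
  have hM4 : M ≤ 4 * k₀ ^ 2 := by rw [hM]; nlinarith
  have hn1' : (1 : ℝ) ≤ n := by
    have : (1 : ℝ) ≤ w ^ 9 := one_le_pow₀ hw1
    nlinarith
  have hn1n : 1 ≤ n := by exact_mod_cast hn1'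
  have hEu : (E : ℝ) ≤ CE * u ^ 2 := by
    refine hE.trans ?_
    gcongr
  have hEk : E ≤ k₀ := by
    have e1 : (E : ℝ) ≤ k₀ := by
      refine hEu.trans ?_
      rw [hk₀R, hR]
      push_cast
      have b1 : (u : ℝ) ^ 2 ≤ u ^ 4 := pow_le_pow_right₀ hu1' (by norm_num)
      have b2 : CE * (u : ℝ) ^ 2 ≤ (c : ℝ) * (u : ℝ) ^ 4 := by gcongr
      have b3 : (0 : ℝ) ≤ (c : ℝ) * (u : ℝ) ^ 4 := by positivity
      linarith
    exact_mod_cast e1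
  -- bound of p₀
  have hp1 : p₀ + k₀ + 1 ≤ (60 + 28 * a) * R := by
    rw [hp₀, hk₀]
    have : 11 * u + 28 * R * a + 48 * R + 1 ≤ 11 * R + 28 * R * a + 48 * R + R := by omega
    refine this.trans (le_of_eq ?_)
    ring
  have hp2 : p₀ * (p₀ + k₀ + 1) ≤ n := by
    have e1 : p₀ * (p₀ + k₀ + 1) ≤ 400000 * c ^ 3 * u ^ 9 := by
      have b1 : p₀ ≤ (60 + 28 * a) * R := by omega
      have b2 : (60 + 28 * a) ^ 2 ≤ 400000 * (c * u) := by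
        have b3 : 1 ≤ c * u := Nat.mul_pos hc1 hu1
        have b4 : (60 + 28 * a) ^ 2 ≤ 7200 + 1568 * a ^ 2 := by
          have h5 : 0 ≤ ((60 : ℤ) - 28 * a) ^ 2 := sq_nonneg _
          have : ((60 + 28 * a : ℕ) : ℤ) ^ 2 ≤ 7200 + 1568 * (a : ℤ) ^ 2 := by
            push_cast
            nlinarith
          exact_mod_cast this
        have b5 : v = 48 * (c * u) := by rw [hv]; ring
        rw [b5] at ha2
        omega
      calc p₀ * (p₀ + k₀ + 1) ≤ ((60 + 28 * a) * R) * ((60 + 28 * a) * R) := Nat.mul_le_mul b1 hp1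
        _ = (60 + 28 * a) ^ 2 * R ^ 2 := by ring
        _ ≤ (400000 * (c * u)) * R ^ 2 := Nat.mul_le_mul_right _ b2
        _ = _ := by rw [hR]; ring
    have e2 : ((p₀ * (p₀ + k₀ + 1) : ℕ) : ℝ) ≤ n := by
      have b1 : ((p₀ * (p₀ + k₀ + 1) : ℕ) : ℝ) ≤ 400000 * (c : ℝ) ^ 3 * u ^ 9 := by exact_mod_cast e1
      refine b1.trans (le_trans ?_ hn1)
      calc 400000 * (c : ℝ) ^ 3 * u ^ 9 ≤ 400000 * (c : ℝ) ^ 3 * (2 * w) ^ 9 := by gcongr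
        _ = 512 * 400000 * (c : ℝ) ^ 3 * w ^ 9 := by ring
    exact_mod_cast e2
  have hp0 : 11 ≤ p₀ := by omega
  have hp3 : p₀ + 1 ≤ n := by
    refine le_trans ?_ hp2
    nlinarith
  have hm₀ : p₀ + k₀ + 1 ≤ k₀ ^ 3 := by
    refine hp1.trans ?_
    have b1 : a ≤ k₀ := hav.trans hvR
    calc (60 + 28 * a) * R ≤ (60 + 28 * k₀) * k₀ := by
          apply Nat.mul_le_mul
          · omega
          · omega
      _ ≤ (k₀ * k₀) * k₀ := by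
          apply Nat.mul_le_mul_right
          nlinarith
      _ = k₀ ^ 3 := by ring
  have hkp : (0 : ℝ) < (k₀ : ℝ) ^ 3 := by positivity
  have hr0 : (3 * (k₀ : ℝ) * k₀ + 1) * (1 / (6 * M)) = 1 / 6 := by
    rw [← hM]
    field_simp
  refine ⟨16 * C₀ * u ^ 4, 1 / (24 * M * k₀ ^ 3), 1 / (6 * M), 1 / (6 * M) / k₀ ^ 3, 4 * u,
    2 * (R + 1), k₀ ^ 12 * n, R, 12 * R * (3 * k₀ * k₀ + 1), 24 * R * (3 * k₀ * k₀ + 1) * k₀ ^ 3,
    k₀, k₀, p₀, by omega, ?_, ?_, by positivity, ?_, ?_, ?_, ?_, ?_, ?_, ?_, ?_, by positivity, ?_,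
    hr0.le, ?_, ?_, hp2, hp3, ?_⟩
  · -- 3 K ^ 5 < 4 ^ (4 u)
    have b1 : (K * Real.exp 1) ^ 5 ≤ (Real.exp 1 ^ u) ^ 5 := by
      rw [← heu]
      gcongr
    have b2 : 3 * K ^ 5 < (K * Real.exp 1) ^ 5 := by
      rw [mul_pow]
      have b3 : (2 : ℝ) ^ 5 ≤ Real.exp 1 ^ 5 := by gcongr
      have b4 : 0 < K ^ 5 := by positivity
      nlinarith
    have b5 : (Real.exp 1 ^ u) ^ 5 ≤ 4 ^ (4 * u) := by
      rw [← pow_mul, mul_comm u 5, pow_mul, pow_mul]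
      have b6 : Real.exp 1 ^ 5 ≤ 4 ^ 4 := by
        calc Real.exp 1 ^ 5 ≤ 2.72 ^ 5 := by gcongr
          _ ≤ 4 ^ 4 := by norm_num
      gcongr
    linarith
  · -- C₀ k ^ 2 log (2 K) ^ 2 ≤ L
    have b1 : Real.log (2 * K) ≤ u := by
      rw [Real.log_mul (by norm_num) hK0.ne']
      have := Real.log_le_sub_one_of_pos (show (0 : ℝ) < 2 by norm_num)
      linarith
    have b2 : 0 ≤ Real.log (2 * K) := Real.log_nonneg (by linarith)
    push_cast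
    calc C₀ * (4 * (u : ℝ)) ^ 2 * Real.log (2 * K) ^ 2 ≤ C₀ * (4 * (u : ℝ)) ^ 2 * (u : ℝ) ^ 2 := by
          gcongr
      _ = 16 * C₀ * u ^ 4 := by ring
  · exact cond5 hk48 hn1n hEk rfl
  · -- 3 ^ (R + 1) ≤ 2 ^ j
    rw [pow_mul]
    norm_num
    gcongr
    norm_num
  · -- the main condition
    have hn3 : (n : ℝ) ≤ 4096 * 400000 * c ^ 3 * u ^ 9 := by
      refine hn2.trans ?_
      calc 8 * (512 * 400000 * (c : ℝ) ^ 3) * w ^ 9 ≤ 8 * (512 * 400000 * (c : ℝ) ^ 3) * u ^ 9 := by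
            gcongr
        _ = _ := by ring
    exact cond7 h0 h1 hc1 hu1 hc hn1n hn3 hEu (by linarith)
  · -- 1 ≤ q₀
    exact Nat.mul_pos (by omega) (Nat.succ_pos _)
  · exact Nat.mul_pos (Nat.mul_pos (by omega) (Nat.succ_pos _)) (by positivity)
  · push_cast
    rw [← hM]
    field_simp
    norm_num
  · push_cast
    rw [← hM]
    field_simp
    norm_num
  · field_simp
    norm_num
  · apply div_le_self (by positivity)
    exact one_le_pow₀ (by linarith)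
  · -- K ^ 6 q₀ ^ R < (t + 1) ^ k₀
    have b1 : ((12 * R * (3 * k₀ * k₀ + 1) : ℕ) : ℝ) ≤ ((k₀ : ℝ) + 1) ^ 3 := by
      push_cast
      rw [← hM]
      calc 12 * (R : ℝ) * M ≤ 12 * (R : ℝ) * (4 * k₀ ^ 2) := by gcongr
        _ = (k₀ : ℝ) ^ 3 := by rw [hk₀R]; ring
        _ ≤ ((k₀ : ℝ) + 1) ^ 3 := by gcongr; linarith
    have b2 : K ^ 6 < ((k₀ : ℝ) + 1) ^ (45 * R) := by
      have b3 : K ≤ 3 ^ u := by
        refine hKu.trans ?_
        gcongr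
        linarith
      calc K ^ 6 ≤ (3 ^ u) ^ 6 := by gcongr
        _ = 3 ^ (u * 6) := by rw [← pow_mul]
        _ ≤ 3 ^ (45 * R) := pow_le_pow_right₀ (by norm_num) (by omega)
        _ < ((k₀ : ℝ) + 1) ^ (45 * R) := by
          apply pow_lt_pow_left₀ (by linarith) (by norm_num) (by omega)
    have b4 : ((k₀ : ℝ) + 1) ^ k₀ = ((k₀ : ℝ) + 1) ^ (45 * R) * (((k₀ : ℝ) + 1) ^ 3) ^ R := by
      rw [← pow_mul, ← pow_add]
      congr 1
      omega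
    rw [b4]
    have b5 : (((12 * R * (3 * k₀ * k₀ + 1) : ℕ) : ℝ)) ^ R ≤ (((k₀ : ℝ) + 1) ^ 3) ^ R := by gcongr
    have b6 : 0 < (((k₀ : ℝ) + 1) ^ 3) ^ R := by positivity
    calc K ^ 6 * (((12 * R * (3 * k₀ * k₀ + 1) : ℕ) : ℝ)) ^ R ≤ K ^ 6 * (((k₀ : ℝ) + 1) ^ 3) ^ R := by
          gcongr
      _ < _ := mul_lt_mul_of_pos_right b2 b6
  · -- K ^ 7 q₁ ^ R < 2 ^ (p₀ + 1)
    have b1 : ((24 * R * (3 * k₀ * k₀ + 1) * k₀ ^ 3 : ℕ) : ℝ) ≤ (2 : ℝ) ^ (28 * a) := by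
      push_cast
      rw [← hM]
      have b2 : (k₀ : ℝ) ≤ 2 ^ (4 * a) := by exact_mod_cast hka
      calc 24 * (R : ℝ) * M * (k₀ : ℝ) ^ 3 ≤ 24 * (R : ℝ) * (4 * k₀ ^ 2) * (k₀ : ℝ) ^ 3 := by gcongr
        _ = 2 * (k₀ : ℝ) ^ 6 := by rw [hk₀R]; ring
        _ ≤ (k₀ : ℝ) * (k₀ : ℝ) ^ 6 := by gcongr; linarith
        _ = (k₀ : ℝ) ^ 7 := by ring
        _ ≤ (2 ^ (4 * a)) ^ 7 := by gcongr
        _ = (2 : ℝ) ^ (28 * a) := by rw [← pow_mul]; congr 1; ring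
    have b3 : K ^ 7 ≤ (2 : ℝ) ^ (11 * u) := by
      calc K ^ 7 ≤ (Real.exp 1 ^ u) ^ 7 := by gcongr
        _ = (Real.exp 1 ^ 7) ^ u := by rw [← pow_mul, ← pow_mul, mul_comm]
        _ ≤ (2 ^ 11) ^ u := by
          have : Real.exp 1 ^ 7 ≤ 2 ^ 11 := by
            calc Real.exp 1 ^ 7 ≤ 2.72 ^ 7 := by gcongr
              _ ≤ 2 ^ 11 := by norm_num
          gcongr
        _ = (2 : ℝ) ^ (11 * u) := by rw [← pow_mul]
    calc K ^ 7 * (((24 * R * (3 * k₀ * k₀ + 1) * k₀ ^ 3 : ℕ) : ℝ)) ^ R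
        ≤ (2 : ℝ) ^ (11 * u) * ((2 : ℝ) ^ (28 * a)) ^ R := by gcongr
      _ = (2 : ℝ) ^ p₀ := by
        rw [← pow_mul, ← pow_add, hp₀]
        congr 1
        ring
      _ < 2 ^ (p₀ + 1) := pow_lt_pow_right₀ (by norm_num) (Nat.lt_succ_self _)
  · -- the last condition
    have b1 : ((p₀ : ℝ) + k₀ + 1) ≤ (k₀ : ℝ) ^ 3 := by exact_mod_cast hm₀
    have b2 : ((p₀ : ℝ) + k₀ + 1) * (1 / (6 * M) / k₀ ^ 3) ≤ 1 / (6 * M) := by
      calc ((p₀ : ℝ) + k₀ + 1) * (1 / (6 * M) / k₀ ^ 3) ≤ (k₀ : ℝ) ^ 3 * (1 / (6 * M) / k₀ ^ 3) := by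
            gcongr
        _ = 1 / (6 * M) := by field_simp
    have b3 : 1 / (6 * M) ≤ 1 / 18 := by
      apply one_div_le_one_div_of_le (by norm_num)
      rw [hM]
      nlinarith
    have b4 : (k₀ : ℝ) * (k₀ * (1 / (6 * M))) ≤ 1 / 18 := by
      have : (k₀ : ℝ) * k₀ * 3 ≤ M := by rw [hM]; linarith
      rw [← mul_assoc, mul_one_div, div_le_div_iff₀ (by positivity) (by norm_num)]
      linarith
    have b5 : (1 : ℝ) / 18 + 1 / 18 ≤ 1 / 6 := by norm_num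
    linarith

end Pool.Agent.H98.Fold
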