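import Pool.Graph.R_seed8.H112R2.Final

/-!
# Polylogarithmic sumsets: definitions and interface

`G →+ UnitAddCircle` are the characters, `H112.ee t = exp (2 π i t)`, `H112.bohr S r` is the Bohr set
`{x | ∀ γ ∈ S, ‖γ x‖ ≤ r}`, `H112.ann S` the common kernel, `H112.LL N r` the integer points of
seminorm `≤ r`.
-/

set_option autoImplicit false

namespace Pool.Agent.H98.Fold

open Finset H112
open scoped Pointwise

universe u

/-- the Fourier transform of the indicator function of `T` -/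
noncomputable def fs {G : Type u} [AddCommGroup G] (T : Finset G) (γ : G →+ UnitAddCircle) : ℂ :=
  ∑ t ∈ T, ee (γ t)

/-- the characters with a Fourier coefficient of size at least `|T|/2` -/
def big {G : Type u} [AddCommGroup G] (T : Finset G) : Set (G →+ UnitAddCircle) :=
  {γ | (T.card : ℝ) / 2 ≤ ‖fs T γ‖}

/-- **Croot-Sisask, in finite abelian groups.**

Proof: copy of the library files `Pool/Graph/R_pool_sql_team_seeded_63374d34/N142/CD/{Stm,MOM,CS,AP}.lean`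
(there for `ZMod N`, statements `S_MOM`, `S_CS`, `S_AP`; nothing is used of `ZMod N` except that it is a
finite abelian group; `S_MOM` is already for any type and can be used from the library). They give `T ⊆ A`
with the size bound such that `g(y + s - s') - g(y)` is at most `1/(16 l)` in absolute value for `s, s' ∈ T`
and all `y`, where `g(y)` is the proportion of the `(x, a) ∈ A × A` with `x + y + a ∈ A + A`. As `g(0) = 1`,
`g ≥ 15/16` on `l • T - l • T` (telescoping), and `g(y) > 0` implies `y ∈ (A + A) - (A + A)`. -/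
def Y1a : Prop :=
  ∃ C : ℝ, 0 < C ∧ ∀ (G : Type) [AddCommGroup G] [Fintype G] [DecidableEq G] (A : Finset G) (K : ℝ)
    (l : ℕ), A.Nonempty → 1 ≤ K → ((A + A).card : ℝ) ≤ K * A.card → 1 ≤ l →
    ∃ T : Finset G, T ⊆ A ∧ T.Nonempty ∧
      (A.card : ℝ) ≤ Real.exp (C * l ^ 2 * Real.log (2 * K) ^ 2) * T.card ∧
      l • T - l • T ⊆ 2 • A - 2 • A

/-- **Croot-Sisask in arbitrary abelian groups.**

Proof from `Y1a`: let `G₀` be the subgroup generated by `A`; it is finitely generated, and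
`H112.exists_finite_quotient` (file `Pool/Graph/R_seed8/H112R2/Resid.lean`) gives `π : G₀ → Q`, `Q` finite,
injective on the finite set `(l A - l A) ∪ (2 A - 2 A)`. Apply `Y1a` to `π(A)`: the doubling is at most `K`
(`π` is injective on `A`), pull `T` back to `T ⊆ A`; if `x ∈ l T - l T` then `π x ∈ 2 π(A) - 2 π(A)`,
so `x ∈ 2 A - 2 A` by injectivity. (`H112.exists_model` in `Final.lean` for the passage to `G₀`.) -/
def Y1 : Prop :=
  ∃ C : ℝ, 0 < C ∧ ∀ (G : Type u) [AddCommGroup G] [DecidableEq G] (A : Finset G) (K : ℝ)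
    (l : ℕ), A.Nonempty → 1 ≤ K → ((A + A).card : ℝ) ≤ K * A.card → 1 ≤ l →
    ∃ T : Finset G, T ⊆ A ∧ T.Nonempty ∧
      (A.card : ℝ) ≤ Real.exp (C * l ^ 2 * Real.log (2 * K) ^ 2) * T.card ∧
      l • T - l • T ⊆ 2 • A - 2 • A

/-- **Positivity: the Bohr set of the large spectrum of `T` is in `X - X + k T - k T`.**

Proof. Let `x` be in the Bohr set. By `H112.exists_finite_quotient` take `π : G → Q`, `Q` finite abelian, injective on
`X ∪ {x} ∪ (X - X + (k T - k T))`. In `Q` let `a χ = (1/|X|) ∑_{y ∈ X} χ(π y)`, `b χ = (1/|T|) ∑_{t ∈ T} χ(π t)` for the characters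
`χ` of `Q`, and `f(y) = (1/|Q|) ∑_χ |a χ|² |b χ|^(2k) conj(χ y)`: this is the law of `π` of a random element
of `X - X + k T - k T`, so it is `≥ 0`, and it is `> 0` only on `π(X - X + kT - kT)`. By Cauchy-Schwarz
`f 0 ≥ 1/|X + k T| ≥ 1/(K |X|)`, and by Parseval `∑_χ |a χ|² = |Q|/|X|` (`π` is injective on `X`). If `|b χ| ≥ 1/2`
then `χ ∘ π` is in `big T`, so `Re χ(π x) ≥ 1/2` (as `‖χ(π x)‖ ≤ 1/6`, see `H112.Fourier_re_ee`). So
`|Q| Re f(π x) ≥ (1/2) ∑_χ - (3/2) ∑_{|b χ| < 1/2} ≥ |Q|/(2 K |X|) - (3/2) 4^(-k) |Q|/|X| > 0`. Hence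
`π x ∈ π(X - X + kT - kT)`, `x ∈ X - X + kT - kT`. (Compare `H112.fg_case`, `bohr_finite` in
`Pool/Graph/R_seed8/H112R2/Fourier.lean` and `Pool/Agent/H98/Sum/Spec.lean`, which do this for another function;
one may also use the elements of the group algebra with `H112.ft` and its multiplicativity there.) -/
def Y2 : Prop :=
  ∀ (G : Type u) [AddCommGroup G] [DecidableEq G] [AddGroup.FG G] (X T : Finset G) (K : ℝ) (k : ℕ),
    X.Nonempty → T.Nonempty → ((X + k • T).card : ℝ) ≤ K * X.card → 3 * K < 4 ^ k →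
    ∀ x ∈ bohr (big T) (1 / 6), x ∈ X - X + (k • T - k • T)

/-- **Relative form of Chang's theorem.**

Proof. Choose unimodular `ω i` with `ω i * fs T (Λ i) = ‖fs T (Λ i)‖` and put `u x = ∑ i, Re (ω i * ee (Λ i x))`, so
`∑_{t ∈ T} u t ≥ s |T|/2`. Let `τ = 1/2`. For real `y`, `|y| ≤ 1`: `exp (τ y) ≤ cosh τ + y sinh τ` (convexity), so
`exp (τ u x) ≤ ∏ i, (cosh τ + sinh τ * Re (ω i * ee (Λ i x)))`. Expand (`Finset.prod_univ_sum`) as
`∑ ε, c ε * ee ((∑ i, ε i • Λ i) x)`, `ε : Fin s → {-1,0,1}`, `c 0 = (cosh τ)^s`, `|c ε| ≤ (cosh τ)^s`. Average over the points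
`x = f + z_1 + … + z_j`, `f ∈ F`, `z ∈ Z^j`: the term of `ε ≠ 0` has absolute value at most
`(cosh τ)^s * (‖fs Z (∑ ε i • Λ i)‖/|Z|)^j ≤ (cosh τ)^s 2^(-j) ≤ (cosh τ)^s 3^(-s)`, and there are `3^s` of them. So the average is
`≤ 2 (cosh τ)^s ≤ 2 exp (τ² s/2)` (`Real.cosh_le_exp_half_sq`). On the other hand `exp (τ u) > 0` and for each `z ∈ Z^j` and `t ∈ T`
the point `t - ∑ z` is in `F`, so the average is `≥ (1/|F|) ∑_{t ∈ T} exp (τ u t) ≥ (|T|/|F|) exp (τ s/2)` by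
Jensen (`Real.inner_le_nnorm_mul_nnorm`… or `exp v ≥ exp v₀ (1 + v - v₀)`). Hence `s/4 ≤ log (2 |F|/|T|) + s/8`. -/
def Y3 : Prop :=
  ∀ (G : Type u) [AddCommGroup G] [DecidableEq G] (T F Z : Finset G) (j s : ℕ)
    (Λ : Fin s → (G →+ UnitAddCircle)), T.Nonempty → Z.Nonempty → T - j • Z ⊆ F →
    (3 : ℝ) ^ s ≤ 2 ^ j → (∀ i, Λ i ∈ big T) →
    (∀ ε : Fin s → ℤ, (∀ i, |ε i| ≤ 1) → ε ≠ 0 → (∑ i, ε i • Λ i) ∉ big Z) →
    (s : ℝ) ≤ 8 * Real.log (2 * F.card / T.card)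

/-- **Maximal dissociated families** (any abelian group `M`, `E` symmetric).

Proof. Take a family `Λ : Fin s → M` in `D` with the property of `h` (`∑ ε i • Λ i ∉ E` for `ε ≠ 0`) and `s` maximal
(`s ≤ R`; `s = 0` is possible; `Nat.findGreatest` or induction). For `γ ∈ D` the family `Fin.snoc Λ γ` fails the property: there is
`ε : Fin (s+1) → ℤ`, `ε ≠ 0`, with the sum `σ` in `E`. If `ε (last) = 0` this contradicts the property of `Λ`. So
`ε (last) = ± 1` and `γ = ± (σ - ∑ ε i • Λ i)`. -/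
def Y4 : Prop :=
  ∀ (M : Type u) [AddCommGroup M] (D E : Set M) (R : ℕ), (∀ η ∈ E, -η ∈ E) →
    (∀ (s : ℕ) (Λ : Fin s → M), (∀ i, Λ i ∈ D) →
      (∀ ε : Fin s → ℤ, (∀ i, |ε i| ≤ 1) → ε ≠ 0 → (∑ i, ε i • Λ i) ∉ E) → s ≤ R) →
    ∃ (s : ℕ) (Λ : Fin s → M), s ≤ R ∧ (∀ i, Λ i ∈ D) ∧
      ∀ γ ∈ D, ∃ ε : Fin s → ℤ, (∀ i, |ε i| ≤ 1) ∧ ∃ η ∈ E, γ = ∑ i, ε i • Λ i + η

/-- **The Bohr set is large.**

Proof. If `η ∈ big Z` and `x ∈ X - X` then `(ee (η x) - 1) fs Z η = ∑_{z ∈ Z} (ee (η (z + x)) - ee (η z))` has absolute value at most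
`2 |(Z + x) \ Z| ≤ 2 δ |Z|`, so `‖ee (η x) - 1‖ ≤ 4 δ` and `‖η x‖ ≤ δ` (`H112.four_mul_norm_le`). Pigeonhole: write `Λ i x`
as the class of a number in `[0,1)` and take the integral parts of its product with `q`; some class of
`≥ |X| / q^s` elements of `X` has the same integral parts; fix `x₀` in it. For `x` in it `‖Λ i (x - x₀)‖ ≤ 1/q ≤ r/(2 s)`, and so
`‖γ (x - x₀)‖ ≤ s/q + δ ≤ r` for all `γ ∈ D`. -/
def Y5 : Prop :=
  ∀ (G : Type u) [AddCommGroup G] [DecidableEq G] (X Z : Finset G) (D : Set (G →+ UnitAddCircle))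
    (s q : ℕ) (Λ : Fin s → (G →+ UnitAddCircle)) (δ r : ℝ), X.Nonempty → Z.Nonempty → 1 ≤ q →
    2 * s ≤ r * q → 2 * δ ≤ r → (∀ x ∈ X - X, (((Z + {x}) \ Z).card : ℝ) ≤ δ * Z.card) →
    (∀ γ ∈ D, ∃ ε : Fin s → ℤ, (∀ i, |ε i| ≤ 1) ∧ ∃ η ∈ big Z, γ = ∑ i, ε i • Λ i + η) →
    X.card ≤ q ^ s * {x : G | x ∈ X - X ∧ x ∈ bohr D r}.ncard

/-- **Short generators of `ℤ^m`.**

Proof. By induction on `k` one shows: for `v : Fin k → ℤ^m` there are `b : Fin k → ℤ^m`, each `b i` a real combination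
`∑ j, c j • v j` with `|c j| ≤ 1`, such that every `z ∈ ℤ^m` in the real span of the `v j` is an integer combination of the
`b i`. Step: if `v k` (the new vector) is in the real span `W` of the others, add `b k = 0`. If not, every `z ∈ ℤ^m` in the new span is
`w + f(z) v k` with `w ∈ W` and a unique `f(z) ∈ ℝ`. The set of the `z ∈ ℤ^m` of the form `∑_{j<k} c j v j + f v k`, `c j ∈ [0,1]`,
`f ∈ (0,1]`, is finite (bounded) and nonempty (`v k`); let `b k` be an element of it with `f` minimal. By subtracting integer multiples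
of the `v j`, `j < k`, one sees that `f(b k)` is the least positive value of `f` on integer points of the span, so every
`z` has `f(z) ∈ ℤ f(b k)` and `z - n b k ∈ W`: induction. Finally take linearly independent `v : Fin m → ℤ^m` with
`N (v j) ≤ ρ` (they exist because `LL N ρ` spans `ℝ^m`, `exists_linearIndependent`), then `N (b i) ≤ m ρ`. -/
def Y7 : Prop :=
  ∀ (m : ℕ) (N : Seminorm ℝ (Fin m → ℝ)) (ρ : ℝ), 0 ≤ ρ →
    Submodule.span ℝ {v : Fin m → ℝ | ∃ c ∈ LL N ρ, v = fun i => (c i : ℝ)} = ⊤ →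
    ∃ b : Fin m → Fin m → ℤ, (∀ i, N (fun l => (b i l : ℝ)) ≤ m * ρ) ∧
      ∀ z : Fin m → ℤ, ∃ n : Fin m → ℤ, z = ∑ i, n i • b i

/-- **The structure of Bohr sets of polynomial growth.** (May use `Y7` as a hypothesis: prove `Y7 → Y6`.)

Proof. `H112.lattice_repr S hfin` (file `Pool/Graph/R_seed8/H112R2/Lattice.lean`) for `ρ = r₀` gives `m, N, ψ`. With `a = |ann S|`
(finite: `ann S ⊆ bohr S (1/6)`): `|bohr S r₀| ≤ |LL N r₀| a`, and `|LL N (1/6)| a ≤ |bohr S (1/6)|` because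
`(c, h) ↦ ψ c + h` is injective on `LL N (1/6) × ann S` (if `ψ (c - c') ∈ ann S`, `N (c - c') ≤ 1/3 < 1/2`, then `c - c' ∈ LL N 0`, so
`c = c'`) with values in `bohr S (1/6)`. If `k₀ ≤ m` then `H112.dim_growth` with `M = k₀` (file `Dim.lean`) gives
`(t+1)^k₀ |LL N r₀| ≤ |LL N ((3 k₀ t + 1) r₀)| ≤ |LL N (1/6)|`, a contradiction. So `m < k₀`. `Y7` for `N`, `ρ = r₀` gives
generators `b`; `θ c = ψ (∑ c i • b i)`, `N' v = N (∑ v i • b i)`. For `x ∈ bohr S s₀` take `c ∈ LL N r₀` with `x - ψ c ∈ ann S`;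
then `ψ c ∈ bohr S s₀`, so `c ∈ LL N s₀`; write `c = ∑ n i • b i`. -/
def Y6 : Prop :=
  ∀ (G : Type u) [AddCommGroup G] (S : Set (G →+ UnitAddCircle)) (r₀ s₀ : ℝ) (k₀ t : ℕ),
    (bohr S (1 / 6)).Finite → 0 ≤ s₀ → s₀ ≤ r₀ → (3 * k₀ * t + 1) * r₀ ≤ 1 / 6 →
    (bohr S (1 / 6)).ncard < (t + 1) ^ k₀ * (bohr S r₀).ncard →
    ∃ (k : ℕ) (N : Seminorm ℝ (Fin k → ℝ)) (θ : (Fin k → ℤ) →+ G), k ≤ k₀ ∧ Finite (ann S) ∧
      (∀ i : Fin k, N (fun l => if l = i then 1 else 0) ≤ k * r₀) ∧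
      (∀ x ∈ bohr S s₀, ∃ c : Fin k → ℤ, N (fun i => (c i : ℝ)) ≤ s₀ ∧ x - θ c ∈ ann S) ∧
      ∀ c : Fin k → ℤ, N (fun i => (c i : ℝ)) ≤ 1 / 6 → θ c ∈ bohr S (1 / 6)

/-- **The convex progression.**

Proof. Index set `I = A ⊕ Fin p`, with vectors `v j ∈ ℤ^(p+k)` and elements `g j ∈ A`: for `a ∈ A` the vector `(ε(a), b(a))` and `g = a`,
for `i : Fin p` the vector `(e_i, 0)` and `g = lam i`. With `ψ₁ (u, w) = ∑ u i • lam i + θ w` we have `g j - ψ₁ (v j) ∈ H`. Let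
`V₁ = n • convexHull (± v j) + {(0, w) : |w i| ≤ 1} ⊆ ℝ^(p+k)`, compact, convex, symmetric. It contains the unit cube:
`(u, 0) = ∑ u i (e_i, 0)` with `∑ |u i| ≤ p ≤ n`. Let `D = p + k + |H|`, `V = V₁ × [-1,1]^H`, `ψ (z, y) = ψ₁ z + ∑_{h ∈ H} y h • h`;
the image of the integer points of `[-1,1]^H` is `H` (it contains each `h`). (a) `x = a_1 + … + a_n`: `z = ∑ v(a_i)` is in
`n • convexHull` and `x - ψ₁ z ∈ H`. (b) Let `z = (u, w) ∈ V₁` be an integer point: `z = n y + (0, b)`, `y` in the convex hull, `|b i| ≤ 1`.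
By Caratheodory (`eq_pos_convex_span_of_mem_convexHull`, or `convexHull_eq_union`) `y` is a convex combination of at most `p + k + 1` of the
points `± v j`, so `n y = ∑ t j v j` with `∑ |t j| ≤ n` and at most `p+k+1` nonzero `t j`. Round towards zero: integers `c j`, `|c j| ≤ |t j|`,
`|t j - c j| ≤ 1`. `ψ₁ (∑ c j v j)` is in `∑ c j g j + H`, and `∑ c j g j ∈ n A - n A` as `∑ |c j| ≤ n` and `0 ∈ A`. The rest
`z - ∑ c j v j = ∑ (t j - c j) v j + (0, b)` is an integer vector `(u', w')` with `|u' i| ≤ p + k + 1`, so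
`∑ u' i • lam i ∈ n A - n A` (`p (p + k + 1) ≤ n`), and `N w' ≤ (p + k + 1) ρ₂ + ∑ |b i| N(e_i) ≤ (p+k+1) ρ₂ + k ρ₁`. -/
def Y8 : Prop :=
  ∀ (G : Type u) [AddCommGroup G] [DecidableEq G] (A : Finset G) (H : AddSubgroup G) (n p k : ℕ)
    (lam : Fin p → G) (θ : (Fin k → ℤ) →+ G) (N : Seminorm ℝ (Fin k → ℝ)) (ρ₁ ρ₂ : ℝ),
    (0 : G) ∈ A → Finite H → 0 ≤ ρ₁ → 0 ≤ ρ₂ → (∀ i, lam i ∈ A) →
    (∀ i : Fin k, N (fun l => if l = i then 1 else 0) ≤ ρ₁) →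
    (∀ a ∈ A, ∃ (ε : Fin p → ℤ) (b : Fin k → ℤ), (∀ i, |ε i| ≤ 1) ∧
      N (fun i => (b i : ℝ)) ≤ ρ₂ ∧ a - ∑ i, ε i • lam i - θ b ∈ H) →
    p * (p + k + 1) ≤ n →
    ∃ (D : ℕ) (V : Set (Fin D → ℝ)) (ψ : (Fin D → ℤ) →+ G), Convex ℝ V ∧ IsCompact V ∧
      (∀ x ∈ V, -x ∈ V) ∧ (∀ x : Fin D → ℝ, (∀ i, |x i| ≤ 1) → x ∈ V) ∧
      (∀ x ∈ n • A, ∃ z : Fin D → ℤ, (fun i => (z i : ℝ)) ∈ V ∧ x = ψ z) ∧
      ∀ z : Fin D → ℤ, (fun i => (z i : ℝ)) ∈ V →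
        ∃ x ∈ n • A - n • A, ∃ y ∈ n • A - n • A, ∃ b : Fin k → ℤ, ∃ h ∈ H,
          N (fun i => (b i : ℝ)) ≤ (p + k + 1) * ρ₂ + k * ρ₁ ∧ ψ z = x + y + (θ b + h)

end Pool.Agent.H98.Fold
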