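import Pool.Agent.H98.Fold.Final
import Pool.Agent.H98.Fold.Q8

/-!
# Polylogarithmic sumsets: the theorem for arbitrary sums
-/

set_option autoImplicit false

namespace Pool.Agent.H98.Fold

open Finset H112 Pool.Agent.H98.Gap Pool.Agent.H98.Big Pool.Agent.Y806.DF Pool.Agent.R92.Star
open scoped Pointwise

universe u v

theorem concl_mono {Γ : Type u} [AddCommGroup Γ] {C C' K : ℝ} (hK : 1 ≤ K) (hC : C ≤ C')
    {A : Finset Γ} (h : Concl C K A) (hC0 : 0 ≤ C') : Concl C' K A := by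
  obtain ⟨d, Q, θ, H, T, g1, g2, g3, g4, g5, g6⟩ := h
  have hK0 : 0 < K := by linarith
  refine ⟨d, Q, θ, H, T, ?_, g2, g3, g4, ?_, g6⟩
  · refine g1.trans (mul_le_mul_of_nonneg_right hC ?_)
    exact Real.log_nonneg (by linarith)
  · refine g5.trans ?_
    calc C * K ^ C ≤ C' * K ^ C := mul_le_mul_of_nonneg_right hC (by positivity)
      _ ≤ C' * K ^ C' := mul_le_mul_of_nonneg_left (Real.rpow_le_rpow_of_exponent_le hK hC) hC0

/-- the theorem for `n • A` -/
theorem fold_single (h9 : Y9) : ∃ C : ℝ, 1 ≤ C ∧ ∀ (Γ : Type u) [AddCommGroup Γ] [DecidableEq Γ]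
    (K : ℝ) (A B : Finset Γ) (n : ℕ), 1 ≤ K → (0 : Γ) ∈ A → B.Nonempty →
    C * (1 + Real.log K) ^ 9 ≤ n → ((B + n • A).card : ℝ) ≤ K * (n • A).card →
    ((n • A).card : ℝ) ≤ K * B.card → Concl C K B := by
  obtain ⟨C₀, hC₀, hcs⟩ := y1.{u} y1a
  obtain ⟨Cp, hCp, hgr⟩ := growth_bound.{u}
  obtain ⟨Cn, hCn, hnum⟩ := h9 C₀ Cp hC₀ hCp
  obtain ⟨C', hC', hconv⟩ := conv_thm.{u}
  have h13 : 1 ≤ (13 + Cp) ^ 9 := one_le_pow₀ (by linarith)
  have hC1 : 1 ≤ Cn * (13 + Cp) ^ 9 + 1 := by nlinarith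
  have hCs : 1 ≤ (Cn * (13 + Cp) ^ 9 + 1) + (100 * |C'| + 1) := by
    have := abs_nonneg C'
    linarith
  refine ⟨(Cn * (13 + Cp) ^ 9 + 1) + (100 * |C'| + 1), hCs, ?_⟩
  intro Γ _ _ K A B n hK h0 hB hn hBA hAB
  have hlK : 0 ≤ Real.log K := Real.log_nonneg hK
  have hw : 1 ≤ (1 + Real.log K) ^ 9 := one_le_pow₀ (by linarith)
  have h1 := fold_fin (Cp := Cp) (Cn := Cn) (C' := C') hCp hCn hgr
    (fun Γ _ _ A K n E h0 hK hn1 hd hg hnl hnu hE =>
      fold_gen hcs y2 y3 y4 y5 (y6 y7) y8 hnum h0 hK hn1 hd hg hnl hnu hE)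
    hconv Γ K A B n hK h0 hB (by
      refine le_trans ?_ hn
      have h2 : 0 ≤ (100 * |C'| + 1) * (1 + Real.log K) ^ 9 := by positivity
      calc Cn * (13 + Cp) ^ 9 * (1 + Real.log K) ^ 9 + 1
          ≤ Cn * (13 + Cp) ^ 9 * (1 + Real.log K) ^ 9 + (1 + Real.log K) ^ 9 := by linarith
        _ ≤ _ := by linarith) hBA hAB
  exact concl_mono hK (by linarith) h1 (by linarith)

theorem sum_sub_sum {Γ : Type u} [AddCommGroup Γ] [DecidableEq Γ] {ι : Type v} (s : Finset ι)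
    (F G : ι → Finset Γ) (h : ∀ i ∈ s, F i ⊆ G i) : ∑ i ∈ s, F i ⊆ ∑ i ∈ s, G i := by
  classical
  induction s using Finset.induction_on with
  | empty => simp
  | insert a s ha ih =>
    rw [Finset.sum_insert ha, Finset.sum_insert ha]
    exact Finset.add_subset_add (h a (Finset.mem_insert_self a s))
      (ih fun i hi => h i (Finset.mem_insert_of_mem hi))

theorem sum_translate {Γ : Type u} [AddCommGroup Γ] [DecidableEq Γ] {ι : Type v} (s : Finset ι)
    (A : ι → Finset Γ) (a : ι → Γ) (n : ι → ℕ) :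
    ∃ c : Γ, ∑ i ∈ s, n i • (A i + {a i}) = (∑ i ∈ s, n i • A i) + {c} := by
  classical
  induction s using Finset.induction_on with
  | empty => exact ⟨0, by rw [Finset.sum_empty, Finset.sum_empty, zero_add]; rfl⟩
  | insert b s hb ih =>
    obtain ⟨c, hc⟩ := ih
    have h1 : ∀ k : ℕ, k • ({a b} : Finset Γ) = {k • a b} := by
      intro k
      induction k with
      | zero => rw [zero_smul, zero_smul]; rfl
      | succ k ih => rw [succ_nsmul, ih, succ_nsmul, Finset.singleton_add_singleton]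
    refine ⟨n b • a b + c, ?_⟩
    rw [Finset.sum_insert hb, Finset.sum_insert hb, hc, nsmul_add, h1,
      ← Finset.singleton_add_singleton]
    exact add_add_add_comm _ _ _ _

/-- the theorem for sums of arbitrary sets, each taken many times -/
theorem fold_multi (h9 : Y9) : ∃ C : ℝ, ∀ (Γ : Type u) [AddCommGroup Γ] [DecidableEq Γ]
    (ι : Type v) (s : Finset ι) (K : ℝ) (A : ι → Finset Γ) (B : Finset Γ) (n : ι → ℕ), 1 ≤ K →
    (∀ i ∈ s, (A i).Nonempty) → B.Nonempty → (∀ i ∈ s, C * (1 + Real.log K) ^ 9 ≤ n i) →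
    ((B + ∑ i ∈ s, n i • A i).card : ℝ) ≤ K * (∑ i ∈ s, n i • A i).card →
    ((∑ i ∈ s, n i • A i).card : ℝ) ≤ K * B.card → Concl C K B := by
  obtain ⟨C, hC, hsing⟩ := fold_single.{u} h9
  have hCC : 10 * |C| + 1 ≤ 10 ^ 9 * C + 1 := by
    rw [abs_of_pos (by linarith)]
    linarith
  refine ⟨10 ^ 9 * C + 1, ?_⟩
  intro Γ _ _ ι s K A B n hK hA hB hn hBA hAB
  classical
  have hK0 : 0 < K := by linarith
  have hlK : 0 ≤ Real.log K := Real.log_nonneg hK
  -- translates containing the origin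
  obtain ⟨a, ha⟩ : ∃ a : ι → Γ, ∀ i ∈ s, a i ∈ A i := by
    have : Nonempty Γ := ⟨0⟩
    choose! a ha using hA
    exact ⟨a, ha⟩
  obtain ⟨A₀, hA₀⟩ : ∃ A₀ : ι → Finset Γ, A₀ = fun i => A i + {-a i} := ⟨_, rfl⟩
  have h0A₀ : ∀ i ∈ s, (0 : Γ) ∈ A₀ i := by
    intro i hi
    rw [hA₀]
    exact Finset.mem_add.2 ⟨a i, ha i hi, -a i, Finset.mem_singleton_self _, add_neg_cancel _⟩
  obtain ⟨X, hX⟩ : ∃ X : Finset Γ, X = ∑ i ∈ s, n i • A₀ i := ⟨_, rfl⟩
  obtain ⟨c, hc⟩ := sum_translate s A (fun i => -a i) n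
  have hXc : X = (∑ i ∈ s, n i • A i) + {c} := by rw [hX, hA₀, hc]
  have hcX : X.card = (∑ i ∈ s, n i • A i).card := by
    rw [hXc, Finset.card_add_singleton]
  have hcBX : (B + X).card = (B + ∑ i ∈ s, n i • A i).card := by
    rw [hXc, ← add_assoc, Finset.card_add_singleton]
  rw [← hcBX, ← hcX] at hBA
  rw [← hcX] at hAB
  have h0X : (0 : Γ) ∈ X := by
    have h1 := sum_sub_sum s (fun _ => (0 : Finset Γ)) (fun i => n i • A₀ i) (fun i hi => by
      intro x hx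
      rw [Finset.mem_zero] at hx
      rw [hx]
      exact Finset.zero_mem_nsmul (h0A₀ i hi))
    rw [Finset.sum_const_zero, ← hX] at h1
    exact h1 (Finset.mem_zero.2 rfl)
  have hXne : X.Nonempty := ⟨0, h0X⟩
  have hX0 : (0 : ℝ) < X.card := by exact_mod_cast hXne.card_pos
  have hB0 : (0 : ℝ) < B.card := by exact_mod_cast hB.card_pos
  have hdoub : ((X + X).card : ℝ) ≤ K ^ 3 * X.card := by
    have h1 := Finset.ruzsa_triangle_inequality_add_add_add X B X
    have h2 : ((X + X).card : ℝ) * B.card ≤ (X + B).card * (B + X).card := by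
      exact_mod_cast h1
    rw [add_comm X B] at h2
    have h3 : ((X + X).card : ℝ) * B.card ≤ (K ^ 3 * X.card) * B.card := by
      calc _ ≤ _ := h2
        _ ≤ (K * X.card) * (K * X.card) :=
          mul_le_mul hBA hBA (Nat.cast_nonneg _) (by positivity)
        _ ≤ (K * X.card) * (K * (K * B.card)) := by gcongr
        _ = _ := by ring
    exact le_of_mul_le_mul_right h3 hB0
  -- the common number of summands
  obtain ⟨N, hN⟩ : ∃ N : ℕ, N = ⌈C * (1 + Real.log (K ^ 10)) ^ 9⌉₊ := ⟨_, rfl⟩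
  have hNl : C * (1 + Real.log (K ^ 10)) ^ 9 ≤ N := by rw [hN]; exact Nat.le_ceil _
  have hw10 : 1 + Real.log (K ^ 10) ≤ 10 * (1 + Real.log K) := by
    rw [Real.log_pow]; push_cast; linarith
  have hw10' : 1 ≤ 1 + Real.log (K ^ 10) := by
    rw [Real.log_pow]; push_cast; linarith
  have hNu : (N : ℝ) ≤ (10 ^ 9 * C + 1) * (1 + Real.log K) ^ 9 := by
    have h1 : (N : ℝ) < C * (1 + Real.log (K ^ 10)) ^ 9 + 1 := by
      rw [hN]; exact Nat.ceil_lt_add_one (by positivity)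
    have h2 : (1 + Real.log (K ^ 10)) ^ 9 ≤ (10 * (1 + Real.log K)) ^ 9 :=
      pow_le_pow_left₀ (by linarith) hw10 9
    have h3 : 1 ≤ (1 + Real.log K) ^ 9 := one_le_pow₀ (by linarith)
    have h4 : C * (1 + Real.log (K ^ 10)) ^ 9 ≤ C * (10 * (1 + Real.log K)) ^ 9 :=
      mul_le_mul_of_nonneg_left h2 (by linarith)
    rw [mul_pow] at h4
    linarith
  have hN1 : 1 ≤ N := by
    have h3 : 1 ≤ (1 + Real.log (K ^ 10)) ^ 9 := one_le_pow₀ hw10'
    have : (1 : ℝ) ≤ N := by nlinarith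
    exact_mod_cast this
  obtain ⟨m, hm⟩ : ∃ m : ι → ℕ, m = fun i => n i / N + 1 := ⟨_, rfl⟩
  have hm1 : ∀ i ∈ s, n i ≤ N * m i := by
    intro i _
    rw [hm]
    have h1 := Nat.div_add_mod (n i) N
    have h2 := Nat.mod_lt (n i) (Nat.lt_of_lt_of_le Nat.zero_lt_one hN1)
    show n i ≤ N * (n i / N + 1)
    rw [mul_add, mul_one]
    omega
  have hm2 : ∀ i ∈ s, N * m i ≤ 2 * n i := by
    intro i hi
    rw [hm]
    have h1 := Nat.div_add_mod (n i) N
    have h3 : (N : ℝ) ≤ n i := hNu.trans (hn i hi)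
    have h4 : N ≤ n i := by exact_mod_cast h3
    show N * (n i / N + 1) ≤ 2 * n i
    rw [mul_add, mul_one]
    omega
  obtain ⟨A', hA'⟩ : ∃ A' : Finset Γ, A' = ∑ i ∈ s, m i • A₀ i := ⟨_, rfl⟩
  have h0A' : (0 : Γ) ∈ A' := by
    have h1 := sum_sub_sum s (fun _ => (0 : Finset Γ)) (fun i => m i • A₀ i) (fun i hi => by
      intro x hx
      rw [Finset.mem_zero] at hx
      rw [hx]
      exact Finset.zero_mem_nsmul (h0A₀ i hi))
    rw [Finset.sum_const_zero, ← hA'] at h1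
    exact h1 (Finset.mem_zero.2 rfl)
  have hNA' : N • A' = ∑ i ∈ s, (N * m i) • A₀ i := by
    rw [hA', ← Finset.sum_nsmul]
    exact Finset.sum_congr rfl fun i _ => (mul_nsmul' _ _ _).symm
  have h2X : 2 • X = ∑ i ∈ s, (2 * n i) • A₀ i := by
    rw [hX, ← Finset.sum_nsmul]
    exact Finset.sum_congr rfl fun i _ => (mul_nsmul' _ _ _).symm
  have hsub1 : X ⊆ N • A' := by
    rw [hX, hNA']
    exact sum_sub_sum _ _ _ fun i hi => Finset.nsmul_subset_nsmul_right (h0A₀ i hi) (hm1 i hi)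
  have hsub2 : N • A' ⊆ 2 • X := by
    rw [h2X, hNA']
    exact sum_sub_sum _ _ _ fun i hi => Finset.nsmul_subset_nsmul_right (h0A₀ i hi) (hm2 i hi)
  have hcard1 : (X.card : ℝ) ≤ (N • A').card := by exact_mod_cast Finset.card_le_card hsub1
  have hcard2 : ((N • A').card : ℝ) ≤ K ^ 3 * X.card := by
    refine le_trans ?_ hdoub
    rw [← two_nsmul]
    exact_mod_cast Finset.card_le_card hsub2
  have hBX2 : ((B + 2 • X).card : ℝ) ≤ K ^ 10 * X.card := by
    have h1 := Finset.ruzsa_triangle_inequality_add_add_add B X (2 • X)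
    have h2 : ((B + 2 • X).card : ℝ) * X.card ≤ (B + X).card * (X + 2 • X).card := by
      exact_mod_cast h1
    have h4 := plun hXne hdoub 3 0
    have e : (3 • X - 0 • X : Finset Γ) = X + 2 • X := by
      rw [zero_smul, sub_zero, show (3 : ℕ) = 1 + 2 by norm_num, add_smul, one_smul]
    rw [e] at h4
    have h3 : ((B + 2 • X).card : ℝ) * X.card ≤ (K ^ 10 * X.card) * X.card := by
      calc _ ≤ _ := h2
        _ ≤ (K * X.card) * ((K ^ 3) ^ (3 + 0) * X.card) :=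
          mul_le_mul hBA h4 (by positivity) (by positivity)
        _ = _ := by ring
    exact le_of_mul_le_mul_right h3 hX0
  have hK10 : 1 ≤ K ^ 10 := one_le_pow₀ hK
  have h1 := hsing Γ (K ^ 10) A' B N hK10 h0A' hB hNl (by
    have h2 : ((B + N • A').card : ℝ) ≤ (B + 2 • X).card := by
      exact_mod_cast Finset.card_le_card (Finset.add_subset_add_left hsub2)
    calc _ ≤ _ := h2
      _ ≤ _ := hBX2
      _ ≤ _ := mul_le_mul_of_nonneg_left hcard1 (by positivity)) (by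
    calc ((N • A').card : ℝ) ≤ K ^ 3 * X.card := hcard2
      _ ≤ K ^ 3 * (K * B.card) := mul_le_mul_of_nonneg_left hAB (by positivity)
      _ = K ^ 4 * B.card := by ring
      _ ≤ _ := mul_le_mul_of_nonneg_right (pow_le_pow_right₀ hK (by norm_num)) hB0.le)
  have h2 := concl_pow hK (m := 10) (by norm_num) h1
  refine concl_mono hK ?_ h2 (by linarith)
  push_cast
  exact hCC

end Pool.Agent.H98.Fold
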